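import Pool.Agent.Work.MP_1aab6d_co_h84.Final

set_option autoImplicit false

namespace UnfT

open Finset Classical

variable {V : Type*} {G : SimpleGraph V}

/-! ### Stability and unfriendliness -/

lemma Stab.mono {s s' : V → Bool} {v : V} (hv : ¬ Inf G v) (h : Stab G s v)
    (hn : ∀ w, G.Adj v w → s w ≠ s v → s' w ≠ s' v) : Stab G s' v := by
  have hf : (G.neighborSet v).Finite := Set.not_infinite.1 hv
  unfold Stab at *
  refine (Set.ncard_le_ncard ?_ (hf.subset fun w hw => hw.1)).trans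
    (h.trans (Set.ncard_le_ncard ?_ (hf.subset fun w hw => hw.1)))
  · rintro w ⟨hw1, hw2⟩
    refine ⟨hw1, ?_⟩
    by_contra hne
    exact hn w hw1 hne hw2
  · rintro w ⟨hw1, hw2⟩
    exact ⟨hw1, hn w hw1 hw2⟩

/-- A colouring which is stable at the vertices of finite degree and makes the vertices of infinite
degree happy is unfriendly. -/
theorem unfriendly_of_stab [Countable V] {c : V → Bool} (hc : ∀ v, ¬ Inf G v → Stab G c v)
    (hI : ∀ u, Inf G u → Happy G c u) : Unfriendly G c := by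
  intro v
  by_cases hv : Inf G v
  · have h1 : Infinite {w : V // G.Adj v w ∧ c w ≠ c v} := (hI v hv).to_subtype
    calc Cardinal.mk {w : V // G.Adj v w ∧ c w = c v} ≤ Cardinal.aleph0 := Cardinal.mk_le_aleph0
      _ ≤ _ := Cardinal.aleph0_le_mk _
  · have hf : (G.neighborSet v).Finite := Set.not_infinite.1 hv
    have h1 : ({w | G.Adj v w ∧ c w = c v}).Finite := hf.subset fun w hw => hw.1
    have h2 : ({w | G.Adj v w ∧ c w ≠ c v}).Finite := hf.subset fun w hw => hw.1
    have e1 : Cardinal.mk {w : V // G.Adj v w ∧ c w = c v}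
        = (({w | G.Adj v w ∧ c w = c v}).ncard : Cardinal) := (Set.cast_ncard h1).symm
    have e2 : Cardinal.mk {w : V // G.Adj v w ∧ c w ≠ c v}
        = (({w | G.Adj v w ∧ c w ≠ c v}).ncard : Cardinal) := (Set.cast_ncard h2).symm
    rw [e1, e2]
    exact_mod_cast hc v hv

/-! ### Mixed colourings -/

variable (G) in
/-- The colouring `c` is strong on `R`, which contains the vertices of infinite degree, and stable
outside `R`; the vertices outside `R` lie in finite components outside `R`. -/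
structure Mixed (c : V → Bool) (R : Set V) : Prop where
  inf : ∀ v, Inf G v → v ∈ R
  closed : ∀ x ∈ R, ¬ Inf G x → ∀ w, G.Adj x w → w ∈ R
  fin : ∀ x, x ∉ R → (comp G x).Finite
  strong : ∀ Q : Finset V, (∀ x ∈ Q, x ∈ R ∧ ¬ Inf G x) → 0 ≤ en G (eps Set.univ c) Q
  stab : ∀ v, v ∉ R → Stab G c v

lemma Mixed.all_stab {c : V → Bool} {R : Set V} (h : Mixed G c R) {v : V} (hv : ¬ Inf G v) :
    Stab G c v := by
  by_cases hR : v ∈ R
  · exact (stab_iff c hv).2 (h.strong {v} (by simpa using ⟨hR, hv⟩))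
  · exact h.stab v hR

lemma en_lower {c : V → Bool} {w : V} (hw : Inf G w) (hfin : {y | G.Adj w y ∧ c y ≠ c w}.Finite)
    (Q : Finset V) (hQ : ∀ x ∈ Q, ¬ Inf G x) :
    en G (eps Set.univ c) Q - 2 * (hfin.toFinset.card : ℤ) ≤
      en G (eps Set.univ (Function.update c w (!(c w)))) Q := by
  set c1 := Function.update c w (!(c w)) with hc1
  set O := hfin.toFinset with hO
  have hwQ : w ∉ Q := fun h => hQ w h hw
  have e1 : en G (fun x y => eps Set.univ c x y + if y ∈ ({w} : Finset V) then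
      (if x ∈ O then (-2 : ℤ) else 0) else 0) Q ≤ en G (eps Set.univ c1) Q := by
    refine en_mono fun x hx y hy _ => ?_
    have hxw : x ≠ w := fun h => hwQ (h ▸ hx)
    by_cases hyw : y = w
    · subst hyw
      rw [if_pos (Finset.mem_singleton_self _)]
      by_cases hxO : x ∈ O
      · rw [if_pos hxO]
        have a1 := eps_le_one Set.univ c x y
        have a2 := neg_one_le_eps Set.univ c1 x y
        linarith
      · rw [if_neg hxO]
        have : c x = c y := by
          by_contra hne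
          refine hxO ?_
          rw [hO, Set.Finite.mem_toFinset]
          exact ⟨((mem_nb G (hQ x hx)).1 hy).symm, hne⟩
        rw [eps_eq_neg (by simp [this]), eps_eq_one (Set.mem_univ _)
          (by rw [hc1, Function.update_self, Function.update_of_ne hxw, this]; simp)]
        norm_num
    · rw [if_neg (by simpa using hyw), add_zero]
      unfold eps
      rw [hc1, Function.update_of_ne hxw, Function.update_of_ne hyw]
  rw [en_add_ind _ _ (by simpa using hwQ)] at e1
  have e2 : -(2 * (O.card : ℤ)) ≤ cr G (fun x _ => if x ∈ O then (-2 : ℤ) else 0) Q {w} := by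
    unfold cr
    have : ∀ x ∈ Q, (if x ∈ O then (-2 : ℤ) else 0)
        ≤ ∑ y ∈ nb G x ∩ {w}, (if x ∈ O then (-2 : ℤ) else 0) := by
      intro x _
      rw [Finset.sum_const]
      have hcard : (nb G x ∩ {w}).card ≤ 1 := by
        refine (Finset.card_le_card Finset.inter_subset_right).trans ?_
        simp
      split_ifs
      · interval_cases hh : (nb G x ∩ {w}).card <;> simp
      · simp
    refine le_trans ?_ (Finset.sum_le_sum this)
    rw [← Finset.sum_filter, Finset.sum_const, nsmul_eq_mul]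
    have : ((Q.filter (· ∈ O)).card : ℤ) ≤ O.card := by
      exact_mod_cast Finset.card_le_card (fun x hx => (mem_filter.1 hx).2)
    linarith
  linarith

/-- The flip of an unhappy vertex in a mixed colouring. -/
theorem Mixed.flip {c : V → Bool} {R : Set V} (hm : Mixed G c R) {w : V} (hw : Inf G w)
    (hnh : ¬ Happy G c w) : ∃ (Q : Finset V) (R' : Set V), (∀ x ∈ Q, ¬ Inf G x) ∧
      Mixed G (flp (Function.update c w (!(c w))) Q) R' := by
  have hfin : {y | G.Adj w y ∧ c y ≠ c w}.Finite := Set.not_infinite.1 hnh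
  set c1 := Function.update c w (!(c w)) with hc1
  set O := hfin.toFinset with hO
  set Z : Set V := ⋃ y ∈ {y | y ∈ {y | G.Adj w y ∧ c y ≠ c w} ∧ y ∉ R}, comp G y with hZ
  have hZf : Z.Finite := (hfin.subset fun y hy => hy.1).biUnion fun y hy => hm.fin y hy.2
  have hFR : ∀ y, y ∉ R → ¬ Inf G y := fun y hy hI => hy (hm.inf y hI)
  have hZF : ∀ x ∈ Z, ¬ Inf G x := by
    intro x hx
    simp only [hZ, Set.mem_iUnion] at hx
    obtain ⟨y, hy, hx⟩ := hx
    exact comp_not_inf (hFR y hy.2) hx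
  set R' : Set V := R ∪ Z with hR'
  have hclosed : ∀ x ∈ R', ¬ Inf G x → ∀ w, G.Adj x w → w ∈ R' := by
    rintro x (hx | hx) hxI v hv
    · exact Or.inl (hm.closed x hx hxI v hv)
    · simp only [hZ, Set.mem_iUnion] at hx
      obtain ⟨y, hy, hx⟩ := hx
      rcases comp_adj hx hv with h1 | h1
      · exact Or.inr (Set.mem_biUnion hy h1)
      · exact Or.inl (hm.inf v h1.1)
  -- lower bound
  obtain ⟨M, hM⟩ : ∃ M : ℤ, ∀ Q : Finset V, (∀ x ∈ Q, x ∈ R' ∧ ¬ Inf G x) →
      M ≤ en G (eps Set.univ c1) Q := by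
    refine ⟨-(∑ x ∈ hZf.toFinset, ((nb G x).card : ℤ)) - 2 * (O.card : ℤ), fun Q hQ => ?_⟩
    have h0 := en_lower hw hfin Q fun x hx => (hQ x hx).2
    set Q1 := Q.filter (· ∈ R) with hQ1
    set Q2 := Q.filter (· ∉ R) with hQ2
    have hd : Disjoint Q1 Q2 := by
      rw [Finset.disjoint_left]; intro x h1 h2
      rw [mem_filter] at h1 h2; exact h2.2 h1.2
    have hU : Q = Q1 ∪ Q2 := (Finset.filter_union_filter_not_eq (· ∈ R) Q).symm
    have m1 : ∀ x ∈ Q1, x ∈ R ∧ ¬ Inf G x := fun x hx => by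
      rw [hQ1, mem_filter] at hx; exact ⟨hx.2, (hQ x hx.1).2⟩
    have m2 : ∀ x ∈ Q2, x ∉ R ∧ x ∈ Z ∧ ¬ Inf G x := fun x hx => by
      rw [hQ2, mem_filter] at hx
      exact ⟨hx.2, (hQ x hx.1).1.resolve_left hx.2, (hQ x hx.1).2⟩
    have c12 : cr G (eps Set.univ c) Q1 Q2 = 0 := by
      unfold cr
      refine Finset.sum_eq_zero fun x hx => ?_
      have : nb G x ∩ Q2 = ∅ := by
        rw [Finset.eq_empty_iff_forall_notMem]
        intro y hy
        rw [mem_inter] at hy
        exact (m2 y hy.2).1 (hm.closed x (m1 x hx).1 (m1 x hx).2 y ((mem_nb G (m1 x hx).2).1 hy.1))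
      rw [this, Finset.sum_empty]
    have c21 : cr G (eps Set.univ c) Q2 Q1 = 0 := by
      rw [cr_symm (fun x hx => (m2 x hx).2.2) (fun x hx => (m1 x hx).2)
        (fun x _ y _ _ => eps_symm (Set.mem_univ _) (Set.mem_univ _)), c12]
    have e1 := en_union (G := G) (eps Set.univ c) hd
    rw [← hU, c12, c21] at e1
    have e2 := hm.strong Q1 m1
    have e3 : -(∑ x ∈ hZf.toFinset, ((nb G x).card : ℤ)) ≤ en G (eps Set.univ c) Q2 := by
      have hsub : Q2 ⊆ hZf.toFinset := fun x hx => by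
        rw [Set.Finite.mem_toFinset]; exact (m2 x hx).2.1
      calc -(∑ x ∈ hZf.toFinset, ((nb G x).card : ℤ)) ≤ -(∑ x ∈ Q2, ((nb G x).card : ℤ)) :=
            neg_le_neg (Finset.sum_le_sum_of_subset_of_nonneg hsub fun _ _ _ => Int.natCast_nonneg _)
        _ = ∑ x ∈ Q2, -((nb G x).card : ℤ) := by rw [Finset.sum_neg_distrib]
        _ ≤ en G (eps Set.univ c) Q2 := by
          unfold en
          refine Finset.sum_le_sum fun x _ => ?_
          have hc1 : ((nb G x \ Q2).card : ℤ) ≤ (nb G x).card := by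
            exact_mod_cast Finset.card_le_card Finset.sdiff_subset
          have hc2 : ∑ y ∈ nb G x \ Q2, (-1 : ℤ) ≤ ∑ y ∈ nb G x \ Q2, eps Set.univ c x y :=
            Finset.sum_le_sum fun y _ => neg_one_le_eps _ _ _ _
          rw [Finset.sum_const, nsmul_eq_mul] at hc2
          linarith
    linarith
  obtain ⟨m, ⟨Q, hQ, hQm⟩, hmin⟩ := Int.exists_least_of_bdd
    (P := fun z => ∃ Q : Finset V, (∀ x ∈ Q, x ∈ R' ∧ ¬ Inf G x) ∧ en G (eps Set.univ c1) Q = z)
    ⟨M, by rintro z ⟨Q, hQ, rfl⟩; exact hM Q hQ⟩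
    ⟨_, ∅, fun x hx => absurd hx (Finset.notMem_empty x), rfl⟩
  have hQF : ∀ x ∈ Q, ¬ Inf G x := fun x hx => (hQ x hx).2
  refine ⟨Q, R', hQF, fun v hv => Or.inl (hm.inf v hv), hclosed,
    fun x hx => hm.fin x fun h => hx (Or.inl h), fun Q' hQ' => ?_, fun v hv => ?_⟩
  · rw [en_flp c1 Q Q' hQF (fun x hx => (hQ' x hx).2), hQm]
    have := hmin _ ⟨symmDiff Q Q', ?_, rfl⟩
    · linarith
    · intro x hx
      rw [Finset.mem_symmDiff] at hx
      rcases hx with hx | hx
      · exact hQ x hx.1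
      · exact hQ' x hx.1
  · have hvR : v ∉ R := fun h => hv (Or.inl h)
    have hvI : ¬ Inf G v := hFR v hvR
    have hvw : v ≠ w := fun h => hvI (h ▸ hw)
    have hvQ : v ∉ Q := fun h => hv (hQ v h).1
    have e1 : flp c1 Q v = c v := by
      rw [flp_of_not_mem hvQ, hc1, Function.update_of_ne hvw]
    refine (hm.stab v hvR).mono hvI fun x hx hne => ?_
    rw [e1]
    by_cases hxw : x = w
    · subst hxw
      exfalso
      refine hv (Or.inr (Set.mem_biUnion (show v ∈ {y | y ∈ {y | G.Adj x y ∧ c y ≠ c x} ∧ y ∉ R} from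
        ⟨⟨hx.symm, hne.symm⟩, hvR⟩) (mem_comp_self v)))
    · have hxQ : x ∉ Q := fun h => by
        obtain ⟨h1, h2⟩ := hQ x h
        exact hv (hclosed x h1 h2 v hx.symm)
      rw [flp_of_not_mem hxQ, hc1, Function.update_of_ne hxw]
      exact hne

/-- If all but finitely many vertices of infinite degree are happy, the colouring can be repaired. -/
theorem Mixed.repair (n : ℕ) : ∀ (c : V → Bool) (R : Set V), Mixed G c R →
    {u | Inf G u ∧ ¬ Happy G c u}.encard ≤ n →
    ∃ (c' : V → Bool) (R' : Set V), Mixed G c' R' ∧ ∀ u, Inf G u → Happy G c' u := by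
  induction n with
  | zero =>
    intro c R hc h
    refine ⟨c, R, hc, fun u hu => ?_⟩
    by_contra hn
    have : {u | Inf G u ∧ ¬ Happy G c u} = ∅ := by
      rw [← Set.encard_eq_zero]; simpa using h
    exact (this ▸ (show u ∈ {u | Inf G u ∧ ¬ Happy G c u} from ⟨hu, hn⟩) : u ∈ (∅ : Set V))
  | succ n ih =>
    intro c R hc h
    by_cases hall : ∀ u, Inf G u → Happy G c u
    · exact ⟨c, R, hc, hall⟩
    push Not at hall
    obtain ⟨w, hw, hwn⟩ := hall
    obtain ⟨Q, R', hQ, hT⟩ := hc.flip hw hwn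
    set c' := UnfT.flp (Function.update c w (!(c w))) Q with hc'
    have hwQ : w ∉ Q := fun h => hQ w h hw
    have hcw : c' w = !(c w) := by rw [hc', flp_of_not_mem hwQ, Function.update_self]
    have hag : ∀ v, v ∉ insert w Q → c' v = c v := by
      intro v hv
      rw [Finset.mem_insert, not_or] at hv
      rw [hc', flp_of_not_mem hv.2, Function.update_of_ne hv.1]
    refine ih c' R' hT ?_
    have hsub : {u | Inf G u ∧ ¬ Happy G c' u} ⊆ {u | Inf G u ∧ ¬ Happy G c u} \ {w} := by
      rintro u ⟨hu, hun⟩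
      have huw : u ≠ w := by
        rintro rfl
        apply hun
        have hfin : {y | G.Adj u y ∧ c y ≠ c u}.Finite := Set.not_infinite.1 hwn
        have : (G.neighborSet u \ ({y | G.Adj u y ∧ c y ≠ c u} ∪ ↑(insert u Q))).Infinite :=
          Set.Infinite.sdiff hu (hfin.union (Finset.finite_toSet _))
        refine this.mono ?_
        rintro y ⟨hy1, hy2⟩
        rw [Set.mem_union, not_or] at hy2
        refine ⟨hy1, ?_⟩
        rw [hcw, hag y (by simpa using hy2.2)]
        have : c y = c u := by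
          by_contra hne
          exact hy2.1 ⟨hy1, hne⟩
        rw [this]; simp
      refine ⟨⟨hu, fun hh => hun ?_⟩, huw⟩
      have huQ : u ∉ insert w Q := by
        rw [Finset.mem_insert, not_or]
        exact ⟨huw, fun h => hQ u h hu⟩
      exact hh.flp hag (hag u huQ)
    have hmem : w ∈ {u | Inf G u ∧ ¬ Happy G c u} := ⟨hw, hwn⟩
    have h1 := Set.encard_le_encard hsub
    have h2 := Set.encard_sdiff_singleton_add_one hmem
    have h3 : ({u | Inf G u ∧ ¬ Happy G c u} \ {w}).encard + 1 ≤ (n : ℕ∞) + 1 := by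
      rw [h2]; simpa using h
    have h4 := (ENat.add_le_add_iff_right (by simp : (1 : ℕ∞) ≠ ⊤)).1 h3
    exact h1.trans h4

/-! ### Allocation of components -/

lemma exists_alloc {A : ℕ → Set V} (hA : ∀ n, (A n).Infinite)
    (hA' : ∀ n, ∀ x ∈ A n, ¬ Inf G x ∧ (comp G x).Finite) :
    ∃ y : ℕ → V, (∀ n, y n ∈ A n) ∧ ∀ m n, m ≠ n → y m ∉ comp G (y n) := by
  have hpick : ∀ (n : ℕ) (F : Finset V), ∃ y ∈ A n, ∀ x ∈ F, (comp G x).Finite → y ∉ comp G x := by
    intro n F
    have hf : (⋃ x ∈ {x | x ∈ F ∧ (comp G x).Finite}, comp G x).Finite :=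
      (F.finite_toSet.subset fun x hx => hx.1).biUnion fun x hx => hx.2
    obtain ⟨y, hy, hyn⟩ := ((hA n).sdiff hf).nonempty
    refine ⟨y, hy, fun x hx hxf hyx => hyn ?_⟩
    exact Set.mem_biUnion (show x ∈ {x | x ∈ F ∧ (comp G x).Finite} from ⟨hx, hxf⟩) hyx
  choose pick hp1 hp2 using hpick
  let F : ℕ → Finset V := fun n => Nat.rec ∅ (fun n F => insert (pick n F) F) n
  have hF : ∀ n, F (n + 1) = insert (pick n (F n)) (F n) := fun n => rfl
  have hmono : ∀ m n, m ≤ n → F m ⊆ F n := by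
    intro m n hmn
    induction n, hmn using Nat.le_induction with
    | base => exact subset_rfl
    | succ n _ ih => rw [hF]; exact ih.trans (Finset.subset_insert _ _)
  have hlt : ∀ m n, m < n → pick n (F n) ∉ comp G (pick m (F m)) := by
    intro m n hmn
    refine hp2 n (F n) _ (hmono (m + 1) n hmn ?_) (hA' m _ (hp1 m _)).2
    rw [hF]; exact Finset.mem_insert_self _ _
  refine ⟨fun n => pick n (F n), fun n => hp1 n _, fun m n hmn => ?_⟩
  rcases lt_or_gt_of_ne hmn with h | h
  · intro hc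
    exact hlt m n h (comp_symm (hA' n _ (hp1 n _)).1 hc)
  · exact hlt n m h

/-- From potential happiness to happiness. -/
theorem exists_mixed [Countable V] {c : V → Bool} (hc : TM G c) :
    ∃ (c' : V → Bool) (R : Set V), Mixed G c' R ∧
      ∀ u, Inf G u → PH G c u → Happy G c' u := by
  let P2 : V → Set V := fun u => {y | G.Adj u y ∧ ¬ Inf G y ∧ (comp G y).Finite ∧
    ∃ s : V → Bool, (∀ v, v ∉ comp G y → s v = c v) ∧ (∀ v ∈ comp G y, Stab G s v) ∧ s y ≠ c u}
  have hsplit : ∀ u, PH G c u → (P2 u).Infinite ∨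
      {y | G.Adj u y ∧ c y ≠ c u ∧ ¬ (¬ Inf G y ∧ (comp G y).Finite)}.Infinite := by
    intro u hu
    by_contra hcon
    rw [not_or, Set.not_infinite, Set.not_infinite] at hcon
    refine hu ((hcon.1.union hcon.2).subset ?_)
    rintro y ⟨hy1, hy2⟩
    by_cases hy : ¬ Inf G y ∧ (comp G y).Finite
    · refine Or.inl ⟨hy1, hy.1, hy.2, ?_⟩
      rcases hy2 with hy2 | hy2
      · exact ⟨c, fun _ _ => rfl, fun v hv => hc.stab (comp_not_inf hy.1 hv), hy2⟩
      · exact hy2.2.2
    · refine Or.inr ⟨hy1, ?_, hy⟩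
      rcases hy2 with hy2 | hy2
      · exact hy2
      · exact absurd ⟨hy2.1, hy2.2.1⟩ hy
  by_cases hJ : ∃ u, (P2 u).Infinite
  · -- a sequence of requirements
    obtain ⟨g, hg⟩ : ∃ g : ℕ → {u // (P2 u).Infinite}, Function.Surjective g := by
      have : Nonempty {u // (P2 u).Infinite} := ⟨⟨hJ.choose, hJ.choose_spec⟩⟩
      exact exists_surjective_nat _
    let r : ℕ → V := fun n => (g (Nat.unpair n).1).1
    have hr : ∀ n, (P2 (r n)).Infinite := fun n => (g (Nat.unpair n).1).2
    obtain ⟨y, hy1, hy2⟩ := exists_alloc (G := G) hr (fun n x hx => ⟨hx.2.1, hx.2.2.1⟩)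
    have hyF : ∀ n, ¬ Inf G (y n) := fun n => (hy1 n).2.1
    have hyf : ∀ n, (comp G (y n)).Finite := fun n => (hy1 n).2.2.1
    have hdis : ∀ m n v, v ∈ comp G (y m) → v ∈ comp G (y n) → m = n := by
      intro m n v hm hn
      by_contra hne
      refine hy2 m n hne ?_
      have h1 := comp_symm (hyF m) hm
      rw [comp_eq (hyF n) hn] at h1
      exact h1
    choose s hs1 hs2 hs3 using fun n => (hy1 n).2.2.2
    set A : Set V := ⋃ n, comp G (y n) with hA
    let c' : V → Bool := fun v => if h : ∃ n, v ∈ comp G (y n) then s h.choose v else c v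
    have e1 : ∀ n, ∀ v ∈ comp G (y n), c' v = s n v := by
      intro n v hv
      have h : ∃ n, v ∈ comp G (y n) := ⟨n, hv⟩
      have e : c' v = s h.choose v := dif_pos h
      rw [e, hdis _ _ v h.choose_spec hv]
    have e2 : ∀ v, v ∉ A → c' v = c v := by
      intro v hv
      have h : ¬ ∃ n, v ∈ comp G (y n) := fun h => hv (Set.mem_iUnion.2 h)
      exact dif_neg h
    have hAI : ∀ v, Inf G v → v ∉ A := by
      intro v hv hA
      obtain ⟨n, hn⟩ := Set.mem_iUnion.1 hA
      exact comp_not_inf (hyF n) hn hv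
    refine ⟨c', Aᶜ, ⟨fun v hv => hAI v hv, ?_, ?_, ?_, ?_⟩, ?_⟩
    · intro x hx hxI w hw hwA
      obtain ⟨n, hn⟩ := Set.mem_iUnion.1 hwA
      rcases comp_adj hn hw.symm with h1 | h1
      · exact hx (Set.mem_iUnion.2 ⟨n, h1⟩)
      · exact hxI h1.1
    · intro x hx
      rw [Set.notMem_compl_iff] at hx
      obtain ⟨n, hn⟩ := Set.mem_iUnion.1 hx
      rw [comp_eq (hyF n) hn]; exact hyf n
    · intro Q hQ
      refine (hc Q fun x hx => ⟨Set.mem_univ _, (hQ x hx).2⟩).trans_eq (en_congr fun x hx w hw _ => ?_)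
      have hxA := (hQ x hx).1
      have hwA : w ∉ A := by
        intro hwA
        obtain ⟨n, hn⟩ := Set.mem_iUnion.1 hwA
        rcases comp_adj hn ((mem_nb G (hQ x hx).2).1 hw).symm with h1 | h1
        · exact hxA (Set.mem_iUnion.2 ⟨n, h1⟩)
        · exact (hQ x hx).2 h1.1
      unfold eps
      rw [e2 x hxA, e2 w hwA]
    · intro v hv
      rw [Set.notMem_compl_iff] at hv
      obtain ⟨n, hn⟩ := Set.mem_iUnion.1 hv
      refine (hs2 n v hn).congr (e1 n v hn) fun w hw => ?_
      rcases comp_adj hn hw with h1 | h1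
      · exact e1 n w h1
      · rw [e2 w (hAI w h1.1), hs1 n w fun h => hAI w h1.1 (Set.mem_iUnion.2 ⟨n, h⟩)]
    · intro u hu hph
      by_cases hP2 : (P2 u).Infinite
      · obtain ⟨k, hk⟩ := hg ⟨u, hP2⟩
        have hinj : Function.Injective fun j => y (Nat.pair k j) := by
          intro i j hij
          have : Nat.pair k i = Nat.pair k j := by
            refine hdis _ _ (y (Nat.pair k i)) (mem_comp_self _) ?_
            have hij' : y (Nat.pair k i) = y (Nat.pair k j) := hij
            rw [hij']; exact mem_comp_self _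
          exact (Nat.pair_eq_pair.1 this).2
        refine (Set.infinite_range_of_injective hinj).mono ?_
        rintro _ ⟨j, rfl⟩
        have hrj : r (Nat.pair k j) = u := by
          simp only [r, Nat.unpair_pair, hk]
        have h1 := hy1 (Nat.pair k j)
        rw [hrj] at h1
        refine ⟨h1.1, ?_⟩
        rw [e1 _ _ (mem_comp_self _), e2 u (hAI u hu), ← hrj]
        exact hs3 (Nat.pair k j)
      · refine ((hsplit u hph).resolve_left hP2).mono ?_
        rintro w ⟨hw1, hw2, hw3⟩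
        refine ⟨hw1, ?_⟩
        have hwA : w ∉ A := by
          intro hwA
          obtain ⟨n, hn⟩ := Set.mem_iUnion.1 hwA
          exact hw3 ⟨comp_not_inf (hyF n) hn, by rw [comp_eq (hyF n) hn]; exact hyf n⟩
        rw [e2 w hwA, e2 u (hAI u hu)]; exact hw2
  · push Not at hJ
    refine ⟨c, Set.univ, ⟨fun _ _ => Set.mem_univ _, fun _ _ _ _ _ => Set.mem_univ _,
      fun x hx => absurd (Set.mem_univ _) hx, fun Q hQ => hc Q hQ,
      fun x hx => absurd (Set.mem_univ _) hx⟩, fun u _ hph => ?_⟩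
    exact ((hsplit u hph).resolve_left (by rw [Set.not_infinite]; exact hJ u)).mono fun w hw => ⟨hw.1, hw.2.1⟩

/-- **Main theorem, abstract form.** -/
theorem unfriendly_of_rob [Countable V] (G : SimpleGraph V)
    (h : {u | Inf G u ∧ ¬ (Good G u ∨ RobU G u)}.Finite) : ∃ c : V → Bool, Unfriendly G c := by
  rcases isEmpty_or_nonempty V with hV | hV
  · exact ⟨fun _ => false, fun v => (hV.false v).elim⟩
  obtain ⟨c, hc, hg⟩ := exists_almost G
  obtain ⟨c1, R, hm, hh⟩ := exists_mixed hc
  have hfin : {u | Inf G u ∧ ¬ Happy G c1 u}.Finite :=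
    h.subset fun u hu => ⟨hu.1, fun hgu => hu.2 (hh u hu.1 (hg u hu.1 hgu))⟩
  obtain ⟨c', R', hm', hh'⟩ := hm.repair hfin.toFinset.card c1 R (by
    rw [hfin.encard_eq_coe_toFinset_card])
  exact ⟨c', unfriendly_of_stab (fun v hv => hm'.all_stab hv) hh'⟩

end UnfT
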