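import Mathlib

/-!
# Unfriendly partitions of countable graphs: definitions

`I` = vertices of infinite degree, `F` = vertices of finite degree.
-/

set_option autoImplicit false

namespace UnfT

variable {V : Type*} (G : SimpleGraph V)

/-- The vertex `v` has infinitely many neighbours. -/
def Inf (v : V) : Prop := (G.neighborSet v).Infinite

/-- `Reach G W x a`: there is a walk from `x` to `a` all of whose vertices after `x` have finite
degree and lie outside `W`.  For `x` of finite degree outside `W`, the set `{a | Reach G W x a}` is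
the component of `x` in the subgraph of `G - W` induced by the vertices of finite degree. -/
def Reach (W : Set V) (x a : V) : Prop :=
  Relation.ReflTransGen (fun p q => G.Adj p q ∧ ¬ Inf G q ∧ q ∉ W) x a

/-- The component of `x` in the subgraph of `G` induced by the vertices of finite degree. -/
def comp (x : V) : Set V := {a | Reach G ∅ x a}

/-- The vertices of infinite degree which have a neighbour in the component of `x`. -/
def bd (x : V) : Set V := {v | Inf G v ∧ ∃ a ∈ comp G x, G.Adj a v}

/-- `x` is a vertex of finite degree outside `W` whose component `C` in the subgraph of `G - W`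
induced by the vertices of finite degree is such that the edges of `G - W` with at least one end in
`C` form a bipartite graph. -/
def Tame (W : Set V) (x : V) : Prop :=
  ¬ Inf G x ∧ x ∉ W ∧
    ∃ s : V → Bool, ∀ a, Reach G W x a → ∀ b, G.Adj a b → b ∉ W → s a ≠ s b

/-- `x` is a vertex of finite degree whose component in the subgraph induced by the vertices of
finite degree is finite and has at most three neighbours of infinite degree. -/
def Small (x : V) : Prop :=
  ¬ Inf G x ∧ (comp G x).Finite ∧ (bd G x).encard ≤ 3

/-- The partition of the vertices given by `c` is unfriendly: every vertex has at least as many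
neighbours (as a cardinal) in the other class as in its own class. -/
def Unfriendly (c : V → Bool) : Prop :=
  ∀ v, Cardinal.mk {w : V // G.Adj v w ∧ c w = c v} ≤ Cardinal.mk {w : V // G.Adj v w ∧ c w ≠ c v}

/-- A condition on a vertex `u` of infinite degree (treated by helper97). -/
def Good (u : V) : Prop :=
  (∃ W : Set V, W.Finite ∧ {x | G.Adj u x ∧ (Inf G x ∨ Tame G W x ∨ Small G x)}.Infinite) ∨
  (∃ X : Set V, X ⊆ G.neighborSet u ∧ X.Infinite ∧ (∀ x ∈ X, ¬ Inf G x ∧ (comp G x).Finite) ∧
    ∀ v, v ≠ u → {x ∈ X | v ∈ bd G x}.Finite) ∨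
  (∃ X : Set V, X ⊆ G.neighborSet u ∧ X.Infinite ∧ (∀ x ∈ X, ¬ Inf G x ∧ (comp G x).Finite) ∧
    (⋃ x ∈ X, bd G x).Finite)

/-- `a` has at most one neighbour in `A`, or `a` has even degree and at most two neighbours
in `A`. -/
def Few (A : Set V) (a : V) : Prop :=
  {b | G.Adj a b ∧ b ∈ A}.encard ≤ 1 ∨
    (Even (G.neighborSet a).ncard ∧ {b | G.Adj a b ∧ b ∈ A}.encard ≤ 2)

/-- `x` has finite degree, its component in the graph induced by the vertices of finite degree is
finite, and either each vertex of this component has few neighbours in `E` other than `u`, or each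
vertex of this component has few neighbours of infinite degree outside `E`. -/
def Fine (E : Set V) (u x : V) : Prop :=
  ¬ Inf G x ∧ (comp G x).Finite ∧
    ((∀ a ∈ comp G x, Few G (E \ {u}) a) ∨ (∀ a ∈ comp G x, Few G {b | Inf G b ∧ b ∉ E} a))

/-- The condition imposed on (almost all) vertices `u` of infinite degree. -/
def Nice (u : V) : Prop :=
  (∃ W : Set V, W.Finite ∧ {x | G.Adj u x ∧ (Inf G x ∨ Tame G W x)}.Infinite) ∨
  (∀ E₀ : Set V, E₀.Finite → (∀ v ∈ E₀, Inf G v) → ∃ E : Set V, E₀ ⊆ E ∧ E.Finite ∧
    (∀ v ∈ E, Inf G v) ∧ {x | G.Adj u x ∧ Fine G E u x}.Infinite)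

/-- The vertex `v` (of finite degree) has at least as many neighbours in the other class of `s` as
in its own class. -/
def Stab (s : V → Bool) (v : V) : Prop :=
  {w | G.Adj v w ∧ s w = s v}.ncard ≤ {w | G.Adj v w ∧ s w ≠ s v}.ncard

/-- The colouring `z` can be changed on `C` so that all vertices of `C` become stable and `u` gets a
neighbour in `C` whose colour is not `z u`. -/
def Srv (z : V → Bool) (C : Set V) (u : V) : Prop :=
  ∃ s : V → Bool, (∀ v, v ∉ C → s v = z v) ∧ (∀ v ∈ C, Stab G s v) ∧
    ∃ y ∈ C, G.Adj u y ∧ s y ≠ z u

/-- The abstract robustness of the finite component `C` with respect to `u` and the set `E` of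
vertices of infinite degree: whatever the colours of the vertices of `D` and `E`, either `C` can
serve `u` for suitable colours of the other vertices, or there is a non-empty part `Y` of `E \ D` with
colours `f` for which `C` can always serve all vertices of `Y`. -/
def Rob (E C : Set V) (u : V) : Prop :=
  ∀ D : Set V, u ∉ D → ∀ z : V → Bool,
    (∀ z' : V → Bool, (∀ v, v ∈ D ∨ v ∈ E → z' v = z v) → ¬ Srv G z' C u) →
    ∃ Y : Set V, Y ⊆ E \ D ∧ Y.Nonempty ∧ ∃ f : V → Bool, ∀ z' : V → Bool,
      (∀ v ∈ D, z' v = z v) → (∀ v ∈ Y, z' v = f v) → ∀ w ∈ Y, Srv G z' C w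

/-- Every finite set `E₀` of vertices of infinite degree is contained in a finite set `E` of such
vertices for which infinitely many neighbours of `u` lie in finite components which are robust for
`u` and `E`. -/
def RobU (u : V) : Prop :=
  ∀ E₀ : Set V, E₀.Finite → (∀ v ∈ E₀, Inf G v) → ∃ E : Set V, E₀ ⊆ E ∧ E.Finite ∧
    (∀ v ∈ E, Inf G v) ∧
    {x | G.Adj u x ∧ ¬ Inf G x ∧ (comp G x).Finite ∧ Rob G E (comp G x) u}.Infinite

end UnfT
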