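import Pool.Agent.Work.MP_1aab6d_co_h84.Rob

set_option autoImplicit false

namespace UnfT

open Finset Classical

variable {V : Type*} {G : SimpleGraph V} {S R : Set V} {τ ρ : V → Bool}

theorem St.serv_good (h : St G S τ R ρ) (hM : Mx G S τ) {u : V} (hu : Inf G u) (huR : u ∈ R)
    (huS : u ∉ S) (hg : Good G u) : Serv G S τ R ρ u := by
  rcases hg with ⟨W, hW, hX⟩ | ⟨X, hXN, hX, hXf, hXv⟩ | ⟨X, hXN, hX, hXf, hXb⟩
  · by_cases h1 : {x | G.Adj u x ∧ Inf G x}.Infinite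
    · obtain ⟨x, ⟨hux, hxI⟩, hxn⟩ := (h1.sdiff (h.finite_adj hM hu huS)).nonempty
      have hxR : x ∉ R := fun hxR => hxn ⟨hxR, hux⟩
      refine ⟨R ∪ {x}, fun v => if v ∈ R then ρ v else !(ρ u),
        h.addInf (Set.finite_singleton x) (fun v hv => by rw [Set.mem_singleton_iff.1 hv]; exact hxI)
          (fun v hv => if_pos hv), Set.subset_union_left, fun v hv => if_pos hv, x,
          Or.inr rfl, hxR, hux, ?_⟩
      simp [hxR]
    by_cases h2 : {x | G.Adj u x ∧ Tame G W x ∧ ¬ Small G x}.Infinite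
    · exact h.serv_tame hM hW hu huR huS h2
    refine h.serv_small hM hu huR huS fun h3 => ?_
    refine hX ((((Set.not_infinite.1 h1).union (Set.not_infinite.1 h2)).union h3).subset ?_)
    rintro x ⟨hux, hx | hx | hx⟩
    · exact Or.inl (Or.inl ⟨hux, hx⟩)
    · by_cases hs : Small G x
      · exact Or.inr ⟨hux, hs⟩
      · exact Or.inl (Or.inr ⟨hux, hx, hs⟩)
    · exact Or.inr ⟨hux, hx⟩
  · refine h.serv_J hM hu huS ?_
    have hbad : (⋃ v ∈ {v | v ∈ R \ S ∧ v ≠ u}, {x | x ∈ X ∧ v ∈ bd G x}).Finite :=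
      (h.2.2.1.subset fun v hv => hv.1).biUnion fun v hv => hXv v hv.2
    refine (hX.sdiff hbad).mono ?_
    rintro x ⟨hxX, hxn⟩
    refine ⟨hXN hxX, (hXf x hxX).1, (hXf x hxX).2, fun v hv hvR hvS => ?_⟩
    by_contra hvu
    exact hxn (Set.mem_biUnion (show v ∈ {v | v ∈ R \ S ∧ v ≠ u} from ⟨⟨hvR, hvS⟩, hvu⟩)
      ⟨hxX, hv⟩)
  · exfalso
    have h1 : St G S τ (R ∪ ⋃ x ∈ X, bd G x) ρ := by
      refine h.addInf hXb (fun v hv => ?_) fun _ _ => rfl
      simp only [Set.mem_iUnion] at hv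
      obtain ⟨x, _, hv⟩ := hv
      exact hv.1
    refine hX ((h1.finite_K hM hu huS).subset fun x hx => ?_)
    exact ⟨hXN hx, (hXf x hx).1, (hXf x hx).2, fun v hv => Or.inr (Set.mem_biUnion hx hv)⟩

theorem St.step (h : St G S τ R ρ) (hM : Mx G S τ) {K : Set V} (hK : K.Finite) (v : V) :
    ∃ p : Set V × (V → Bool), St G S τ p.1 p.2 ∧ R ⊆ p.1 ∧ (∀ w ∈ R, p.2 w = ρ w) ∧
      (Inf G v → v ∈ p.1) ∧
      (Inf G v → v ∈ R → v ∉ S → (Good G v ∨ RobU G v) → ∃ y, y ∉ K ∧ G.Adj v y ∧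
        ∀ c, TM G c → (∀ w ∈ p.1, c w = p.2 w) → PG G c v y) := by
  by_cases hv : Inf G v
  · by_cases hvR : v ∈ R
    · by_cases hg : v ∉ S ∧ (Good G v ∨ RobU G v)
      · have hs : ServK G S τ K R ρ v := by
          rcases hg.2 with hg2 | hg2
          · exact servK_of_serv (fun R ρ h hvR => h.serv_good hM hv hvR hg.1 hg2) hK h hvR
          · exact h.serv_rob hM hv hvR hg.1 hg2 hK
        obtain ⟨R', ρ', h1, h2, h3, h4⟩ := hs
        exact ⟨(R', ρ'), h1, h2, h3, fun _ => h2 hvR, fun _ _ _ _ => h4⟩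
      · exact ⟨(R, ρ), h, subset_rfl, fun _ _ => rfl, fun _ => hvR,
          fun _ _ h1 h2 => absurd ⟨h1, h2⟩ hg⟩
    · refine ⟨(R ∪ {v}, ρ), h.addInf (Set.finite_singleton v) (fun w hw => ?_) fun _ _ => rfl,
        Set.subset_union_left, fun _ _ => rfl, fun _ => Or.inr rfl, fun _ h1 => absurd h1 hvR⟩
      rw [Set.mem_singleton_iff.1 hw]; exact hv
  · exact ⟨(R, ρ), h, subset_rfl, fun _ _ => rfl, fun h1 => absurd h1 hv,
      fun h1 => absurd h1 hv⟩

theorem exists_almost [Countable V] [Nonempty V] (G : SimpleGraph V) :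
    ∃ c : V → Bool, TM G c ∧ ∀ u, Inf G u → (Good G u ∨ RobU G u) → PH G c u := by
  obtain ⟨S, τ, hM⟩ := exists_Mx (G := G)
  obtain ⟨f, hf⟩ := exists_surjective_nat V
  let St' := {p : Set V × (V → Bool) // St G S τ p.1 p.2}
  let KK : ℕ → Set V := fun n => f '' {k | k ≤ n}
  have hKK : ∀ n, (KK n).Finite := fun n => (Set.finite_le_nat n).image f
  have hnx : ∀ (n : ℕ) (p : St') (v : V), ∃ q : St', p.1.1 ⊆ q.1.1 ∧
      (∀ w ∈ p.1.1, q.1.2 w = p.1.2 w) ∧
      (Inf G v → v ∈ q.1.1) ∧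
      (Inf G v → v ∈ p.1.1 → v ∉ S → (Good G v ∨ RobU G v) →
        ∃ y, y ∉ KK n ∧ G.Adj v y ∧ ∀ c, TM G c → (∀ w ∈ q.1.1, c w = q.1.2 w) → PG G c v y) := by
    intro n p v
    obtain ⟨q, hq, h⟩ := p.2.step hM (hKK n) v
    exact ⟨⟨q, hq⟩, h⟩
  choose nx h1 h2 h3 h4 using hnx
  have h0 : St G S τ S τ := ⟨subset_rfl, fun _ _ => rfl, by simp, hM.1.1⟩
  let sq : ℕ → St' := fun n => Nat.rec ⟨(S, τ), h0⟩ (fun n p => nx n p (f (Nat.unpair n).1)) n
  have hs : ∀ n, sq (n + 1) = nx n (sq n) (f (Nat.unpair n).1) := fun n => rfl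
  have hmono : ∀ m n, m ≤ n → (sq m).1.1 ⊆ (sq n).1.1 ∧
      ∀ w ∈ (sq m).1.1, (sq n).1.2 w = (sq m).1.2 w := by
    intro m n hmn
    induction n, hmn using Nat.le_induction with
    | base => exact ⟨subset_rfl, fun _ _ => rfl⟩
    | succ n _ ih =>
      rw [hs]
      exact ⟨ih.1.trans (h1 _ _ _), fun w hw => (h2 _ _ _ w (ih.1 hw)).trans (ih.2 w hw)⟩
  set Ri : Set V := {v | ∃ n, v ∈ (sq n).1.1} with hRi
  let ρi : V → Bool := fun v => if h : ∃ n, v ∈ (sq n).1.1 then (sq h.choose).1.2 v else false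
  have hρi : ∀ n, ∀ v ∈ (sq n).1.1, ρi v = (sq n).1.2 v := by
    intro n v hv
    have h : ∃ n, v ∈ (sq n).1.1 := ⟨n, hv⟩
    have e : ρi v = (sq h.choose).1.2 v := dif_pos h
    rw [e]
    rcases le_total n h.choose with h5 | h5
    · exact (hmono _ _ h5).2 v hv
    · exact ((hmono _ _ h5).2 v h.choose_spec).symm
  have hfin : ∀ A : Set V, A.Finite → A ⊆ Ri → ∃ n, A ⊆ (sq n).1.1 := by
    intro A hA
    induction A, hA using Set.Finite.induction_on with
    | empty => intro _; exact ⟨0, Set.empty_subset _⟩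
    | insert _ _ ih =>
      intro h
      obtain ⟨n, hn⟩ := ih ((Set.subset_insert _ _).trans h)
      obtain ⟨m, hm⟩ := h (Set.mem_insert _ _)
      refine ⟨max n m, Set.insert_subset ?_ ?_⟩
      · exact (hmono _ _ (le_max_right n m)).1 hm
      · exact hn.trans (hmono _ _ (le_max_left n m)).1
  have hFS : FS G Ri ρi := by
    refine FS.of_local fun Q hQ => ?_
    obtain ⟨n, hn⟩ := hfin (Q : Set V) Q.finite_toSet fun x hx => (hQ x hx).1
    exact ⟨(sq n).1.1, (sq n).1.2, (sq n).2.2.2.2, fun v hv => ⟨n, hv⟩, hρi n, hn⟩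
  obtain ⟨c, hcR, hc⟩ := exists_total hFS
  refine ⟨c, hc, fun u hu hg => ?_⟩
  by_cases huS : u ∈ S
  · refine hM.1.2.1 c hc (fun w hw => ?_) u huS hu
    rw [hcR w ⟨0, hw⟩]; exact hρi 0 w hw
  · obtain ⟨k, rfl⟩ := hf u
    set u := f k with huk
    set n0 := Nat.pair k 0 with hn0
    have hu0 : u ∈ (sq (n0 + 1)).1.1 := by
      rw [hs, hn0, Nat.unpair_pair]
      exact h3 _ _ _ hu
    intro hYf
    -- all elements of the finite set have small indices
    have hbd : ∃ M : ℕ, {y | G.Adj u y ∧ PG G c u y} ⊆ KK M := by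
      have : ∀ A : Set V, A.Finite → ∃ M : ℕ, A ⊆ KK M := by
        intro A hA
        induction A, hA using Set.Finite.induction_on with
        | empty => exact ⟨0, Set.empty_subset _⟩
        | @insert a _ _ _ ih =>
          obtain ⟨n, hn⟩ := ih
          obtain ⟨m, hm⟩ := hf a
          refine ⟨max n m, Set.insert_subset ⟨m, le_max_right n m, hm⟩ (hn.trans ?_)⟩
          exact Set.image_mono fun k hk => le_trans hk (le_max_left n m)
      exact this _ hYf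
    obtain ⟨M, hM'⟩ := hbd
    set n := Nat.pair k (max M (n0 + 1)) with hn
    have hnM : max M (n0 + 1) ≤ n := Nat.right_le_pair _ _
    have hun : u ∈ (sq n).1.1 := (hmono _ _ ((le_max_right _ _).trans hnM)).1 hu0
    have hserv := h4 n (sq n) u hu hun huS hg
    have hsn : sq (n + 1) = nx n (sq n) u := by rw [hs, hn, Nat.unpair_pair]
    rw [← hsn] at hserv
    obtain ⟨y, hy1, hy2, hy3⟩ := hserv
    refine hy1 ?_
    have hmem := hM' ⟨hy2, hy3 c hc fun w hw => ?_⟩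
    · obtain ⟨j, hj, hjy⟩ := hmem
      exact ⟨j, hj.trans ((le_max_left M (n0 + 1)).trans hnM), hjy⟩
    · rw [hcR w ⟨n + 1, hw⟩, hρi (n + 1) w hw]

end UnfT
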