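import Pool.Agent.Work.MP_1aab6d_co_h84.Alloc

set_option autoImplicit false

namespace UnfT

open Finset Classical

variable {V : Type*} {G : SimpleGraph V}

/-- The sign of a colour. -/
def sg (b : Bool) : ℤ := if b then 1 else -1

lemma sg_not (b : Bool) : sg (!b) = - sg b := by cases b <;> simp [sg]

lemma sg_mul_self (b : Bool) : sg b * sg b = 1 := by cases b <;> simp [sg]

lemma sg_mul (a b : Bool) : sg a * sg b = if a = b then 1 else -1 := by
  cases a <;> cases b <;> simp [sg]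

lemma abs_sg (b : Bool) : |sg b| = 1 := by cases b <;> simp [sg]

/-- The quadratic energy on the finite set `C`. -/
def HH (C : Finset V) (J : V → V → ℤ) (h : V → ℤ) (s : V → Bool) : ℤ :=
  ∑ v ∈ C, sg (s v) * (∑ a ∈ C, J v a * sg (s a) + 2 * h v)

lemma HH_congr {C : Finset V} {J : V → V → ℤ} {h : V → ℤ} {s s' : V → Bool}
    (hs : ∀ v ∈ C, s v = s' v) : HH C J h s = HH C J h s' := by
  unfold HH
  refine Finset.sum_congr rfl fun v hv => ?_
  rw [hs v hv]
  congr 2
  exact Finset.sum_congr rfl fun a ha => by rw [hs a ha]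

lemma HH_update {C : Finset V} {J : V → V → ℤ} {h : V → ℤ} (hJ : ∀ a ∈ C, ∀ b ∈ C, J a b = J b a)
    {v : V} (hv : v ∈ C) (hJv : J v v = 0) (s : V → Bool) :
    HH C J h (Function.update s v (!(s v)))
      = HH C J h s - 4 * (sg (s v) * (∑ a ∈ C, J v a * sg (s a) + h v)) := by
  set s' := Function.update s v (!(s v)) with hs'
  have e0 : ∀ a, sg (s' a) = sg (s a) + if a = v then - 2 * sg (s v) else 0 := by
    intro a
    by_cases ha : a = v
    · subst ha
      rw [if_pos rfl, hs', Function.update_self, sg_not]; ring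
    · rw [if_neg ha, hs', Function.update_of_ne ha, add_zero]
  have e1 : ∀ w ∈ C, ∑ a ∈ C, J w a * sg (s' a)
      = ∑ a ∈ C, J w a * sg (s a) + J w v * (-2 * sg (s v)) := by
    intro w _
    have : ∀ a ∈ C, J w a * sg (s' a) = J w a * sg (s a) +
        if a = v then J w v * (-2 * sg (s v)) else 0 := by
      intro a _
      rw [e0]
      by_cases ha : a = v
      · subst ha; rw [if_pos rfl, if_pos rfl]; ring
      · rw [if_neg ha, if_neg ha]; ring
    rw [Finset.sum_congr rfl this, Finset.sum_add_distrib, Finset.sum_ite_eq' C v, if_pos hv]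
  have e2 : HH C J h s' = ∑ w ∈ C, (sg (s w) * (∑ a ∈ C, J w a * sg (s a) + 2 * h w)
      + (-2 * sg (s v)) * (J w v * sg (s w))
      + if w = v then (-2 * sg (s v)) * (∑ a ∈ C, J v a * sg (s a) + 2 * h v) else 0) := by
    unfold HH
    refine Finset.sum_congr rfl fun w hw => ?_
    rw [e1 w hw, e0 w]
    by_cases hwv : w = v
    · subst hwv
      rw [if_pos rfl, if_pos rfl, hJv]; ring
    · rw [if_neg hwv, if_neg hwv]; ring
  have e3 : ∑ w ∈ C, (-2 * sg (s v)) * (J w v * sg (s w))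
      = (-2 * sg (s v)) * ∑ a ∈ C, J v a * sg (s a) := by
    rw [Finset.mul_sum]
    exact Finset.sum_congr rfl fun w hw => by rw [hJ w hw v hv]
  rw [e2, Finset.sum_add_distrib, Finset.sum_add_distrib, e3, Finset.sum_ite_eq' C v, if_pos hv]
  unfold HH
  ring

lemma exists_HH_min (C : Finset V) (J : V → V → ℤ) (h : V → ℤ) (z : V → Bool) :
    ∃ s : V → Bool, (∀ v, v ∉ C → s v = z v) ∧ ∀ s', HH C J h s ≤ HH C J h s' := by
  set S : Set (V → Bool) := {s | ∀ v, v ∉ C → s v = z v} with hS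
  have hfin : S.Finite := by
    refine ((C.powerset.finite_toSet).image
      (fun B : Finset V => fun v => if v ∈ C then decide (v ∈ B) else z v)).subset ?_
    intro s hs
    refine ⟨C.filter (fun v => s v = true),
      Finset.mem_coe.2 (Finset.mem_powerset.2 (Finset.filter_subset _ _)), ?_⟩
    funext v
    by_cases hv : v ∈ C
    · simp [hv]
    · simp [hv, hs v hv]
  obtain ⟨s, hs, hmin⟩ := Set.exists_min_image S (HH C J h) hfin ⟨z, fun _ _ => rfl⟩
  refine ⟨s, hs, fun s' => ?_⟩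
  have := hmin (fun v => if v ∈ C then s' v else z v) (fun v hv => if_neg hv)
  refine this.trans_eq (HH_congr fun v hv => ?_)
  exact if_pos hv

lemma HH_min_le {C : Finset V} {J : V → V → ℤ} {h : V → ℤ} (hJ : ∀ a ∈ C, ∀ b ∈ C, J a b = J b a)
    (hJ0 : ∀ a, J a a = 0) {s : V → Bool} (hs : ∀ s', HH C J h s ≤ HH C J h s') {v : V}
    (hv : v ∈ C) : sg (s v) * (∑ a ∈ C, J v a * sg (s a) + h v) ≤ 0 := by
  have := hs (Function.update s v (!(s v)))
  rw [HH_update hJ hv (hJ0 v)] at this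
  linarith

/-- Stability in terms of signs. -/
lemma stab_of_sum {s : V → Bool} {v : V} (hv : ¬ Inf G v)
    (h : sg (s v) * ∑ y ∈ nb G v, sg (s y) ≤ 0) : Stab G s v := by
  rw [stab_iff s hv, en_single s hv]
  have : ∑ y ∈ nb G v, (if s y ≠ s v then (1 : ℤ) else -1) = - (sg (s v) * ∑ y ∈ nb G v, sg (s y)) := by
    rw [Finset.mul_sum, ← Finset.sum_neg_distrib]
    refine Finset.sum_congr rfl fun y _ => ?_
    rw [sg_mul]
    by_cases hy : s y = s v
    · simp [hy]
    · rw [if_pos hy, if_neg (Ne.symm hy)]; ring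
  rw [this]; linarith

lemma sum_sg_parity (s : V → Bool) (A : Finset V) : (∑ y ∈ A, sg (s y)) % 2 = (A.card : ℤ) % 2 := by
  induction A using Finset.induction_on with
  | empty => simp
  | insert a A ha ih =>
    rw [Finset.sum_insert ha, Finset.card_insert_of_notMem ha]
    have : sg (s a) % 2 = 1 := by cases s a <;> simp [sg]
    push_cast
    omega

variable (G) in
/-- The coupling constants inside the component. -/
noncomputable def JJ (K : ℤ) (a b : V) : ℤ := if G.Adj a b then K else 0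

variable (G) in
/-- The field on the vertices of `C`: weight `1` for the vertices of `Dd`, weight `K` for the
others. -/
noncomputable def FL (C : Finset V) (Dd : Set V) (K : ℤ) (z : V → Bool) (v : V) : ℤ :=
  ∑ b ∈ nb G v \ C, (if b ∈ Dd then 1 else K) * sg (z b)

lemma JJ_symm (K : ℤ) (a b : V) : JJ G K a b = JJ G K b a := by
  simp only [JJ, G.adj_comm a b]

lemma JJ_self (K : ℤ) (a : V) : JJ G K a a = 0 := by simp [JJ]

lemma FL_split {C : Finset V} {Dd : Set V} {K : ℤ} {z : V → Bool} {v : V} :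
    FL G C Dd K z v = ∑ b ∈ (nb G v \ C).filter (· ∈ Dd), sg (z b)
          + K * ∑ b ∈ (nb G v \ C).filter (· ∉ Dd), sg (z b) := by
  unfold FL
  rw [← Finset.sum_filter_add_sum_filter_not (nb G v \ C) (· ∈ Dd)]
  congr 1
  · refine Finset.sum_congr rfl fun b hb => ?_
    rw [mem_filter] at hb
    rw [if_pos hb.2, one_mul]
  · rw [Finset.mul_sum]
    refine Finset.sum_congr rfl fun b hb => ?_
    rw [mem_filter] at hb
    rw [if_neg hb.2]

/-- The weight `K`. -/
noncomputable def KK (G : SimpleGraph V) (C : Finset V) : ℤ := 1 + ∑ v ∈ C, ((nb G v).card : ℤ)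

lemma card_lt_KK {C : Finset V} {v : V} (hv : v ∈ C) : ((nb G v).card : ℤ) < KK G C := by
  have := Finset.single_le_sum (f := fun v => ((nb G v).card : ℤ))
    (fun _ _ => Int.natCast_nonneg _) hv
  have h2 : ((nb G v).card : ℤ) ≤ ∑ v ∈ C, ((nb G v).card : ℤ) := this
  unfold KK
  omega

lemma abs_filter_le (z : V → Bool) (A : Finset V) : |∑ b ∈ A, sg (z b)| ≤ (A.card : ℤ) := by
  refine (Finset.abs_sum_le_sum_abs _ _).trans ?_
  simp [abs_sg]

/-- The perturbation term is small. -/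
lemma abs_pert_le {C : Finset V} (Dd : Set V) (z s : V → Bool) :
    |∑ v ∈ C, sg (s v) * ∑ b ∈ (nb G v \ C).filter (· ∈ Dd), sg (z b)| ≤ KK G C - 1 := by
  refine (Finset.abs_sum_le_sum_abs _ _).trans ?_
  rw [KK, add_sub_cancel_left]
  refine Finset.sum_le_sum fun v _ => ?_
  rw [abs_mul, abs_sg, one_mul]
  refine (abs_filter_le z _).trans ?_
  exact_mod_cast Finset.card_le_card ((Finset.filter_subset _ _).trans Finset.sdiff_subset)

/-- Minimisers of the weighted energy are stable. -/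
lemma min_stab {C : Finset V} (hCF : ∀ v ∈ C, ¬ Inf G v) {Dd : Set V}
    (hcard : ∀ v ∈ C, ((nb G v \ C).filter (· ∈ Dd)).card ≤ 1 ∨
      (Even (nb G v).card ∧ ((nb G v \ C).filter (· ∈ Dd)).card ≤ 2))
    {z s : V → Bool} (hsz : ∀ v, v ∉ C → s v = z v)
    (hmin : ∀ s', HH C (JJ G (KK G C)) (FL G C Dd (KK G C) z) s
      ≤ HH C (JJ G (KK G C)) (FL G C Dd (KK G C) z) s') : ∀ v ∈ C, Stab G s v := by
  intro v hv
  refine stab_of_sum (hCF v hv) ?_
  set K := KK G C with hK
  have h1 := HH_min_le (fun a _ b _ => JJ_symm K a b) (fun a => JJ_self K a) hmin hv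
  set P := ∑ b ∈ (nb G v \ C).filter (· ∈ Dd), sg (s b) with hP
  set X := ∑ b ∈ (nb G v \ (nb G v \ C).filter (· ∈ Dd)), sg (s b) with hX
  have hsum : ∑ y ∈ nb G v, sg (s y) = X + P := by
    rw [hX, hP]
    exact (Finset.sum_sdiff ((Finset.filter_subset _ _).trans Finset.sdiff_subset)).symm
  have hfield : ∑ a ∈ C, JJ G K v a * sg (s a) + FL G C Dd K z v = K * X + P := by
    have a1 : ∑ a ∈ C, JJ G K v a * sg (s a) = K * ∑ a ∈ nb G v ∩ C, sg (s a) := by
      rw [Finset.mul_sum, Finset.inter_comm, ← Finset.filter_mem_eq_inter, Finset.sum_filter]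
      refine Finset.sum_congr rfl fun a _ => ?_
      simp only [JJ, mem_nb G (hCF v hv)]
      split_ifs <;> simp
    have a2 : FL G C Dd K z v = ∑ b ∈ (nb G v \ C).filter (· ∈ Dd), sg (s b)
        + K * ∑ b ∈ (nb G v \ C).filter (· ∉ Dd), sg (s b) := by
      rw [FL_split]
      congr 1
      · refine Finset.sum_congr rfl fun b hb => ?_
        rw [mem_filter, mem_sdiff] at hb
        rw [hsz b hb.1.2]
      · congr 1
        refine Finset.sum_congr rfl fun b hb => ?_
        rw [mem_filter, mem_sdiff] at hb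
        rw [hsz b hb.1.2]
    have a3 : X = ∑ a ∈ nb G v ∩ C, sg (s a) + ∑ b ∈ (nb G v \ C).filter (· ∉ Dd), sg (s b) := by
      rw [hX, ← Finset.sum_union]
      · congr 1
        ext b
        simp only [mem_sdiff, mem_filter, mem_union, mem_inter]
        tauto
      · rw [Finset.disjoint_left]
        intro b hb hb'
        exact (mem_sdiff.1 (mem_filter.1 hb').1).2 (mem_inter.1 hb).2
    rw [a1, a2, a3, ← hP]; ring
  rw [hfield] at h1
  rw [hsum]
  have hPle := abs_filter_le s ((nb G v \ C).filter (· ∈ Dd))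
  rw [← hP] at hPle
  have hc := hcard v hv
  have hKv : ((nb G v).card : ℤ) < K := card_lt_KK hv
  have hle : (((nb G v \ C).filter (· ∈ Dd)).card : ℤ) ≤ (nb G v).card := by
    exact_mod_cast Finset.card_le_card ((Finset.filter_subset _ _).trans Finset.sdiff_subset)
  have hpar := sum_sg_parity s (nb G v)
  rw [hsum] at hpar
  rw [abs_le] at hPle
  set k := ((nb G v \ C).filter (· ∈ Dd)).card with hk
  have hev : Even (nb G v).card → ((nb G v).card : ℤ) % 2 = 0 := by
    rintro ⟨m, hm⟩; omega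
  have hK1 : 1 ≤ K := by omega
  rcases (show sg (s v) = 1 ∨ sg (s v) = -1 by cases s v <;> simp [sg]) with hσ | hσ
  · rw [hσ, one_mul] at h1 ⊢
    have hX0 : X ≤ 0 := by
      by_contra hX0
      push Not at hX0
      nlinarith
    rcases hc with hc | ⟨he, hc⟩
    · rcases lt_or_eq_of_le hX0 with h2 | h2
      · omega
      · rw [h2] at h1 ⊢; simpa using h1
    · have := hev he
      rcases lt_or_eq_of_le hX0 with h2 | h2
      · omega
      · rw [h2] at h1 ⊢; simpa using h1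
  · rw [hσ] at h1 ⊢
    have hX0 : 0 ≤ X := by
      by_contra hX0
      push Not at hX0
      nlinarith
    rcases hc with hc | ⟨he, hc⟩
    · rcases lt_or_eq_of_le hX0 with h2 | h2
      · omega
      · rw [← h2] at h1 ⊢; linarith
    · have := hev he
      rcases lt_or_eq_of_le hX0 with h2 | h2
      · omega
      · rw [← h2] at h1 ⊢; linarith

/-- Changing the colour of one vertex `i` outside the component, all other vertices in `Dd` or
coloured as before. -/
lemma HH_sub {C : Finset V} (hCF : ∀ v ∈ C, ¬ Inf G v) {Dd : Set V} {K : ℤ} {z1 z2 : V → Bool}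
    {u : V} (huC : u ∉ C) (huD : u ∉ Dd) (hz : z1 u ≠ z2 u)
    (hnD : ∀ b, b ∉ C → b ≠ u → b ∉ Dd → z1 b = z2 b)
    (s : V → Bool) : HH C (JJ G K) (FL G C Dd K z1) s - HH C (JJ G K) (FL G C Dd K z2) s
      = 4 * (K * (sg (z1 u) * ∑ v ∈ C.filter (G.Adj u), sg (s v)))
        + 2 * (∑ v ∈ C, sg (s v) * ∑ b ∈ (nb G v \ C).filter (· ∈ Dd), sg (z1 b))
        - 2 * (∑ v ∈ C, sg (s v) * ∑ b ∈ (nb G v \ C).filter (· ∈ Dd), sg (z2 b)) := by
  have b1 : ∀ v ∈ C, FL G C Dd K z1 v - FL G C Dd K z2 v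
      = 2 * (if G.Adj u v then K * sg (z1 u) else 0)
      + ∑ b ∈ (nb G v \ C).filter (· ∈ Dd), sg (z1 b)
      - ∑ b ∈ (nb G v \ C).filter (· ∈ Dd), sg (z2 b) := by
    intro v hv
    have c0 : ∑ b ∈ (nb G v \ C).filter (· ∉ Dd), sg (z1 b)
        - ∑ b ∈ (nb G v \ C).filter (· ∉ Dd), sg (z2 b)
        = if G.Adj u v then 2 * sg (z1 u) else 0 := by
      rw [← Finset.sum_sub_distrib]
      have c2 : ∀ b ∈ (nb G v \ C).filter (· ∉ Dd), sg (z1 b) - sg (z2 b)
          = if b = u then 2 * sg (z1 u) else 0 := by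
        intro b hb
        rw [mem_filter, mem_sdiff] at hb
        by_cases hbu : b = u
        · subst hbu
          have : sg (z2 b) = - sg (z1 b) := by
            rw [← sg_not]; congr 1
            revert hz; cases z1 b <;> cases z2 b <;> simp
          rw [if_pos rfl, this]; ring
        · rw [if_neg hbu, hnD b hb.1.2 hbu hb.2]; ring
      rw [Finset.sum_congr rfl c2, Finset.sum_ite_eq']
      have : u ∈ (nb G v \ C).filter (· ∉ Dd) ↔ G.Adj u v := by
        rw [mem_filter, mem_sdiff, mem_nb G (hCF v hv), G.adj_comm v u]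
        exact ⟨fun h => h.1.1, fun h => ⟨⟨h, huC⟩, huD⟩⟩
      by_cases h' : G.Adj u v
      · rw [if_pos (this.2 h'), if_pos h']
      · rw [if_neg (fun h => h' (this.1 h)), if_neg h']
    rw [FL_split, FL_split]
    by_cases h' : G.Adj u v
    · rw [if_pos h'] at c0 ⊢
      linear_combination K * c0
    · rw [if_neg h'] at c0 ⊢
      linear_combination K * c0
  have b2 : HH C (JJ G K) (FL G C Dd K z1) s - HH C (JJ G K) (FL G C Dd K z2) s
      = ∑ v ∈ C, sg (s v) * (2 * (FL G C Dd K z1 v - FL G C Dd K z2 v)) := by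
    unfold HH
    rw [← Finset.sum_sub_distrib]
    exact Finset.sum_congr rfl fun v _ => by ring
  rw [b2, Finset.sum_filter]
  have b3 : ∀ v ∈ C, sg (s v) * (2 * (FL G C Dd K z1 v - FL G C Dd K z2 v))
      = 4 * (K * (sg (z1 u) * if G.Adj u v then sg (s v) else 0))
        + 2 * (sg (s v) * ∑ b ∈ (nb G v \ C).filter (· ∈ Dd), sg (z1 b))
        - 2 * (sg (s v) * ∑ b ∈ (nb G v \ C).filter (· ∈ Dd), sg (z2 b)) := by
    intro v hv
    rw [b1 v hv]
    split_ifs <;> ring
  rw [Finset.sum_congr rfl b3, Finset.sum_sub_distrib, Finset.sum_add_distrib, Finset.mul_sum,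
    Finset.mul_sum, Finset.mul_sum, Finset.mul_sum, Finset.mul_sum]

lemma nb_filter_card {x : V} (hx : ¬ Inf G x) {C : Finset V} (hCm : ∀ v, v ∈ C ↔ v ∈ comp G x)
    {Dd : Set V} (hthin : ∀ a ∈ comp G x, {b | G.Adj a b ∧ b ∉ comp G x ∧ b ∈ Dd}.ncard ≤ 1 ∨
      (Even (G.neighborSet a).ncard ∧ {b | G.Adj a b ∧ b ∉ comp G x ∧ b ∈ Dd}.ncard ≤ 2)) :
    ∀ v ∈ C, ((nb G v \ C).filter (· ∈ Dd)).card ≤ 1 ∨
      (Even (nb G v).card ∧ ((nb G v \ C).filter (· ∈ Dd)).card ≤ 2) := by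
  intro v hv
  have hvF : ¬ Inf G v := comp_not_inf hx ((hCm v).1 hv)
  have e1 : (((nb G v \ C).filter (· ∈ Dd) : Finset V) : Set V) =
      {b | G.Adj v b ∧ b ∉ comp G x ∧ b ∈ Dd} := by
    ext b
    simp only [Finset.coe_filter, mem_sdiff, mem_nb G hvF, hCm, Set.mem_ofPred_eq, and_assoc]
  have e2 : (nb G v : Set V) = G.neighborSet v := by
    ext b
    simp [mem_nb G hvF]
  rw [← Set.ncard_coe_finset, e1, ← Set.ncard_coe_finset (nb G v), e2]
  exact hthin v ((hCm v).1 hv)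

/-- **Lemma P.** -/
theorem lemma_P {x u : V} (hx : ¬ Inf G x) (hf : (comp G x).Finite) (hu : Inf G u)
    (hux : G.Adj u x) {z1 z2 : V → Bool} (hz : z1 u ≠ z2 u) (Dd : Set V)
    (hDd : ∀ b, b ∈ Dd ↔ b ≠ u ∧ z1 b ≠ z2 b)
    (hthin : ∀ a ∈ comp G x, {b | G.Adj a b ∧ b ∉ comp G x ∧ b ∈ Dd}.ncard ≤ 1
      ∨ (Even (G.neighborSet a).ncard ∧
        {b | G.Adj a b ∧ b ∉ comp G x ∧ b ∈ Dd}.ncard ≤ 2)) :
    Srv G z1 (comp G x) u ∨ Srv G z2 (comp G x) u := by
  by_contra hcon
  rw [not_or] at hcon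
  obtain ⟨hn1, hn2⟩ := hcon
  set C : Finset V := hf.toFinset with hC
  have hCm : ∀ v, v ∈ C ↔ v ∈ comp G x := fun v => by rw [hC, Set.Finite.mem_toFinset]
  have hCF : ∀ v ∈ C, ¬ Inf G v := fun v hv => comp_not_inf hx ((hCm v).1 hv)
  have huC : u ∉ C := fun h => hCF u h hu
  set K : ℤ := KK G C with hK
  have hcard := nb_filter_card hx hCm hthin
  obtain ⟨s1, hs1, hm1⟩ := exists_HH_min C (JJ G K) (FL G C Dd K z1) z1
  obtain ⟨s2, hs2, hm2⟩ := exists_HH_min C (JJ G K) (FL G C Dd K z2) z2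
  have hN1 : ∀ y ∈ C, G.Adj u y → s1 y = z1 u := by
    intro y hy huy
    by_contra hne
    exact hn1 ⟨s1, fun v hv => hs1 v (fun h => hv ((hCm v).1 h)),
      fun v hv => min_stab hCF hcard hs1 hm1 v ((hCm v).2 hv), y, (hCm y).1 hy, huy, hne⟩
  have hN2 : ∀ y ∈ C, G.Adj u y → s2 y = z2 u := by
    intro y hy huy
    by_contra hne
    exact hn2 ⟨s2, fun v hv => hs2 v (fun h => hv ((hCm v).1 h)),
      fun v hv => min_stab hCF hcard hs2 hm2 v ((hCm v).2 hv), y, (hCm y).1 hy, huy, hne⟩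
  have hdiff : ∀ s : V → Bool, HH C (JJ G K) (FL G C Dd K z1) s - HH C (JJ G K) (FL G C Dd K z2) s
      = 4 * (K * (sg (z1 u) * ∑ v ∈ C.filter (G.Adj u), sg (s v)))
        + 2 * (∑ v ∈ C, sg (s v) * ∑ b ∈ (nb G v \ C).filter (· ∈ Dd), sg (z1 b))
        - 2 * (∑ v ∈ C, sg (s v) * ∑ b ∈ (nb G v \ C).filter (· ∈ Dd), sg (z2 b)) := by
    have huD : u ∉ Dd := fun h => ((hDd u).1 h).1 rfl
    have hnD : ∀ b, b ∉ C → b ≠ u → b ∉ Dd → z1 b = z2 b := fun b _ hbu hbD => by
      by_contra hne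
      exact hbD ((hDd b).2 ⟨hbu, hne⟩)
    exact HH_sub hCF huC huD hz hnD
  have d1 := hdiff s1
  have d2 := hdiff s2
  have m1 := hm1 s2
  have m2 := hm2 s1
  set d : ℕ := (C.filter (G.Adj u)).card with hd
  have hd1 : 1 ≤ d := by
    rw [hd, Nat.one_le_iff_ne_zero, ← Nat.pos_iff_ne_zero, Finset.card_pos]
    exact ⟨x, mem_filter.2 ⟨(hCm x).2 (mem_comp_self x), hux⟩⟩
  have f1 : sg (z1 u) * ∑ v ∈ C.filter (G.Adj u), sg (s1 v) = d := by
    rw [Finset.mul_sum, Finset.sum_congr rfl (g := fun _ => (1 : ℤ))]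
    · simp [hd]
    · intro v hv
      rw [hN1 v (mem_filter.1 hv).1 (mem_filter.1 hv).2, sg_mul_self]
  have f2 : sg (z1 u) * ∑ v ∈ C.filter (G.Adj u), sg (s2 v) = - d := by
    rw [Finset.mul_sum, Finset.sum_congr rfl (g := fun _ => (-1 : ℤ))]
    · simp [hd]
    · intro v hv
      rw [hN2 v (mem_filter.1 hv).1 (mem_filter.1 hv).2, sg_mul, if_neg hz]
  rw [f1] at d1
  rw [f2] at d2
  have g11 := abs_le.1 (abs_pert_le (G := G) (C := C) Dd z1 s1)
  have g12 := abs_le.1 (abs_pert_le (G := G) (C := C) Dd z1 s2)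
  have g21 := abs_le.1 (abs_pert_le (G := G) (C := C) Dd z2 s1)
  have g22 := abs_le.1 (abs_pert_le (G := G) (C := C) Dd z2 s2)
  rw [← hK] at g11 g12 g21 g22
  have hK1 : 1 ≤ K := by linarith [g11.1, g11.2]
  have hd1' : (1 : ℤ) ≤ d := by exact_mod_cast hd1
  have hKd : K ≤ K * d := by nlinarith
  linarith [g11.1, g11.2, g12.1, g12.2, g21.1, g21.2, g22.1, g22.2]

end UnfT
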