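import Pool.Agent.Work.MP_1aab6d_co_h84.Defs

/-!
# Ranked families: definitions
-/

set_option autoImplicit false

namespace UnfT

variable {V : Type*} (G : SimpleGraph V)

/-- The neighbours of finite degree of `u` whose component is finite. -/
def Nf (u : V) : Set V := {x | G.Adj u x ∧ ¬ Inf G x ∧ (comp G x).Finite}

/-- For some finite subset `E` of `B` with `u ∈ E` infinitely many `x` in `X` are such that all
vertices of the component of `x` have few neighbours in `B \ E`. -/
def FreeIn (B X : Set V) (u : V) : Prop :=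
  ∃ E : Set V, E.Finite ∧ E ⊆ B ∧ u ∈ E ∧ {x | x ∈ X ∧ ∀ a ∈ comp G x, Few G (B \ E) a}.Infinite

/-- For every finite subset `E` of `B` infinitely many `x` in `X` are such that all vertices of the
component of `x` have few neighbours in `E \ {u}`. -/
def ThinIn (B X : Set V) (u : V) : Prop :=
  ∀ E : Set V, E.Finite → E ⊆ B → {x | x ∈ X ∧ ∀ a ∈ comp G x, Few G (E \ {u}) a}.Infinite

/-- `u` has infinite degree and is not free. -/
def Hard (u : V) : Prop := Inf G u ∧ ¬ FreeIn G {v | Inf G v} (Nf G u) u

/-- The kernel of a set `X` of vertices of finite degree: the vertices of infinite degree which have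
a neighbour in the component of `x` for infinitely many `x` in `X`. -/
def Ker (X : Set V) : Set V := {v | Inf G v ∧ {x | x ∈ X ∧ v ∈ bd G x}.Infinite}

variable (r : V → Ordinal.{0}) (T : V → Set V)

/-- `u` is hard, and not free in the set of the hard vertices of its rank. -/
def Stiff (u : V) : Prop := Hard G u ∧ ¬ FreeIn G {v | Hard G v ∧ r v = r u} (T u) u

/-- The conditions on the ranks `r`, the sets `T` and the set `A`. -/
structure Ranked (A : Set V) : Prop where
  sub : ∀ u, Hard G u → T u ⊆ Nf G u
  clean : ∀ u, Hard G u → {v | Hard G v ∧ r u < r v ∧ ∃ x ∈ T u, v ∈ bd G x}.Finite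
  ker : ∀ u ∈ A, Hard G u ∧ (T u).Infinite ∧
    {v | v ∈ Ker G (T u) ∧ Stiff G r T v ∧ r v = r u}.Finite
  hub : ∀ v, Stiff G r T v → {u | u ∈ A ∧ r u = r v ∧ v ∈ Ker G (T u)}.Finite

/-- The neighbours of infinite degree which may serve `u` directly. -/
def Jn (u : V) : Set V := {y | G.Adj u y ∧ Inf G y ∧ (¬ Hard G y ∨ r y ≤ r u)}

/-- `u` can be served. -/
def Served (A : Set V) (u : V) : Prop :=
  ¬ Stiff G r T u ∨ u ∈ A ∨ (Jn G r u).Infinite ∨
    ThinIn G {v | Stiff G r T v ∧ r v = r u} (T u) u

end UnfT
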