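import Mathlib

/-!
# Abstract selection theorem

A countable set `P` of petals has to be coloured so that every petal is served infinitely often.
For the petals of `B` the service depends on the colours of a finite set `lam i` and on the tail of
the colouring; the other petals are thin.
-/

set_option autoImplicit false

namespace UnfL

open Set Classical

variable {V T : Type*}

/-- `z` flipped on `X`. -/
noncomputable def fl (X : Set V) (z : V → Bool) : V → Bool := fun v => if v ∈ X then !(z v) else z v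

/-- `w` on `A` and `z` elsewhere. -/
noncomputable def gl (A : Set V) (w z : V → Bool) : V → Bool := fun v => if v ∈ A then w v else z v

lemma fl_mem {X : Set V} {z : V → Bool} {v : V} (h : v ∈ X) : fl X z v = !(z v) := if_pos h
lemma fl_not {X : Set V} {z : V → Bool} {v : V} (h : v ∉ X) : fl X z v = z v := if_neg h
lemma gl_mem {A : Set V} {w z : V → Bool} {v : V} (h : v ∈ A) : gl A w z v = w v := if_pos h
lemma gl_not {A : Set V} {w z : V → Bool} {v : V} (h : v ∉ A) : gl A w z v = z v := if_neg h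

lemma gl_congr {A : Set V} {w w' z : V → Bool} (h : ∀ v ∈ A, w v = w' v) : gl A w z = gl A w' z := by
  funext v
  by_cases hv : v ∈ A
  · rw [gl_mem hv, gl_mem hv, h v hv]
  · rw [gl_not hv, gl_not hv]

lemma gl_self {A : Set V} (z : V → Bool) : gl A z z = z := by
  funext v
  by_cases hv : v ∈ A
  · rw [gl_mem hv]
  · rw [gl_not hv]

/-- The data of a selection problem. -/
structure Sys (V T : Type*) where
  P : Set V
  B : Set V
  τ : V → Bool
  lam : V → Set V
  tk : V → (V → Bool) → Set T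

variable (S : Sys V T)

/-- The admissible colourings. -/
def Sys.Z : Set (V → Bool) := {z | ∀ v, v ∉ S.P → z v = S.τ v}

/-- `i` is served infinitely often. -/
def Sys.Sv (i : V) (z : V → Bool) : Prop := (S.tk i z).Infinite

/-- The properties of a selection problem. -/
structure Sys.Ok : Prop where
  BP : S.B ⊆ S.P
  self : ∀ i ∈ S.P, i ∈ S.lam i
  fin : ∀ i ∈ S.P, (S.lam i).Finite
  cofin : ∀ j, {i | i ∈ S.P ∧ j ∈ S.lam i}.Finite
  lamB : ∀ i ∈ S.B, S.lam i ⊆ S.B
  lamN : ∀ i ∈ S.P, i ∉ S.B → S.lam i = {i}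
  loc : ∀ i ∈ S.P, ∀ t, ∃ C : Set V, C.Finite ∧ ∀ z z' : V → Bool, (∀ v ∈ C, z v = z' v) →
    t ∈ S.tk i z → t ∈ S.tk i z'
  tail : ∀ i ∈ S.B, ∀ z ∈ S.Z, ∀ z' ∈ S.Z, {v | z v ≠ z' v}.Finite → ∀ w,
    S.Sv i (gl (S.lam i) w z) → S.Sv i (gl (S.lam i) w z')
  cons : ∀ z ∈ S.Z, ∀ w, ∀ X : Set V, X.Finite → (∀ i ∈ X, i ∈ S.B ∧ ¬ S.Sv i (gl (S.lam i) w z)) →
    ∀ j ∈ S.B, (j ∈ X ∨ S.Sv j (gl (S.lam j) w z)) → S.Sv j (gl (S.lam j) (fl X w) z)
  thin : ∀ u ∈ S.P, u ∉ S.B → ∀ E : Set V, E.Finite → ∃ A : Set T, A.Infinite ∧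
    ∀ z ∈ S.Z, ∀ z' ∈ S.Z, z u ≠ z' u → (∀ v, v ∉ E → z v = z' v) →
      ∀ t ∈ A, t ∈ S.tk u z ∨ t ∈ S.tk u z'

/-- The colourings which obey the data `h`. -/
def Sys.K (h : V → Set (V → Bool)) : Set (V → Bool) := {z | z ∈ S.Z ∧ ∀ i ∈ S.P, z ∈ h i}

/-- Consistent data. -/
structure Sys.Gd (h : V → Set (V → Bool)) : Prop where
  loc : ∀ i ∈ S.P, ∀ z z' : V → Bool, (∀ v ∈ S.lam i, z v = z' v) → z ∈ h i → z' ∈ h i
  con : ∀ z (X : Set V), X.Finite → (∀ i ∈ X, i ∈ S.P ∧ z ∉ h i) →
    ∀ j ∈ S.P, (j ∈ X ∨ z ∈ h j) → fl X z ∈ h j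
  up : ∀ i ∈ S.B, ∀ z ∈ S.K h, ∀ w, S.Sv i (gl (S.lam i) w z) → w ∈ h i
  sec : ∀ u ∈ S.P, u ∉ S.B → ∀ w, w ∉ h u → ∀ z ∈ S.K h, S.Sv u (gl {u} (fl {u} w) z)

variable {S}

lemma Sys.Ok.lamP (hS : S.Ok) {i : V} (hi : i ∈ S.P) : S.lam i ⊆ S.P := by
  by_cases hB : i ∈ S.B
  · exact (hS.lamB i hB).trans hS.BP
  · rw [hS.lamN i hi hB]
    intro v hv
    rw [mem_singleton_iff.1 hv]; exact hi

lemma Sys.gl_Z {A : Set V} (hA : A ⊆ S.P) {w z : V → Bool} (hz : z ∈ S.Z) : gl A w z ∈ S.Z := by
  intro v hv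
  rw [gl_not fun h => hv (hA h)]
  exact hz v hv

/-- The retraction onto `K h`. -/
noncomputable def Sys.rt (S : Sys V T) (h : V → Set (V → Bool)) (z : V → Bool) : V → Bool :=
  fl {v | v ∈ S.P ∧ z ∉ h v} z

lemma Sys.rt_mem (hS : S.Ok) {h : V → Set (V → Bool)} (hh : S.Gd h) {z : V → Bool} (hz : z ∈ S.Z) :
    S.rt h z ∈ S.K h := by
  refine ⟨fun v hv => ?_, fun i hi => ?_⟩
  · rw [Sys.rt, fl_not fun h => hv h.1]
    exact hz v hv
  · set X : Set V := {v | v ∈ S.lam i ∧ v ∈ S.P ∧ z ∉ h v} with hX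
    have h1 : fl X z ∈ h i := by
      refine hh.con z X ((hS.fin i hi).subset fun v hv => hv.1) (fun v hv => hv.2) i hi ?_
      by_cases hzi : z ∈ h i
      · exact Or.inr hzi
      · exact Or.inl ⟨hS.self i hi, hi, hzi⟩
    refine hh.loc i hi _ _ (fun v hv => ?_) h1
    by_cases hvD : v ∈ S.P ∧ z ∉ h v
    · rw [Sys.rt, fl_mem (X := X) ⟨hv, hvD⟩, fl_mem (X := {v | v ∈ S.P ∧ z ∉ h v}) hvD]
    · rw [Sys.rt, fl_not (X := X) fun h => hvD h.2, fl_not (X := {v | v ∈ S.P ∧ z ∉ h v}) hvD]

lemma Sys.K_nonempty (hS : S.Ok) {h : V → Set (V → Bool)} (hh : S.Gd h) : (S.K h).Nonempty :=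
  ⟨_, Sys.rt_mem hS hh (z := S.τ) fun _ _ => rfl⟩

/-- Gluing. -/
lemma Sys.glue (hS : S.Ok) {h : V → Set (V → Bool)} (hh : S.Gd h) {z1 z2 : V → Bool}
    (h1 : z1 ∈ S.K h) (h2 : z2 ∈ S.K h) {O : Set V} (hO : O.Finite) :
    ∃ z ∈ S.K h, (∀ v ∈ O, z v = z2 v) ∧ {v | z v ≠ z1 v}.Finite := by
  set O1 : Set V := O ∪ ⋃ i ∈ {i | i ∈ O ∧ i ∈ S.P}, S.lam i with hO1
  have hO1f : O1.Finite := hO.union ((hO.subset fun i hi => hi.1).biUnion fun i hi => hS.fin i hi.2)
  set w0 : V → Bool := gl O1 z2 z1 with hw0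
  have hw0Z : w0 ∈ S.Z := by
    intro v hv
    by_cases hvO : v ∈ O1
    · rw [hw0, gl_mem hvO]; exact h2.1 v hv
    · rw [hw0, gl_not hvO]; exact h1.1 v hv
  refine ⟨S.rt h w0, Sys.rt_mem hS hh hw0Z, fun v hv => ?_, ?_⟩
  · have hvO1 : v ∈ O1 := Or.inl hv
    have e : w0 v = z2 v := gl_mem hvO1
    by_cases hvP : v ∈ S.P
    · have : w0 ∈ h v := by
        refine hh.loc v hvP z2 w0 (fun a ha => ?_) (h2.2 v hvP)
        rw [hw0, gl_mem (show a ∈ O1 from Or.inr (mem_biUnion (show v ∈ {i | i ∈ O ∧ i ∈ S.P} from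
          ⟨hv, hvP⟩) ha))]
      rw [Sys.rt, fl_not fun h => h.2 this, e]
    · rw [Sys.rt, fl_not fun h => hvP h.1, e]
  · have hf : (O1 ∪ ⋃ j ∈ O1, {i | i ∈ S.P ∧ j ∈ S.lam i}).Finite :=
      hO1f.union (hO1f.biUnion fun j _ => hS.cofin j)
    refine hf.subset fun v hv => ?_
    by_contra hcon
    rw [mem_union, not_or] at hcon
    obtain ⟨hv1, hv2⟩ := hcon
    apply hv
    have e : w0 v = z1 v := gl_not hv1
    by_cases hvP : v ∈ S.P
    · have : w0 ∈ h v := by
        refine hh.loc v hvP z1 w0 (fun a ha => ?_) (h1.2 v hvP)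
        have haO : a ∉ O1 := fun haO => hv2 (mem_biUnion haO ⟨hvP, ha⟩)
        rw [hw0, gl_not haO]
      rw [Sys.rt, fl_not fun h => h.2 this, e]
    · rw [Sys.rt, fl_not fun h => hvP h.1, e]

/-- Service of `i` with the colours `w` on `lam i` is dense in `K h`. -/
def Sys.Dn (S : Sys V T) (h : V → Set (V → Bool)) (i : V) (w : V → Bool) : Prop :=
  ∀ z2 ∈ S.K h, ∀ O : Set V, O.Finite → ∀ F : Set T, F.Finite →
    ∃ z ∈ S.K h, (∀ v ∈ O, z v = z2 v) ∧ ∃ t, t ∉ F ∧ t ∈ S.tk i (gl (S.lam i) w z)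

lemma isOpen_of_loc {Q : (V → Bool) → Prop}
    (hQ : ∀ z, Q z → ∃ C : Set V, C.Finite ∧ ∀ z' : V → Bool, (∀ v ∈ C, z v = z' v) → Q z') :
    IsOpen {z | Q z} := by
  rw [isOpen_pi_iff]
  intro z hz
  obtain ⟨C, hC, hCQ⟩ := hQ z hz
  refine ⟨hC.toFinset, fun v => {z v}, fun v _ => ⟨isOpen_discrete _, rfl⟩, fun z' hz' => ?_⟩
  refine hCQ z' fun v hv => ?_
  have := hz' v (by simpa using hv)
  exact (mem_singleton_iff.1 this).symm

lemma Sys.K_closed (hS : S.Ok) {h : V → Set (V → Bool)} (hh : S.Gd h) : IsClosed (S.K h) := by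
  have h1 : IsClosed S.Z := by
    have : S.Z = ⋂ v ∈ {v | v ∉ S.P}, {z | z v = S.τ v} := by
      ext z; simp [Sys.Z]
    rw [this]
    exact isClosed_biInter fun v _ => isClosed_eq (continuous_apply v) continuous_const
  have h2 : IsClosed (⋂ i ∈ S.P, h i) := by
    refine isClosed_biInter fun i hi => ?_
    rw [← isOpen_compl_iff]
    refine isOpen_of_loc (Q := fun z => z ∉ h i) fun z hz => ⟨S.lam i, hS.fin i hi, fun z' hz' h3 => ?_⟩
    exact hz (hh.loc i hi z' z (fun v hv => (hz' v hv).symm) h3)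
  have : S.K h = S.Z ∩ ⋂ i ∈ S.P, h i := by
    ext z; simp [Sys.K]
  rw [this]
  exact h1.inter h2

/-- A generic colouring. -/
theorem Sys.generic [Countable V] [Countable T] (hS : S.Ok) {h : V → Set (V → Bool)} (hh : S.Gd h) :
    ∃ z ∈ S.K h, ∀ i ∈ S.P, ∀ w, S.Dn h i w → S.Sv i (gl (S.lam i) w z) := by
  have hcl := Sys.K_closed hS hh
  have hcp : IsCompact (S.K h) := hcl.isCompact
  have : CompactSpace (S.K h) := isCompact_iff_compactSpace.1 hcp
  have : Nonempty (S.K h) := (Sys.K_nonempty hS hh).to_subtype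
  let we : Finset V → V → Bool := fun e v => decide (v ∈ e)
  let U0 : V × Finset V × Finset T → Set (S.K h) := fun p =>
    {z | ∃ t, t ∉ p.2.2 ∧ t ∈ S.tk p.1 (gl (S.lam p.1) (we p.2.1) z.1)}
  let U : V × Finset V × Finset T → Set (S.K h) := fun p =>
    if p.1 ∈ S.P ∧ S.Dn h p.1 (we p.2.1) then U0 p else univ
  have hop : ∀ p, IsOpen (U p) := by
    intro p
    by_cases hp : p.1 ∈ S.P ∧ S.Dn h p.1 (we p.2.1)
    · have e : U p = U0 p := if_pos hp
      rw [e]
      have : U0 p = Subtype.val ⁻¹' {z : V → Bool | ∃ t, t ∉ p.2.2 ∧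
          t ∈ S.tk p.1 (gl (S.lam p.1) (we p.2.1) z)} := rfl
      rw [this]
      refine IsOpen.preimage continuous_subtype_val ?_
      refine isOpen_of_loc (Q := fun z : V → Bool => ∃ t, t ∉ p.2.2 ∧
        t ∈ S.tk p.1 (gl (S.lam p.1) (we p.2.1) z)) ?_
      rintro z ⟨t, ht1, ht2⟩
      obtain ⟨C, hC, hCt⟩ := hS.loc p.1 hp.1 t
      refine ⟨C, hC, fun z' hz' => ⟨t, ht1, hCt _ _ (fun v hv => ?_) ht2⟩⟩
      by_cases hvl : v ∈ S.lam p.1
      · rw [gl_mem hvl, gl_mem hvl]
      · rw [gl_not hvl, gl_not hvl, hz' v hv]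
    · have e : U p = univ := if_neg hp
      rw [e]; exact isOpen_univ
  have hde : ∀ p, Dense (U p) := by
    intro p
    by_cases hp : p.1 ∈ S.P ∧ S.Dn h p.1 (we p.2.1)
    · have e : U p = U0 p := if_pos hp
      rw [e, dense_iff_inter_open]
      rintro W hW ⟨z2, hz2⟩
      obtain ⟨W', hW', rfl⟩ := isOpen_induced_iff.1 hW
      obtain ⟨I, u, hu, hsub⟩ := isOpen_pi_iff.1 hW' z2.1 hz2
      obtain ⟨z, hz, hzO, t, ht1, ht2⟩ := hp.2 z2.1 z2.2 (I : Set V) I.finite_toSet
        (p.2.2 : Set T) p.2.2.finite_toSet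
      refine ⟨⟨z, hz⟩, hsub fun v hv => ?_, t, ht1, ht2⟩
      change z v ∈ u v
      rw [hzO v hv]
      exact (hu v hv).2
    · have e : U p = univ := if_neg hp
      rw [e]; exact dense_univ
  have hD := dense_iInter_of_isOpen hop hde
  obtain ⟨z, hz⟩ := hD.nonempty
  refine ⟨z.1, z.2, fun i hi w hD => ?_⟩
  set e : Finset V := ((hS.fin i hi).subset (inter_subset_left (t := {v | w v = true}))).toFinset
    with he
  have hwe : ∀ v ∈ S.lam i, w v = we e v := by
    intro v hv
    simp only [we, he, Finite.mem_toFinset, mem_inter_iff, hv, true_and, mem_ofPred_eq]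
    cases w v <;> simp
  have hD' : S.Dn h i (we e) := by
    intro z2 hz2 O hO F hF
    obtain ⟨z, h1, h2, t, h3, h4⟩ := hD z2 hz2 O hO F hF
    refine ⟨z, h1, h2, t, h3, ?_⟩
    rw [← gl_congr hwe]; exact h4
  rw [gl_congr hwe]
  intro hfin
  have hm := mem_iInter.1 hz (i, e, hfin.toFinset)
  have e1 : U (i, e, hfin.toFinset) = U0 (i, e, hfin.toFinset) := if_pos ⟨hi, hD'⟩
  rw [e1] at hm
  obtain ⟨t, ht1, ht2⟩ := hm
  exact ht1 (hfin.mem_toFinset.2 ht2)

/-- For petals of `B` service is dense as soon as it is possible. -/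
lemma Sys.dn_of_B (hS : S.Ok) {h : V → Set (V → Bool)} (hh : S.Gd h) {i : V} (hi : i ∈ S.B)
    {w z1 : V → Bool} (h1 : z1 ∈ S.K h) (hs : S.Sv i (gl (S.lam i) w z1)) : S.Dn h i w := by
  intro z2 h2 O hO F hF
  obtain ⟨z, hz, hzO, hzf⟩ := Sys.glue hS hh h1 h2 hO
  have hs' : S.Sv i (gl (S.lam i) w z) :=
    hS.tail i hi z1 h1.1 z hz.1 (hzf.subset fun v hv => fun h => hv h.symm) w hs
  obtain ⟨t, ht1, ht2⟩ := (hs'.sdiff hF).nonempty
  exact ⟨z, hz, hzO, t, ht2, ht1⟩

/-- For thin petals a colour which is not served densely has a complement which is always served. -/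
lemma Sys.thin_sec (hS : S.Ok) {h : V → Set (V → Bool)} (hh : S.Gd h) {u : V} (hu : u ∈ S.P)
    (huB : u ∉ S.B) {w : V → Bool} (hn : ¬ S.Dn h u w) :
    ∀ z ∈ S.K h, S.Sv u (gl {u} (fl {u} w) z) := by
  unfold Sys.Dn at hn
  push Not at hn
  obtain ⟨z2, h2, O, hO, F, hF, hno⟩ := hn
  intro z1 h1
  obtain ⟨z, hz, hzO, hzf⟩ := Sys.glue hS hh h1 h2 hO
  obtain ⟨A, hA, hAt⟩ := hS.thin u hu huB ({v | z v ≠ z1 v} ∪ {u}) (hzf.union (finite_singleton u))
  refine (hA.sdiff hF).mono ?_
  rintro t ⟨htA, htF⟩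
  have hl : S.lam u = {u} := hS.lamN u hu huB
  have husub : ({u} : Set V) ⊆ S.P := singleton_subset_iff.2 hu
  have := hAt (gl {u} w z) (Sys.gl_Z husub hz.1) (gl {u} (fl {u} w) z1) (Sys.gl_Z husub h1.1) ?_ ?_ t htA
  · refine this.resolve_left fun h3 => ?_
    refine hno z hz hzO t htF ?_
    rw [hl]; exact h3
  · rw [gl_mem (mem_singleton u), gl_mem (mem_singleton u), fl_mem (mem_singleton u)]
    cases w u <;> simp
  · intro v hv
    rw [mem_union, not_or] at hv
    rw [gl_not hv.2, gl_not hv.2]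
    by_contra hne
    exact hv.1 hne

/-- There is a minimal system of consistent data. -/
theorem Sys.exists_min : ∃ h, S.Gd h ∧ ∀ h', S.Gd h' → (∀ i ∈ S.P, h' i ⊆ h i) →
    ∀ i ∈ S.P, h i ⊆ h' i := by
  let α := {h : V → Set (V → Bool) // S.Gd h}
  let r : α → α → Prop := fun a b => ∀ i ∈ S.P, b.1 i ⊆ a.1 i
  have hz : ∃ m : α, ∀ a, r m a → r a m := by
    refine exists_maximal_of_chains_bounded (r := r) ?_ ?_
    · intro C hC
      rcases C.eq_empty_or_nonempty with rfl | hCne
      · refine ⟨⟨fun _ => univ, ?_, ?_, ?_, ?_⟩, by simp⟩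
        · intro i _ z z' _ _; exact mem_univ _
        · intro z X _ _ j _ _; exact mem_univ _
        · intro i _ z _ w _; exact mem_univ _
        · intro u _ _ w hw; exact absurd (mem_univ _) hw
      set g : V → Set (V → Bool) := fun i => ⋂ a ∈ C, (a.1 i) with hg
      have hsub : ∀ a ∈ C, ∀ i, g i ⊆ a.1 i := fun a ha i => biInter_subset_of_mem ha
      have hKs : ∀ a ∈ C, S.K g ⊆ S.K a.1 := fun a ha z hz => ⟨hz.1, fun i hi => hsub a ha i (hz.2 i hi)⟩
      have hchain : ∀ a ∈ C, ∀ b ∈ C, r a b ∨ r b a := by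
        intro a ha b hb
        by_cases hab : a = b
        · subst hab; exact Or.inl fun i _ => subset_rfl
        · exact hC ha hb hab
      -- a finite set of exclusions is witnessed by one member below a given one
      have hfin : ∀ (z : V → Bool) (X : Set V), X.Finite → (∀ i ∈ X, i ∈ S.P ∧ z ∉ g i) → ∀ a ∈ C,
          ∃ b ∈ C, r a b ∧ ∀ i ∈ X, i ∈ S.P ∧ z ∉ b.1 i := by
        intro z X hX
        induction X, hX using Set.Finite.induction_on with
        | empty => intro _ a ha; exact ⟨a, ha, fun i _ => subset_rfl, by simp⟩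
        | @insert x X _ _ ih =>
          intro hx a ha
          obtain ⟨b, hb, hab, hbX⟩ := ih (fun i hi => hx i (mem_insert_of_mem _ hi)) a ha
          obtain ⟨hxP, hxg⟩ := hx x (mem_insert _ _)
          have : ∃ c ∈ C, z ∉ c.1 x := by
            by_contra hcon
            push Not at hcon
            exact hxg (mem_iInter₂.2 fun c hc => hcon c hc)
          obtain ⟨c, hc, hcx⟩ := this
          rcases hchain b hb c hc with h1 | h1
          · refine ⟨c, hc, fun i hi => (h1 i hi).trans (hab i hi), fun i hi => ?_⟩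
            rcases mem_insert_iff.1 hi with rfl | hi
            · exact ⟨hxP, hcx⟩
            · exact ⟨(hbX i hi).1, fun h2 => (hbX i hi).2 (h1 i (hbX i hi).1 h2)⟩
          · refine ⟨b, hb, hab, fun i hi => ?_⟩
            rcases mem_insert_iff.1 hi with rfl | hi
            · exact ⟨hxP, fun h2 => hcx (h1 i hxP h2)⟩
            · exact hbX i hi
      refine ⟨⟨g, ?_, ?_, ?_, ?_⟩, fun a ha i _ => hsub a ha i⟩
      · intro i hi z z' hzz hz
        exact mem_iInter₂.2 fun a ha => a.2.loc i hi z z' hzz (mem_iInter₂.1 hz a ha)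
      · intro z X hXf hX j hj hjX
        refine mem_iInter₂.2 fun a ha => ?_
        obtain ⟨b, hb, hab, hbX⟩ := hfin z X hXf hX a ha
        exact hab j hj (b.2.con z X hXf hbX j hj (hjX.imp_right fun h => mem_iInter₂.1 h b hb))
      · intro i hi z hz w hw
        exact mem_iInter₂.2 fun a ha => a.2.up i hi z (hKs a ha hz) w hw
      · intro u hu huB w hw z hz
        have : ∃ c ∈ C, w ∉ c.1 u := by
          by_contra hcon
          push Not at hcon
          exact hw (mem_iInter₂.2 fun c hc => hcon c hc)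
        obtain ⟨c, hc, hcu⟩ := this
        exact c.2.sec u hu huB w hcu z (hKs c hc hz)
    · intro a b c hab hbc i hi
      exact (hbc i hi).trans (hab i hi)
  obtain ⟨m, hm⟩ := hz
  exact ⟨m.1, m.2, fun h' h1 h2 => hm ⟨h', h1⟩ h2⟩

/-- **Selection theorem.** -/
theorem Sys.select [Countable V] [Countable T] (hS : S.Ok) : ∃ z ∈ S.Z, ∀ i ∈ S.P, S.Sv i z := by
  obtain ⟨h, hh, hmin⟩ := Sys.exists_min (S := S)
  obtain ⟨z, hz, hgen⟩ := Sys.generic hS hh
  -- the derived data
  let g : V → Set (V → Bool) := fun i =>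
    if i ∈ S.B then {w | ∃ z ∈ S.K h, S.Sv i (gl (S.lam i) w z)} else h i
  have gB : ∀ i ∈ S.B, g i = {w | ∃ z ∈ S.K h, S.Sv i (gl (S.lam i) w z)} := fun i hi => if_pos hi
  have gN : ∀ i, i ∉ S.B → g i = h i := fun i hi => if_neg hi
  have gsub : ∀ i ∈ S.P, g i ⊆ h i := by
    intro i _
    by_cases hB : i ∈ S.B
    · rw [gB i hB]
      rintro w ⟨z', hz', hs⟩
      exact hh.up i hB z' hz' w hs
    · rw [gN i hB]
  have gK : S.K g ⊆ S.K h := fun z hz => ⟨hz.1, fun i hi => gsub i hi (hz.2 i hi)⟩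
  have ggen : ∀ i ∈ S.B, ∀ w ∈ g i, S.Sv i (gl (S.lam i) w z) := by
    intro i hi w hw
    rw [gB i hi] at hw
    obtain ⟨z', hz', hs⟩ := hw
    exact hgen i (hS.BP hi) w (Sys.dn_of_B hS hh hi hz' hs)
  have gnot : ∀ i ∈ S.B, ∀ w, w ∉ g i → ¬ S.Sv i (gl (S.lam i) w z) := by
    intro i hi w hw hs
    apply hw
    rw [gB i hi]
    exact ⟨z, hz, hs⟩
  have hgd : S.Gd g := by
    refine ⟨?_, ?_, ?_, ?_⟩
    · intro i hi z1 z2 h12 h1
      by_cases hB : i ∈ S.B
      · rw [gB i hB] at h1 ⊢
        obtain ⟨z', hz', hs⟩ := h1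
        exact ⟨z', hz', by rw [← gl_congr h12]; exact hs⟩
      · rw [gN i hB] at h1 ⊢
        exact hh.loc i hi z1 z2 h12 h1
    · intro w X hXf hX j hj hjX
      by_cases hjB : j ∈ S.B
      · set X' : Set V := {i | i ∈ X ∧ i ∈ S.B} with hX'
        have e : gl (S.lam j) (fl X w) z = gl (S.lam j) (fl X' w) z := by
          refine gl_congr fun v hv => ?_
          have hvB := hS.lamB j hjB hv
          by_cases hvX : v ∈ X
          · rw [fl_mem hvX, fl_mem (X := X') ⟨hvX, hvB⟩]
          · rw [fl_not hvX, fl_not (X := X') fun h => hvX h.1]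
        rw [gB j hjB]
        refine ⟨z, hz, ?_⟩
        rw [e]
        refine hS.cons z hz.1 w X' (hXf.subset fun i hi => hi.1)
          (fun i hi => ⟨hi.2, gnot i hi.2 w (hX i hi.1).2⟩) j hjB ?_
        rcases hjX with h1 | h1
        · exact Or.inl ⟨h1, hjB⟩
        · exact Or.inr (ggen j hjB w h1)
      · rw [gN j hjB]
        by_cases hjX' : j ∈ X
        · have h1 : w ∉ h j := by
            have := (hX j hjX').2
            rwa [gN j hjB] at this
          have h2 := hh.con w {j} (finite_singleton j) (fun i hi => by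
            rw [mem_singleton_iff.1 hi]; exact ⟨hj, h1⟩) j hj (Or.inl rfl)
          refine hh.loc j hj _ _ (fun v hv => ?_) h2
          rw [hS.lamN j hj hjB, mem_singleton_iff] at hv
          rw [hv, fl_mem (mem_singleton j), fl_mem hjX']
        · have h1 : w ∈ h j := by
            have := hjX.resolve_left hjX'
            rwa [gN j hjB] at this
          refine hh.loc j hj _ _ (fun v hv => ?_) h1
          rw [hS.lamN j hj hjB, mem_singleton_iff] at hv
          rw [hv, fl_not hjX']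
    · intro i hi z1 hz1 w hs
      rw [gB i hi]
      exact ⟨z1, gK hz1, hs⟩
    · intro u hu huB w hw z1 hz1
      rw [gN u huB] at hw
      exact hh.sec u hu huB w hw z1 (gK hz1)
  have hhg := hmin g hgd gsub
  refine ⟨z, hz.1, fun i hi => ?_⟩
  by_cases hB : i ∈ S.B
  · have := ggen i hB z (hhg i hi (hz.2 i hi))
    rwa [gl_self] at this
  · have hli := hS.lamN i hi hB
    by_cases hall : ∀ w, w ∈ h i
    · by_cases hD : S.Dn h i z
      · have := hgen i hi z hD
        rwa [gl_self] at this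
      · exfalso
        -- shrink `h i`
        have hsec := Sys.thin_sec hS hh hi hB hD
        let g' : V → Set (V → Bool) := fun j => if j = i then {w | w i ≠ z i} ∩ h i else h j
        have g1 : g' i = {w | w i ≠ z i} ∩ h i := if_pos rfl
        have g2 : ∀ j, j ≠ i → g' j = h j := fun j hj => if_neg hj
        have hg'sub : ∀ j ∈ S.P, g' j ⊆ h j := by
          intro j _
          by_cases hj : j = i
          · subst hj; rw [g1]; exact inter_subset_right
          · rw [g2 j hj]
        have hg'K : S.K g' ⊆ S.K h := fun z hz => ⟨hz.1, fun i hi => hg'sub i hi (hz.2 i hi)⟩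
        have hgd' : S.Gd g' := by
          refine ⟨?_, ?_, ?_, ?_⟩
          · intro j hj z1 z2 h12 h1
            by_cases hji : j = i
            · subst hji
              rw [g1] at h1 ⊢
              refine ⟨?_, hall _⟩
              have := h12 j (by rw [hli]; rfl)
              rw [mem_ofPred_eq, ← this]; exact h1.1
            · rw [g2 j hji] at h1 ⊢
              exact hh.loc j hj z1 z2 h12 h1
          · intro w X hXf hX j hj hjX
            by_cases hji : j = i
            · subst hji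
              rw [g1]
              refine ⟨?_, hall _⟩
              rw [mem_ofPred_eq]
              by_cases hjX' : j ∈ X
              · rw [fl_mem hjX']
                have := (hX j hjX').2
                rw [g1] at this
                have h3 : w j = z j := by
                  by_contra hne
                  exact this ⟨hne, hall _⟩
                rw [h3]; cases z j <;> simp
              · rw [fl_not hjX']
                have := hjX.resolve_left hjX'
                rw [g1] at this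
                exact this.1
            · rw [g2 j hji] at hjX ⊢
              -- remove `i` from `X`
              set X' : Set V := {v | v ∈ X ∧ v ≠ i} with hX'
              have h1 : fl X' w ∈ h j := by
                refine hh.con w X' (hXf.subset fun v hv => hv.1) (fun v hv => ?_) j hj
                  (hjX.imp_left fun h => ⟨h, hji⟩)
                have := hX v hv.1
                rw [g2 v hv.2] at this
                exact this
              refine hh.loc j hj _ _ (fun v hv => ?_) h1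
              have hvi : v ≠ i := by
                intro hvi
                by_cases hjB : j ∈ S.B
                · exact hB (hvi ▸ hS.lamB j hjB hv)
                · rw [hS.lamN j hj hjB, mem_singleton_iff] at hv
                  exact hji (hv ▸ hvi)
              by_cases hvX : v ∈ X
              · rw [fl_mem hvX, fl_mem (X := X') ⟨hvX, hvi⟩]
              · rw [fl_not hvX, fl_not (X := X') fun h => hvX h.1]
          · intro j hj z1 hz1 w hs
            have hji : j ≠ i := fun h => hB (h ▸ hj)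
            rw [g2 j hji]
            exact hh.up j hj z1 (hg'K hz1) w hs
          · intro u hu huB w hw z1 hz1
            by_cases hui : u = i
            · subst hui
              rw [g1] at hw
              have h3 : w u = z u := by
                by_contra hne
                exact hw ⟨hne, hall _⟩
              have := hsec z1 (hg'K hz1)
              rwa [gl_congr (w' := fl {u} w) (fun v hv => ?_)] at this
              rw [fl_mem hv, fl_mem hv, mem_singleton_iff.1 hv, h3]
            · rw [g2 u hui] at hw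
              exact hh.sec u hu huB w hw z1 (hg'K hz1)
        have := hmin g' hgd' hg'sub i hi (hz.2 i hi)
        rw [g1] at this
        exact this.1 rfl
    · push Not at hall
      obtain ⟨w, hw⟩ := hall
      have hwz : w i ≠ z i := by
        intro hwz
        apply hw
        refine hh.loc i hi z w (fun v hv => ?_) (hz.2 i hi)
        rw [hli, mem_singleton_iff] at hv
        rw [hv, hwz]
      have h3 := hh.sec i hi hB w hw z hz
      have e : gl {i} (fl {i} w) z = z := by
        funext v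
        by_cases hv : v ∈ ({i} : Set V)
        · rw [gl_mem hv, fl_mem hv, mem_singleton_iff.1 hv]
          revert hwz
          cases w i <;> cases z i <;> simp
        · rw [gl_not hv]
      rw [e] at h3
      exact h3

end UnfL
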