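import Pool.Agent.Work.MP_1aab6d_co_h84.Robust
import Pool.Agent.Work.MP_1aab6d_co_h84.Sel
import Pool.Agent.Work.MP_1aab6d_co_h84.RankDefs

/-!
# Infinite families of finite components with finite kernels
-/

set_option autoImplicit false

namespace UnfT

open Finset Classical

variable {V : Type*} (G : SimpleGraph V)

/-- There is a finite set `E` of vertices of infinite degree containing `u` such that infinitely many
neighbours `x` of `u` have finite degree and lie in a finite component all of whose vertices have few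
neighbours of infinite degree outside `E`. -/
def Free (u : V) : Prop :=
  ∃ E : Set V, E.Finite ∧ (∀ v ∈ E, Inf G v) ∧ u ∈ E ∧
    {x | G.Adj u x ∧ ¬ Inf G x ∧ (comp G x).Finite ∧
      ∀ a ∈ comp G x, Few G {b | Inf G b ∧ b ∉ E} a}.Infinite

/-- For every finite set `E` of vertices of infinite degree infinitely many neighbours `x` of `u`
have finite degree and lie in a finite component all of whose vertices have few neighbours in `E`
other than `u`. -/
def Thin (u : V) : Prop :=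
  ∀ E : Set V, E.Finite → (∀ v ∈ E, Inf G v) →
    {x | G.Adj u x ∧ ¬ Inf G x ∧ (comp G x).Finite ∧
      ∀ a ∈ comp G x, Few G (E \ {u}) a}.Infinite

/-- `z` serves `u` infinitely often. -/
def SH (z : V → Bool) (u : V) : Prop :=
  {y | G.Adj u y ∧ ((Inf G y ∧ z y ≠ z u) ∨ (¬ Inf G y ∧ (comp G y).Finite ∧
    ∃ s : V → Bool, (∀ v, v ∉ comp G y → s v = z v) ∧ (∀ v ∈ comp G y, Stab G s v) ∧
      s y ≠ z u))}.Infinite

variable {G}

lemma SH.of_srv {z : V → Bool} {u : V}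
    (h : {x | ¬ Inf G x ∧ (comp G x).Finite ∧ Srv G z (comp G x) u}.Infinite) : SH G z u := by
  intro hfin
  refine h ((finite_hit (G := G) hfin).subset ?_)
  rintro x ⟨hx, hf, s, hs1, hs2, y, hy, huy, hsy⟩
  refine ⟨hx, hf, y, ⟨huy, Or.inr ⟨comp_not_inf hx hy, by rw [comp_eq hx hy]; exact hf, s, ?_, ?_,
    hsy⟩⟩, hy⟩
  · intro v hv
    rw [comp_eq hx hy] at hv
    exact hs1 v hv
  · intro v hv
    rw [comp_eq hx hy] at hv
    exact hs2 v hv

lemma SH.ph {z c : V → Bool} {u : V} (hu : Inf G u) (h : SH G z u)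
    (hc : ∀ v, Inf G v → c v = z v) : PH G c u := by
  refine h.mono ?_
  rintro y ⟨huy, h1 | ⟨hy, hf, s, hs1, hs2, hsy⟩⟩
  · refine ⟨huy, Or.inl ?_⟩
    rw [hc y h1.1, hc u hu]; exact h1.2
  · exact ⟨huy, pg_of_srv hy hf (hc u hu) (fun v hv => hc v hv.1) hs1 hs2 (mem_comp_self y) hsy⟩

/-! ### Absolutely secured partial colourings -/

variable (G) in
/-- `(S, τ)` is absolutely secured. -/
def Sc (S : Set V) (τ : V → Bool) : Prop :=
  (∀ v ∈ S, Inf G v) ∧ ∀ z : V → Bool, (∀ v ∈ S, z v = τ v) → ∀ u ∈ S, SH G z u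

theorem exists_Sc (G : SimpleGraph V) : ∃ S τ, Sc G S τ ∧
    ∀ S' τ', Sc G S' τ' → S ⊆ S' → (∀ v ∈ S, τ' v = τ v) → S' ⊆ S := by
  let α := {p : Set V × (V → Bool) // Sc G p.1 p.2}
  let r : α → α → Prop := fun p q => p.1.1 ⊆ q.1.1 ∧ ∀ v ∈ p.1.1, q.1.2 v = p.1.2 v
  have hz : ∃ m : α, ∀ a, r m a → r a m := by
    refine exists_maximal_of_chains_bounded (r := r) ?_ ?_
    · intro C hC
      rcases C.eq_empty_or_nonempty with rfl | hCne
      · refine ⟨⟨(∅, fun _ => false), ?_, ?_⟩, by simp⟩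
        · intro v hv; exact absurd hv (Set.notMem_empty _)
        · intro c _ v hv; exact absurd hv (Set.notMem_empty _)
      set S : Set V := ⋃ p ∈ C, p.1.1 with hS
      let τ : V → Bool := fun v => if h : ∃ p ∈ C, v ∈ p.1.1 then h.choose.1.2 v else false
      have hτ : ∀ p ∈ C, ∀ v ∈ p.1.1, τ v = p.1.2 v := by
        intro p hp v hv
        have h : ∃ p ∈ C, v ∈ p.1.1 := ⟨p, hp, hv⟩
        have e : τ v = h.choose.1.2 v := dif_pos h
        rw [e]
        have h1 := h.choose_spec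
        by_cases hpq : h.choose = p
        · rw [hpq]
        · rcases hC h1.1 hp hpq with h2 | h2
          · exact (h2.2 v h1.2).symm
          · exact h2.2 v hv
      have hsub : ∀ p ∈ C, p.1.1 ⊆ S := fun p hp => Set.subset_biUnion_of_mem (u := fun p : α => p.1.1) hp
      have hmem : ∀ v ∈ S, ∃ p ∈ C, v ∈ p.1.1 := fun v hv => by simpa [hS] using hv
      refine ⟨⟨(S, τ), ?_, ?_⟩, fun p hp => ⟨hsub p hp, hτ p hp⟩⟩
      · intro v hv
        obtain ⟨p, _, hpv⟩ := hmem v hv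
        exact p.2.1 v hpv
      · intro z he v hv
        obtain ⟨p, hp, hpv⟩ := hmem v hv
        exact p.2.2 z (fun w hw => (he w (hsub p hp hw)).trans (hτ p hp w hw)) v hpv
    · intro a b c hab hbc
      exact ⟨hab.1.trans hbc.1, fun v hv => (hbc.2 v (hab.1 hv)).trans (hab.2 v hv)⟩
  obtain ⟨m, hm⟩ := hz
  exact ⟨m.1.1, m.1.2, m.2, fun S' τ' h1 h2 h3 => (hm ⟨(S', τ'), h1⟩ ⟨h2, h3⟩).1⟩

/-- `Free` vertices belong to a maximal secured set. -/
lemma mem_of_free {S : Set V} {τ : V → Bool} (h : Sc G S τ)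
    (hM : ∀ S' τ', Sc G S' τ' → S ⊆ S' → (∀ v ∈ S, τ' v = τ v) → S' ⊆ S) {u : V} (hu : Free G u) :
    u ∈ S := by
  by_contra huS
  obtain ⟨E, hEf, hEI, huE, hX⟩ := hu
  set X1 := {x | G.Adj u x ∧ ¬ Inf G x ∧ (comp G x).Finite ∧
      ∀ a ∈ comp G x, Few G {b | Inf G b ∧ b ∉ E} a} with hX1
  have key : ∀ x ∈ X1, ∃ Y : Set V, Y ⊆ E \ S ∧ Y.Nonempty ∧ ∃ f : V → Bool, ∀ z' : V → Bool,
      (∀ v ∈ S, z' v = τ v) → (∀ v ∈ Y, z' v = f v) → ∀ w ∈ Y, Srv G z' (comp G x) w := by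
    rintro x ⟨hux, hx, hf, hr⟩
    exact rob_free' hx hf (hEI u huE) hux huE hr S huS τ
  have hpig : ∃ Y : Set V, Y ⊆ E \ S ∧ Y.Nonempty ∧ ∃ T : Set V, {x | x ∈ X1 ∧ ∀ z' : V → Bool,
      (∀ v ∈ S, z' v = τ v) → (∀ v ∈ Y, z' v = decide (v ∈ T)) →
        ∀ w ∈ Y, Srv G z' (comp G x) w}.Infinite := by
    by_contra hcon
    push Not at hcon
    apply hX
    have hfin : (⋃ Y ∈ {Y | Y ⊆ E \ S ∧ Y.Nonempty}, ⋃ T ∈ {T | T ⊆ E}, {x | x ∈ X1 ∧
        ∀ z' : V → Bool, (∀ v ∈ S, z' v = τ v) → (∀ v ∈ Y, z' v = decide (v ∈ T)) →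
        ∀ w ∈ Y, Srv G z' (comp G x) w}).Finite :=
      ((hEf.subset Set.sdiff_subset).finite_subsets.subset fun Y hY => hY.1).biUnion
        fun Y hY => hEf.finite_subsets.biUnion fun T _ => hcon Y hY.1 hY.2 T
    refine hfin.subset fun x hx => ?_
    obtain ⟨Y, hY1, hY2, f, hf⟩ := key x hx
    refine Set.mem_biUnion (show Y ∈ {Y | Y ⊆ E \ S ∧ Y.Nonempty} from ⟨hY1, hY2⟩) ?_
    refine Set.mem_biUnion (show {v | v ∈ Y ∧ f v = true} ∈ {T | T ⊆ E} from
      fun v hv => (hY1 hv.1).1) ?_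
    refine ⟨hx, fun z' h1 h2 => hf z' h1 fun v hv => ?_⟩
    rw [h2 v hv]
    cases hfv : f v <;> simp [hv, hfv]
  obtain ⟨Y, hYE, ⟨y0, hy0⟩, T, hXT⟩ := hpig
  set τ' : V → Bool := fun v => if v ∈ Y then decide (v ∈ T) else τ v with hτ'
  have t1 : ∀ v ∈ Y, τ' v = decide (v ∈ T) := fun v hv => if_pos hv
  have t2 : ∀ v ∈ S, τ' v = τ v := fun v hv => if_neg fun hY => (hYE hY).2 hv
  have hle : S ∪ Y ⊆ S := by
    refine hM (S ∪ Y) τ' ⟨?_, ?_⟩ Set.subset_union_left t2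
    · rintro v (hv | hv)
      · exact h.1 v hv
      · exact hEI v (hYE hv).1
    · intro z hz w hw
      by_cases hwS : w ∈ S
      · exact h.2 z (fun v hv => (hz v (Or.inl hv)).trans (t2 v hv)) w hwS
      · have hwY : w ∈ Y := hw.resolve_left hwS
        refine SH.of_srv (hXT.mono ?_)
        rintro x ⟨⟨hux, hx, hf, -⟩, hxs⟩
        exact ⟨hx, hf, hxs z (fun v hv => (hz v (Or.inl hv)).trans (t2 v hv))
          (fun v hv => (hz v (Or.inr hv)).trans (t1 v hv)) w hwY⟩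
  exact (hYE hy0).2 (hle (Or.inr hy0))

end UnfT
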