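import Pool.Agent.Work.MP_1aab6d_co_h84.Ker

set_option autoImplicit false

namespace UnfT

open Finset Classical UnfL

variable {V : Type*} {G : SimpleGraph V}

/-! ### Service by one finite component -/

lemma exists_stable {x : V} (hx : ¬ Inf G x) (z : V → Bool) :
    ∃ s : V → Bool, (∀ v, v ∉ comp G x → s v = z v) ∧ ∀ v ∈ comp G x, Stab G s v := by
  have h0 : FS G {v | Inf G v} z := by
    intro Q hQ
    have : Q = ∅ := by
      rw [Finset.eq_empty_iff_forall_notMem]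
      intro a ha
      exact (hQ a ha).2 (hQ a ha).1
    rw [this, en_empty]
  obtain ⟨c, hc1, hc2⟩ := exists_total h0
  set s : V → Bool := fun v => if v ∈ comp G x then c v else z v with hs
  have e1 : ∀ v ∈ comp G x, s v = c v := fun v hv => if_pos hv
  have e2 : ∀ v, v ∉ comp G x → s v = z v := fun v hv => if_neg hv
  refine ⟨s, e2, fun v hv => ?_⟩
  refine (hc2.stab (comp_not_inf hx hv)).congr (e1 v hv) fun w hw => ?_
  by_cases hwC : w ∈ comp G x
  · exact e1 w hwC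
  · rw [e2 w hwC]
    rcases comp_adj hv hw with h1 | h1
    · exact absurd h1 hwC
    · exact (hc1 w h1.1).symm

lemma srv_congr {x u : V} {z z' : V → Bool} (hu : u ∈ bd G x) (hz : ∀ v ∈ bd G x, z v = z' v)
    (h : Srv G z (comp G x) u) : Srv G z' (comp G x) u := by
  obtain ⟨s, hs1, hs2, y, hy, huy, hsy⟩ := h
  set s' : V → Bool := fun v => if v ∈ comp G x then s v else z' v with hs'
  have e1 : ∀ v ∈ comp G x, s' v = s v := fun v hv => if_pos hv
  have e2 : ∀ v, v ∉ comp G x → s' v = z' v := fun v hv => if_neg hv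
  refine ⟨s', e2, fun v hv => ?_, y, hy, huy, ?_⟩
  · refine (hs2 v hv).congr (e1 v hv) fun w hw => ?_
    by_cases hwC : w ∈ comp G x
    · exact e1 w hwC
    · rw [e2 w hwC]
      rcases comp_adj hv hw with h1 | h1
      · exact absurd h1 hwC
      · rw [← hz w h1, hs1 w hwC]
  · rw [e1 y hy, ← hz u hu]; exact hsy

lemma srv_fl {x j : V} (hx : ¬ Inf G x) {z : V → Bool} {X : Set V}
    (hX : ∀ i ∈ X, i ∈ bd G x → ¬ Srv G z (comp G x) i) (hj : j ∈ bd G x)
    (h : j ∈ X ∨ Srv G z (comp G x) j) : Srv G (fl X z) (comp G x) j := by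
  -- the transfer of one stable state
  have key : ∀ s : V → Bool, (∀ v, v ∉ comp G x → s v = z v) → (∀ v ∈ comp G x, Stab G s v) →
      ∃ s' : V → Bool, (∀ v, v ∉ comp G x → s' v = fl X z v) ∧ (∀ v ∈ comp G x, Stab G s' v) ∧
        ∀ v ∈ comp G x, s' v = s v := by
    intro s hs1 hs2
    set s' : V → Bool := fun v => if v ∈ comp G x then s v else fl X z v with hs'
    have e1 : ∀ v ∈ comp G x, s' v = s v := fun v hv => if_pos hv
    have e2 : ∀ v, v ∉ comp G x → s' v = fl X z v := fun v hv => if_neg hv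
    refine ⟨s', e2, fun v hv => ?_, e1⟩
    refine Stab.mono (comp_not_inf hx hv) (hs2 v hv) fun w hw hne => ?_
    rw [e1 v hv]
    by_cases hwC : w ∈ comp G x
    · rw [e1 w hwC]; exact hne
    · rw [e2 w hwC]
      rcases comp_adj hv hw with h1 | h1
      · exact absurd h1 hwC
      · by_cases hwX : w ∈ X
        · exfalso
          refine hX w hwX h1 ⟨s, hs1, hs2, v, hv, hw.symm, fun hsv => hne ?_⟩
          rw [hs1 w hwC, hsv]
        · rw [fl_not hwX, ← hs1 w hwC]; exact hne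
  by_cases hjX : j ∈ X
  · obtain ⟨s, hs1, hs2⟩ := exists_stable hx z
    obtain ⟨s', h1, h2, h3⟩ := key s hs1 hs2
    obtain ⟨hjI, y, hy, hyj⟩ := hj
    refine ⟨s', h1, h2, y, hy, hyj.symm, ?_⟩
    rw [h3 y hy, fl_mem hjX]
    have : s y = z j := by
      by_contra hne
      exact hX j hjX ⟨hjI, y, hy, hyj⟩ ⟨s, hs1, hs2, y, hy, hyj.symm, hne⟩
    rw [this]; cases z j <;> simp
  · obtain ⟨s, hs1, hs2, y, hy, hjy, hsy⟩ := h.resolve_left hjX
    obtain ⟨s', h1, h2, h3⟩ := key s hs1 hs2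
    refine ⟨s', h1, h2, y, hy, hjy, ?_⟩
    rw [h3 y hy, fl_not hjX]; exact hsy

/-! ### The selection problem -/

section

variable (G) (A P : Set V) (X J : V → Set V) (τ : V → Bool)

/-- The kernel of the family of `k`, inside `P`. -/
def kr (k : V) : Set V := {v | v ∈ P ∧ {x | x ∈ X k ∧ v ∈ bd G x}.Infinite}

/-- The union of the kernels. -/
def BB : Set V := {i | ∃ k, k ∈ A ∧ k ∈ P ∧ i ∈ kr G P X k}

/-- The gadgets used for `i`. -/
def XX (i : V) : Set V := {x | ∃ k, k ∈ A ∧ k ∈ P ∧ i ∈ kr G P X k ∧ x ∈ X k ∧ i ∈ bd G x}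

/-- The selection problem. -/
noncomputable def sy : Sys V V where
  P := P
  B := BB G A P X
  τ := τ
  lam := fun i => if i ∈ BB G A P X then {j | j ∈ P ∧ {x | x ∈ XX G A P X i ∧ j ∈ bd G x}.Infinite}
    else {i}
  tk := fun i z => if i ∈ BB G A P X then {x | x ∈ XX G A P X i ∧ Srv G z (comp G x) i} else
    {y | (y ∈ J i ∧ z y ≠ z i) ∨ (y ∈ X i ∧ Srv G z (comp G y) i)}

end

variable {A P : Set V} {X J : V → Set V} {τ : V → Bool}

lemma sy_ok (hPI : ∀ v ∈ P, Inf G v)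
    (hXg : ∀ u ∈ P, ∀ x ∈ X u, G.Adj u x ∧ ¬ Inf G x ∧ (comp G x).Finite)
    (hX : ∀ u ∈ A, (X u).Infinite ∧ (kr G P X u).Finite)
    (hH : ∀ v ∈ P, {u | u ∈ A ∧ u ∈ P ∧ v ∈ kr G P X u}.Finite)
    (hN : ∀ u ∈ P, u ∉ A → (J u).Infinite ∨ ∀ E : Set V, E.Finite → E ⊆ P →
      {x | x ∈ X u ∧ ∀ a ∈ comp G x, Few G (E \ {u}) a}.Infinite) :
    (sy G A P X J τ).Ok := by
  have hkk : ∀ k ∈ A, k ∈ P → k ∈ kr G P X k := by
    intro k hk hkP
    refine ⟨hkP, (hX k hk).1.mono fun x hx => ⟨hx, hPI k hkP, x, mem_comp_self x, ?_⟩⟩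
    exact (hXg k hkP x hx).1.symm
  have hin : ∀ v ∈ P, {k | k ∈ A ∧ k ∈ P ∧ v ∈ kr G P X k}.Finite := hH
  have hXX : ∀ i x, x ∈ XX G A P X i → ¬ Inf G x ∧ (comp G x).Finite ∧ i ∈ bd G x := by
    rintro i x ⟨k, hk, hkP, hik, hxk, hix⟩
    exact ⟨(hXg k hkP x hxk).2.1, (hXg k hkP x hxk).2.2, hix⟩
  have hBP : BB G A P X ⊆ P := by
    rintro i ⟨k, _, _, hik⟩; exact hik.1
  -- links
  have hlink : ∀ i ∈ BB G A P X, ∀ j, {x | x ∈ XX G A P X i ∧ j ∈ bd G x}.Infinite → j ∈ P →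
      ∃ k, k ∈ A ∧ k ∈ P ∧ i ∈ kr G P X k ∧ j ∈ kr G P X k := by
    intro i hi j hj hjP
    by_contra hcon
    push Not at hcon
    apply hj
    have hfin : (⋃ k ∈ {k | k ∈ A ∧ k ∈ P ∧ i ∈ kr G P X k}, {x | x ∈ X k ∧ j ∈ bd G x}).Finite := by
      refine (hin i (hBP hi)).biUnion fun k hk => ?_
      by_contra hinf
      exact hcon k hk.1 hk.2.1 hk.2.2 ⟨hjP, hinf⟩
    refine hfin.subset ?_
    rintro x ⟨⟨k, hk, hkP, hik, hxk, hix⟩, hjx⟩
    exact Set.mem_biUnion (show k ∈ {k | k ∈ A ∧ k ∈ P ∧ i ∈ kr G P X k} from ⟨hk, hkP, hik⟩)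
      ⟨hxk, hjx⟩
  have lB : ∀ i ∈ BB G A P X, (sy G A P X J τ).lam i =
      {j | j ∈ P ∧ {x | x ∈ XX G A P X i ∧ j ∈ bd G x}.Infinite} := fun i hi => if_pos hi
  have lN : ∀ i, i ∉ BB G A P X → (sy G A P X J τ).lam i = {i} := fun i hi => if_neg hi
  have tB : ∀ i ∈ BB G A P X, ∀ z, (sy G A P X J τ).tk i z =
      {x | x ∈ XX G A P X i ∧ Srv G z (comp G x) i} := fun i hi z => if_pos hi
  have tN : ∀ i, i ∉ BB G A P X → ∀ z, (sy G A P X J τ).tk i z =
      {y | (y ∈ J i ∧ z y ≠ z i) ∨ (y ∈ X i ∧ Srv G z (comp G y) i)} := fun i hi z => if_neg hi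
  have hXXi : ∀ i ∈ BB G A P X, (XX G A P X i).Infinite := by
    rintro i ⟨k, hk, hkP, hik⟩
    exact hik.2.mono fun x hx => ⟨k, hk, hkP, hik, hx.1, hx.2⟩
  have hself : ∀ i ∈ BB G A P X, i ∈ (sy G A P X J τ).lam i := by
    intro i hi
    rw [lB i hi]
    exact ⟨hBP hi, (hXXi i hi).mono fun x hx => ⟨hx, (hXX i x hx).2.2⟩⟩
  -- almost all gadgets of `j` which contain `i` are gadgets of `i`
  have halm : ∀ i ∈ BB G A P X, ∀ j ∈ BB G A P X, {x | x ∈ XX G A P X j ∧ i ∈ bd G x ∧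
      x ∉ XX G A P X i}.Finite := by
    intro i hi j hj
    have hfin : (⋃ k ∈ {k | k ∈ A ∧ k ∈ P ∧ j ∈ kr G P X k},
        {x | x ∈ X k ∧ i ∈ bd G x ∧ x ∉ XX G A P X i}).Finite := by
      refine (hin j (hBP hj)).biUnion fun k hk => ?_
      by_contra hinf
      have hik : i ∈ kr G P X k := ⟨hBP hi, Set.Infinite.mono (fun x hx => ⟨hx.1, hx.2.1⟩) hinf⟩
      obtain ⟨x, hx⟩ := Set.Infinite.nonempty hinf
      exact hx.2.2 ⟨k, hk.1, hk.2.1, hik, hx.1, hx.2.1⟩
    refine hfin.subset ?_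
    rintro x ⟨⟨k, hk, hkP, hjk, hxk, hjx⟩, hix, hn⟩
    exact Set.mem_biUnion (show k ∈ {k | k ∈ A ∧ k ∈ P ∧ j ∈ kr G P X k} from ⟨hk, hkP, hjk⟩)
      ⟨hxk, hix, hn⟩
  -- few gadgets of `i` contain a given petal outside `lam i`
  have hout : ∀ i ∈ BB G A P X, ∀ v ∈ P, v ∉ (sy G A P X J τ).lam i →
      {x | x ∈ XX G A P X i ∧ v ∈ bd G x}.Finite := by
    intro i hi v hv hvl
    rw [lB i hi] at hvl
    by_contra hinf
    exact hvl ⟨hv, hinf⟩
  have hlf : ∀ i ∈ BB G A P X, ((sy G A P X J τ).lam i).Finite := by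
    intro i hi
    have hfin : (⋃ k ∈ {k | k ∈ A ∧ k ∈ P ∧ i ∈ kr G P X k}, kr G P X k).Finite :=
      (hin i (hBP hi)).biUnion fun k hk => (hX k hk.1).2
    refine hfin.subset fun j hj => ?_
    rw [lB i hi] at hj
    obtain ⟨k, h1, h2, h3, h4⟩ := hlink i hi j hj.2 hj.1
    exact Set.mem_biUnion (show k ∈ {k | k ∈ A ∧ k ∈ P ∧ i ∈ kr G P X k} from ⟨h1, h2, h3⟩) h4
  refine ⟨hBP, ?_, ?_, ?_, ?_, ?_, ?_, ?_, ?_, ?_⟩
  · intro i hi
    by_cases hB : i ∈ BB G A P X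
    · exact hself i hB
    · rw [lN i hB]; exact Set.mem_singleton i
  · intro i hi
    by_cases hB : i ∈ BB G A P X
    · exact hlf i hB
    · rw [lN i hB]; exact Set.finite_singleton i
  · intro j
    have hfin : ({j} ∪ ⋃ k ∈ {k | k ∈ A ∧ k ∈ P ∧ j ∈ kr G P X k}, kr G P X k).Finite := by
      by_cases hjP : j ∈ P
      · exact (Set.finite_singleton j).union
          ((hin j hjP).biUnion fun k hk => (hX k hk.1).2)
      · refine (Set.finite_singleton j).union (Set.Finite.biUnion ?_ fun k hk =>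
          (hX k hk.1).2)
        convert Set.finite_empty
        rw [Set.eq_empty_iff_forall_notMem]
        rintro k ⟨_, _, hk⟩
        exact hjP hk.1
    refine hfin.subset ?_
    rintro i ⟨hi, hji⟩
    by_cases hB : i ∈ BB G A P X
    · rw [lB i hB] at hji
      obtain ⟨k, h1, h2, h3, h4⟩ := hlink i hB j hji.2 hji.1
      exact Or.inr (Set.mem_biUnion (show k ∈ {k | k ∈ A ∧ k ∈ P ∧ j ∈ kr G P X k} from
        ⟨h1, h2, h4⟩) h3)
    · rw [lN i hB, Set.mem_singleton_iff] at hji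
      rw [hji]; exact Or.inl rfl
  · intro i hi j hj
    rw [lB i hi] at hj
    obtain ⟨k, h1, h2, h3, h4⟩ := hlink i hi j hj.2 hj.1
    exact ⟨k, h1, h2, h4⟩
  · intro i hi hB
    exact lN i hB
  · intro i hi t
    by_cases hB : i ∈ BB G A P X
    · by_cases ht : t ∈ XX G A P X i
      · have h3 := hXX i t ht
        refine ⟨bd G t, bd_finite h3.1 h3.2.1, fun z z' hz hs => ?_⟩
        rw [tB i hB] at hs ⊢
        exact ⟨ht, srv_congr h3.2.2 hz hs.2⟩
      · refine ⟨∅, Set.finite_empty, fun z z' hz hs => ?_⟩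
        rw [tB i hB] at hs
        exact absurd hs.1 ht
    · by_cases ht : t ∈ X i
      · have h3 := hXg i hi t ht
        have hib : i ∈ bd G t := ⟨hPI i hi, t, mem_comp_self t, h3.1.symm⟩
        refine ⟨insert t (insert i (bd G t)), ((bd_finite h3.2.1 h3.2.2).insert i).insert t,
          fun z z' hz hs => ?_⟩
        rw [tN i hB] at hs ⊢
        rcases hs with h1 | h1
        · left
          rw [← hz t (by simp), ← hz i (by simp)]; exact h1
        · right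
          exact ⟨ht, srv_congr hib (fun v hv => hz v (by simp [hv])) h1.2⟩
      · refine ⟨{i, t}, by simp, fun z z' hz hs => ?_⟩
        rw [tN i hB] at hs ⊢
        rcases hs with h1 | h1
        · left
          rw [← hz t (by simp), ← hz i (by simp)]; exact h1
        · exact absurd h1.1 ht
  · intro i hi z hz z' hz' hf w hs
    unfold Sys.Sv at hs ⊢
    rw [tB i hi] at hs ⊢
    have hbad : (⋃ v ∈ {v | v ∈ P ∧ z v ≠ z' v ∧ v ∉ (sy G A P X J τ).lam i},
        {x | x ∈ XX G A P X i ∧ v ∈ bd G x}).Finite :=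
      (hf.subset fun v hv => hv.2.1).biUnion fun v hv => hout i hi v hv.1 hv.2.2
    refine (hs.sdiff hbad).mono ?_
    rintro x ⟨⟨hx1, hx2⟩, hx3⟩
    refine ⟨hx1, srv_congr (hXX i x hx1).2.2 (fun v hv => ?_) hx2⟩
    by_cases hvl : v ∈ (sy G A P X J τ).lam i
    · rw [gl_mem hvl, gl_mem hvl]
    · rw [gl_not hvl, gl_not hvl]
      by_cases hvP : v ∈ P
      · by_contra hne
        exact hx3 (Set.mem_biUnion (show v ∈ {v | v ∈ P ∧ z v ≠ z' v ∧ v ∉ (sy G A P X J τ).lam i}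
          from ⟨hvP, hne, hvl⟩) ⟨hx1, hv⟩)
      · rw [hz v hvP, hz' v hvP]
  · intro z hz w Y hYf hY j hj hjY
    have hjlam := hself j hj
    have hlj := hlf j hj
    unfold Sys.Sv
    rw [tB j hj]
    set a' : V → Bool := gl ((sy G A P X J τ).lam j) w z with ha'
    -- the flipped point
    have efl : gl ((sy G A P X J τ).lam j) (fl Y w) z = fl (Y ∩ (sy G A P X J τ).lam j) a' := by
      funext v
      by_cases hvl : v ∈ (sy G A P X J τ).lam j
      · by_cases hvY : v ∈ Y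
        · rw [gl_mem hvl, fl_mem hvY, fl_mem (show v ∈ Y ∩ (sy G A P X J τ).lam j from ⟨hvY, hvl⟩),
            ha', gl_mem hvl]
        · rw [gl_mem hvl, fl_not hvY, fl_not (fun h : v ∈ Y ∩ (sy G A P X J τ).lam j => hvY h.1),
            ha', gl_mem hvl]
      · rw [gl_not hvl, fl_not (fun h : v ∈ Y ∩ (sy G A P X J τ).lam j => hvl h.2), ha', gl_not hvl]
    -- the exceptional gadgets
    have hb1 : (⋃ i ∈ Y, {x | x ∈ XX G A P X j ∧ i ∈ bd G x ∧ x ∉ XX G A P X i}).Finite :=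
      hYf.biUnion fun i hi => halm i (hY i hi).1 j hj
    have hb2 : (⋃ i ∈ Y, {x | x ∈ XX G A P X i ∧ Srv G (gl ((sy G A P X J τ).lam i) w z)
        (comp G x) i}).Finite := by
      refine hYf.biUnion fun i hi => ?_
      have h := (hY i hi).2
      unfold Sys.Sv at h
      rw [tB i (hY i hi).1] at h
      exact Set.not_infinite.1 h
    have hb3 : (⋃ i ∈ Y, ⋃ v ∈ {v | v ∈ (sy G A P X J τ).lam j ∧ v ∉ (sy G A P X J τ).lam i},
        {x | x ∈ XX G A P X i ∧ v ∈ bd G x}).Finite := by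
      refine hYf.biUnion fun i hi => (hlj.subset fun v hv => hv.1).biUnion fun v hv => ?_
      refine hout i (hY i hi).1 v ?_ hv.2
      have := hv.1
      rw [lB j hj] at this
      exact this.1
    have hb4 : (⋃ i ∈ Y, ⋃ v ∈ {v | v ∈ (sy G A P X J τ).lam i ∧ v ∉ (sy G A P X J τ).lam j},
        {x | x ∈ XX G A P X j ∧ v ∈ bd G x}).Finite := by
      refine hYf.biUnion fun i hi => ((hlf i (hY i hi).1).subset fun v hv => hv.1).biUnion
        fun v hv => ?_
      refine hout j hj v ?_ hv.2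
      have := hv.1
      rw [lB i (hY i hi).1] at this
      exact this.1
    set bad := ((⋃ i ∈ Y, {x | x ∈ XX G A P X j ∧ i ∈ bd G x ∧ x ∉ XX G A P X i}) ∪
      (⋃ i ∈ Y, {x | x ∈ XX G A P X i ∧ Srv G (gl ((sy G A P X J τ).lam i) w z) (comp G x) i})) ∪
      ((⋃ i ∈ Y, ⋃ v ∈ {v | v ∈ (sy G A P X J τ).lam j ∧ v ∉ (sy G A P X J τ).lam i},
        {x | x ∈ XX G A P X i ∧ v ∈ bd G x}) ∪
      (⋃ i ∈ Y, ⋃ v ∈ {v | v ∈ (sy G A P X J τ).lam i ∧ v ∉ (sy G A P X J τ).lam j},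
        {x | x ∈ XX G A P X j ∧ v ∈ bd G x})) with hbad
    have hbadf : bad.Finite := (hb1.union hb2).union (hb3.union hb4)
    -- the dead petals are not served by the other gadgets of `j`
    have hdead : ∀ x ∈ XX G A P X j, x ∉ bad → ∀ i ∈ Y, i ∈ bd G x → ¬ Srv G a' (comp G x) i := by
      intro x hx hxb i hi hix hs
      simp only [hbad, Set.mem_union, not_or] at hxb
      obtain ⟨⟨n1, n2⟩, n3, n4⟩ := hxb
      have hxi : x ∈ XX G A P X i := by
        by_contra hn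
        exact n1 (Set.mem_biUnion hi ⟨hx, hix, hn⟩)
      refine n2 (Set.mem_biUnion hi ⟨hxi, srv_congr hix (fun v hv => ?_) hs⟩)
      by_cases h1 : v ∈ (sy G A P X J τ).lam j
      · by_cases h2 : v ∈ (sy G A P X J τ).lam i
        · rw [ha', gl_mem h1, gl_mem h2]
        · refine absurd ?_ n3
          refine Set.mem_biUnion hi (Set.mem_biUnion (show v ∈ {v | v ∈
            (sy G A P X J τ).lam j ∧ v ∉ (sy G A P X J τ).lam i} from ⟨h1, h2⟩) ?_)
          exact ⟨hxi, hv⟩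
      · by_cases h2 : v ∈ (sy G A P X J τ).lam i
        · refine absurd ?_ n4
          refine Set.mem_biUnion hi (Set.mem_biUnion (show v ∈ {v | v ∈
            (sy G A P X J τ).lam i ∧ v ∉ (sy G A P X J τ).lam j} from ⟨h2, h1⟩) ?_)
          exact ⟨hx, hv⟩
        · rw [ha', gl_not h1, gl_not h2]
    rw [efl]
    by_cases hjY' : j ∈ Y
    · refine ((hXXi j hj).sdiff hbadf).mono ?_
      rintro x ⟨hx, hxb⟩
      exact ⟨hx, srv_fl (hXX j x hx).1 (fun i hi hix => hdead x hx hxb i hi.1 hix) (hXX j x hx).2.2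
        (Or.inl ⟨hjY', hjlam⟩)⟩
    · have hs := hjY.resolve_left hjY'
      unfold Sys.Sv at hs
      rw [tB j hj] at hs
      refine (hs.sdiff hbadf).mono ?_
      rintro x ⟨⟨hx, hxs⟩, hxb⟩
      exact ⟨hx, srv_fl (hXX j x hx).1 (fun i hi hix => hdead x hx hxb i hi.1 hix) (hXX j x hx).2.2
        (Or.inr hxs)⟩
  · intro u hu huB E hE
    have huA : u ∉ A := fun huA => huB ⟨u, huA, hu, hkk u huA hu⟩
    have huI := hPI u hu
    rcases hN u hu huA with h1 | h1
    · refine ⟨J u \ E, h1.sdiff hE, ?_⟩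
      rintro z hz z' hz' hne hE' y ⟨hyJ, hyE⟩
      rw [tN u huB, tN u huB]
      have e := hE' y hyE
      by_cases h2 : z y ≠ z u
      · exact Or.inl (Or.inl ⟨hyJ, h2⟩)
      · push Not at h2
        refine Or.inr (Or.inl ⟨hyJ, ?_⟩)
        rw [← e, h2]; exact hne
    · refine ⟨_, h1 {v | v ∈ E ∧ v ∈ P} (hE.subset fun v hv => hv.1) (fun v hv => hv.2), ?_⟩
      rintro z hz z' hz' hne hE' x ⟨hxX, hfew⟩
      obtain ⟨hux, hx, hf⟩ := hXg u hu x hxX
      rw [tN u huB, tN u huB]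
      refine (lemma_P hx hf huI hux (z1 := z) (z2 := z') hne {b | b ≠ u ∧ z b ≠ z' b}
        (fun b => Iff.rfl) (fun a ha => ?_)).imp (fun h2 => Or.inr ⟨hxX, h2⟩)
        (fun h2 => Or.inr ⟨hxX, h2⟩)
      · refine (hfew a ha).ncard (comp_not_inf hx ha) (fun b hab hb => ?_) fun b hb => hb.1
        obtain ⟨-, hbC, hbu, hbne⟩ := hb
        refine ⟨⟨?_, ?_⟩, hbu⟩
        · by_contra hbE
          exact hbne (hE' b hbE)
        · by_contra hbP
          exact hbne ((hz b hbP).trans (hz' b hbP).symm)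

end UnfT
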