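import Pool.Agent.Work.MP_1aab6d_co_h84.Robust

set_option autoImplicit false

namespace UnfT

open Finset Classical

variable {V : Type*} {G : SimpleGraph V}

lemma Nice.good_or {u : V} (hu : Inf G u) (h : Nice G u) : Good G u ∨ RobU G u := by
  rcases h with ⟨W, hW, hX⟩ | h
  · refine Or.inl (Or.inl ⟨W, hW, hX.mono ?_⟩)
    rintro x ⟨hux, hx | hx⟩
    · exact ⟨hux, Or.inl hx⟩
    · exact ⟨hux, Or.inr (Or.inl hx)⟩
  · refine Or.inr fun E₀ hE₀ hI => ?_
    obtain ⟨E, h1, h2, h3, h4⟩ := h (insert u E₀) (hE₀.insert u) (fun v hv => by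
      rcases hv with rfl | hv
      · exact hu
      · exact hI v hv)
    refine ⟨E, (Set.subset_insert _ _).trans h1, h2, h3, h4.mono ?_⟩
    rintro x ⟨hux, hx, hf, hF⟩
    have huE : u ∈ E := h1 (Set.mem_insert _ _)
    refine ⟨hux, hx, hf, ?_⟩
    rcases hF with hF | hF
    · exact rob_thin hx hf hu hux huE hF
    · exact rob_free hx hf hu hux huE hF

/-- **Main theorem.** -/
theorem unfriendly_of_nice [Countable V] (G : SimpleGraph V)
    (h : {u | Inf G u ∧ ¬ Nice G u}.Finite) : ∃ c : V → Bool, Unfriendly G c :=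
  unfriendly_of_rob G (h.subset fun _ hu => ⟨hu.1, fun hn => hu.2 (Nice.good_or hu.1 hn)⟩)

/-! ### `Good` vertices are `Nice` -/

lemma fine_of_small {E : Set V} {u x : V} (hu : Inf G u) (huE : u ∈ E) (hEI : ∀ v ∈ E, Inf G v)
    (hux : G.Adj u x) (hx : Small G x) : Fine G E u x := by
  refine ⟨hx.1, hx.2.1, ?_⟩
  have hub : u ∈ bd G x := ⟨hu, x, mem_comp_self x, hux.symm⟩
  have hfin : (bd G x).Finite := bd_finite hx.1 hx.2.1
  have h3 : (bd G x \ {u}).encard ≤ 2 := by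
    have h := Set.encard_sdiff_singleton_add_one hub
    have h4 : (bd G x \ {u}).encard + 1 ≤ 2 + 1 := by
      rw [h]; exact hx.2.2
    exact (ENat.add_le_add_iff_right (by simp : (1 : ℕ∞) ≠ ⊤)).1 h4
  by_cases hE : bd G x ⊆ E
  · right
    intro a ha
    left
    have : {b | G.Adj a b ∧ b ∈ {b | Inf G b ∧ b ∉ E}} = ∅ := by
      rw [Set.eq_empty_iff_forall_notMem]
      rintro b ⟨hab, hbI, hbE⟩
      exact hbE (hE ⟨hbI, a, ha, hab⟩)
    rw [this]; simp
  · left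
    obtain ⟨w, hw, hwE⟩ := Set.not_subset.1 hE
    have hwu : w ≠ u := fun h => hwE (h ▸ huE)
    intro a ha
    left
    have hsub : {b | G.Adj a b ∧ b ∈ {b | Inf G b ∧ b ∈ E ∧ b ≠ u}} ⊆ (bd G x \ {u}) \ {w} := by
      rintro b ⟨hab, hbI, hbE, hbu⟩
      exact ⟨⟨⟨hbI, a, ha, hab⟩, hbu⟩, fun h => hwE (Set.mem_singleton_iff.1 h ▸ hbE)⟩
    have hcard : ((bd G x \ {u}) \ {w}).encard ≤ 1 := by
      have h := Set.encard_sdiff_singleton_add_one (show w ∈ bd G x \ {u} from ⟨hw, hwu⟩)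
      have h4 : ((bd G x \ {u}) \ {w}).encard + 1 ≤ 1 + 1 := by
        rw [h]; exact h3.trans (by norm_num)
      exact (ENat.add_le_add_iff_right (by simp : (1 : ℕ∞) ≠ ⊤)).1 h4
    refine (Set.encard_le_encard ?_).trans hcard
    rintro b ⟨hab, hbE, hbu⟩
    exact hsub ⟨hab, hEI b hbE, hbE, hbu⟩

/-- The condition `Nice` is weaker than `Good`. -/
theorem nice_of_good {u : V} (hu : Inf G u) (h : Good G u) : Nice G u := by
  rcases h with ⟨W, hW, hX⟩ | ⟨X, hXN, hX, hXf, hXv⟩ | ⟨X, hXN, hX, hXf, hXb⟩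
  · by_cases h1 : {x | G.Adj u x ∧ (Inf G x ∨ Tame G W x)}.Infinite
    · exact Or.inl ⟨W, hW, h1⟩
    right
    intro E₀ hE₀ hI
    have hEI : ∀ v ∈ insert u E₀, Inf G v := fun v hv => by
      rcases hv with rfl | hv
      · exact hu
      · exact hI v hv
    refine ⟨insert u E₀, Set.subset_insert _ _, hE₀.insert u, hEI, fun h2 => ?_⟩
    refine hX (((Set.not_infinite.1 h1).union h2).subset ?_)
    rintro x ⟨hux, hx | hx | hx⟩
    · exact Or.inl ⟨hux, Or.inl hx⟩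
    · exact Or.inl ⟨hux, Or.inr hx⟩
    · exact Or.inr ⟨hux, fine_of_small hu (Set.mem_insert _ _) hEI hux hx⟩
  · right
    intro E₀ hE₀ hI
    refine ⟨insert u E₀, Set.subset_insert _ _, hE₀.insert u, fun v hv => ?_, ?_⟩
    · rcases hv with rfl | hv
      · exact hu
      · exact hI v hv
    have hbad : (⋃ v ∈ {v | v ∈ E₀ ∧ v ≠ u}, {x | x ∈ X ∧ v ∈ bd G x}).Finite :=
      (hE₀.subset fun v hv => hv.1).biUnion fun v hv => hXv v hv.2
    refine (hX.sdiff hbad).mono ?_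
    rintro x ⟨hxX, hxn⟩
    refine ⟨hXN hxX, (hXf x hxX).1, (hXf x hxX).2, Or.inl fun a ha => Or.inl ?_⟩
    have : {b | G.Adj a b ∧ b ∈ insert u E₀ \ {u}} = ∅ := by
      rw [Set.eq_empty_iff_forall_notMem]
      rintro b ⟨hab, hbE, hbu⟩
      have hbE' : b ∈ E₀ := by
        rcases hbE with rfl | hbE
        · exact absurd rfl hbu
        · exact hbE
      exact hxn (Set.mem_biUnion (show b ∈ {v | v ∈ E₀ ∧ v ≠ u} from ⟨hbE', hbu⟩)
        ⟨hxX, hI b hbE', a, ha, hab⟩)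
    rw [this]; simp
  · right
    intro E₀ hE₀ hI
    refine ⟨E₀ ∪ ⋃ x ∈ X, bd G x, Set.subset_union_left, hE₀.union hXb, fun v hv => ?_, ?_⟩
    · rcases hv with hv | hv
      · exact hI v hv
      · simp only [Set.mem_iUnion] at hv
        obtain ⟨x, _, hv⟩ := hv
        exact hv.1
    refine hX.mono fun x hx => ⟨hXN hx, (hXf x hx).1, (hXf x hx).2, Or.inr fun a ha => Or.inl ?_⟩
    have : {b | G.Adj a b ∧ b ∈ {b | Inf G b ∧ b ∉ E₀ ∪ ⋃ x ∈ X, bd G x}} = ∅ := by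
      rw [Set.eq_empty_iff_forall_notMem]
      rintro b ⟨hab, hbI, hbE⟩
      exact hbE (Or.inr (Set.mem_biUnion hx ⟨hbI, a, ha, hab⟩))
    rw [this]; simp

end UnfT
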