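import Pool.Agent.Work.MP_1aab6d_co_h84.Total

set_option autoImplicit false

namespace UnfT

open Finset Classical

variable {V : Type*} {G : SimpleGraph V}

/-! ### Components -/

lemma reach_aux {W : Set V} {x a : V} (hx : ¬ Inf G x) (hxW : x ∉ W) (h : Reach G W x a) :
    (¬ Inf G a ∧ a ∉ W) ∧ Reach G W a x := by
  unfold Reach at h
  induction h with
  | refl => exact ⟨⟨hx, hxW⟩, Relation.ReflTransGen.refl⟩
  | tail hb hbc ih => exact ⟨hbc.2, Relation.ReflTransGen.head ⟨hbc.1.symm, ih.1⟩ ih.2⟩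

lemma reach_set_eq {W : Set V} {x a : V} (hx : ¬ Inf G x) (hxW : x ∉ W) (h : Reach G W x a) :
    {b | Reach G W a b} = {b | Reach G W x b} := by
  ext b
  exact ⟨fun h' => Relation.ReflTransGen.trans h h',
    fun h' => Relation.ReflTransGen.trans (reach_aux hx hxW h).2 h'⟩

lemma mem_comp_self (x : V) : x ∈ comp G x := Relation.ReflTransGen.refl

lemma comp_not_inf {x a : V} (hx : ¬ Inf G x) (h : a ∈ comp G x) : ¬ Inf G a :=
  (reach_aux hx (Set.notMem_empty _) h).1.1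

lemma comp_symm {x a : V} (hx : ¬ Inf G x) (h : a ∈ comp G x) : x ∈ comp G a :=
  (reach_aux hx (Set.notMem_empty _) h).2

lemma comp_eq {x a : V} (hx : ¬ Inf G x) (h : a ∈ comp G x) : comp G a = comp G x :=
  reach_set_eq hx (Set.notMem_empty _) h

lemma bd_eq {x a : V} (hx : ¬ Inf G x) (h : a ∈ comp G x) : bd G a = bd G x := by
  unfold bd; rw [comp_eq hx h]

lemma Small.of_mem {x a : V} (hx : Small G x) (h : a ∈ comp G x) : Small G a := by
  refine ⟨comp_not_inf hx.1 h, ?_, ?_⟩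
  · rw [comp_eq hx.1 h]; exact hx.2.1
  · rw [bd_eq hx.1 h]; exact hx.2.2

lemma comp_adj {x a b : V} (ha : a ∈ comp G x) (hab : G.Adj a b) :
    b ∈ comp G x ∨ b ∈ bd G x := by
  by_cases hb : Inf G b
  · exact Or.inr ⟨hb, a, ha, hab⟩
  · exact Or.inl (Relation.ReflTransGen.tail ha ⟨hab, hb, Set.notMem_empty _⟩)

lemma bd_finite {x : V} (hx : ¬ Inf G x) (h : (comp G x).Finite) : (bd G x).Finite := by
  have : (⋃ a ∈ comp G x, G.neighborSet a).Finite :=
    h.biUnion fun a ha => Set.not_infinite.1 (comp_not_inf hx ha)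
  refine this.subset ?_
  rintro v ⟨-, a, ha, hav⟩
  exact Set.mem_biUnion ha hav

lemma finite_hit {A : Set V} (hA : A.Finite) :
    {x | ¬ Inf G x ∧ (comp G x).Finite ∧ ∃ z ∈ A, z ∈ comp G x}.Finite := by
  have : (⋃ z ∈ A ∩ {z | (comp G z).Finite}, comp G z).Finite :=
    (hA.inter_of_left _).biUnion fun z hz => hz.2
  refine this.subset ?_
  rintro x ⟨hx, hf, z, hz, hzx⟩
  refine Set.mem_biUnion ⟨hz, ?_⟩ (comp_symm hx hzx)
  rw [Set.mem_ofPred_eq, comp_eq hx hzx]; exact hf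

/-! ### Secured pairs -/

variable (G)

/-- `y` has, or can be given by a stable recolouring of its finite component, a colour which is not
that of `u`. -/
def PG (c : V → Bool) (u y : V) : Prop :=
  c y ≠ c u ∨ (¬ Inf G y ∧ (comp G y).Finite ∧ ∃ s : V → Bool,
    (∀ v, v ∉ comp G y → s v = c v) ∧ (∀ v ∈ comp G y, Stab G s v) ∧ s y ≠ c u)

/-- `u` is potentially happy. -/
def PH (c : V → Bool) (u : V) : Prop := {y | G.Adj u y ∧ PG G c u y}.Infinite

variable {G} in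
lemma Happy.ph {c : V → Bool} {u : V} (h : Happy G c u) : PH G c u :=
  Set.Infinite.mono (fun _ hy => ⟨hy.1, Or.inl hy.2⟩) h

/-- `(S, τ)` is secured. -/
def Sec (S : Set V) (τ : V → Bool) : Prop :=
  FS G S τ ∧ (∀ c, TM G c → (∀ v ∈ S, c v = τ v) → ∀ v ∈ S, Inf G v → PH G c v) ∧
    ∀ x ∈ S, Small G x → comp G x ⊆ S

/-- `(S, τ)` is a maximal secured pair. -/
def Mx (S : Set V) (τ : V → Bool) : Prop :=
  Sec G S τ ∧ ∀ S' τ', Sec G S' τ' → S ⊆ S' → (∀ v ∈ S, τ' v = τ v) → S' ⊆ S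

variable {G}

lemma FS.of_local {R : Set V} {ρ : V → Bool}
    (h : ∀ Q : Finset V, (∀ x ∈ Q, x ∈ R ∧ ¬ Inf G x) →
      ∃ R' ρ', FS G R' ρ' ∧ R' ⊆ R ∧ (∀ v ∈ R', ρ v = ρ' v) ∧ ∀ x ∈ Q, x ∈ R') : FS G R ρ := by
  intro Q hQ
  obtain ⟨R', ρ', h1, h2, h3, h4⟩ := h Q hQ
  exact (h1 Q fun x hx => ⟨h4 x hx, (hQ x hx).2⟩).trans (en_eps_mono h2 h3 h4)

theorem exists_Mx : ∃ S τ, Mx G S τ := by
  let α := {p : Set V × (V → Bool) // Sec G p.1 p.2}
  let r : α → α → Prop := fun p q => p.1.1 ⊆ q.1.1 ∧ ∀ v ∈ p.1.1, q.1.2 v = p.1.2 v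
  have hz : ∃ m : α, ∀ a, r m a → r a m := by
    refine exists_maximal_of_chains_bounded (r := r) ?_ ?_
    · intro C hC
      rcases C.eq_empty_or_nonempty with rfl | hCne
      · refine ⟨⟨(∅, fun _ => false), ?_, ?_, ?_⟩, by simp⟩
        · intro Q hQ
          have : Q = ∅ := by
            rw [Finset.eq_empty_iff_forall_notMem]
            intro x hx; exact (hQ x hx).1
          rw [this, en_empty]
        · intro c _ _ v hv; exact absurd hv (Set.notMem_empty _)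
        · intro x hx; exact absurd hx (Set.notMem_empty _)
      set S : Set V := ⋃ p ∈ C, p.1.1 with hS
      let τ : V → Bool := fun v => if h : ∃ p ∈ C, v ∈ p.1.1 then h.choose.1.2 v else false
      have hτ : ∀ p ∈ C, ∀ v ∈ p.1.1, τ v = p.1.2 v := by
        intro p hp v hv
        have h : ∃ p ∈ C, v ∈ p.1.1 := ⟨p, hp, hv⟩
        have e : τ v = h.choose.1.2 v := dif_pos h
        rw [e]
        have h1 := h.choose_spec
        by_cases hpq : h.choose = p
        · rw [hpq]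
        · rcases hC h1.1 hp hpq with h2 | h2
          · exact (h2.2 v h1.2).symm
          · exact h2.2 v hv
      have hsub : ∀ p ∈ C, p.1.1 ⊆ S := fun p hp => Set.subset_biUnion_of_mem (u := fun p : α => p.1.1) hp
      have hmem : ∀ v ∈ S, ∃ p ∈ C, v ∈ p.1.1 := fun v hv => by simpa [hS] using hv
      have hfin : ∀ Q : Finset V, (∀ x ∈ Q, x ∈ S) → ∃ p ∈ C, ∀ x ∈ Q, x ∈ p.1.1 := by
        intro Q
        induction Q using Finset.induction_on with
        | empty => intro _; obtain ⟨p, hp⟩ := hCne; exact ⟨p, hp, by simp⟩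
        | insert a Q ha ih =>
          intro h
          obtain ⟨p, hp, hpQ⟩ := ih fun x hx => h x (Finset.mem_insert_of_mem hx)
          obtain ⟨q, hq, hqa⟩ := hmem a (h a (Finset.mem_insert_self _ _))
          have htot : r p q ∨ r q p := by
            by_cases hpq : p = q
            · subst hpq; exact Or.inl ⟨subset_rfl, fun _ _ => rfl⟩
            · exact hC hp hq hpq
          rcases htot with h2 | h2
          · refine ⟨q, hq, fun x hx => ?_⟩
            rcases Finset.mem_insert.1 hx with rfl | hx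
            · exact hqa
            · exact h2.1 (hpQ x hx)
          · refine ⟨p, hp, fun x hx => ?_⟩
            rcases Finset.mem_insert.1 hx with rfl | hx
            · exact h2.1 hqa
            · exact hpQ x hx
      refine ⟨⟨(S, τ), ?_, ?_, ?_⟩, fun p hp => ⟨hsub p hp, hτ p hp⟩⟩
      · refine FS.of_local fun Q hQ => ?_
        obtain ⟨p, hp, hpQ⟩ := hfin Q fun x hx => (hQ x hx).1
        exact ⟨p.1.1, p.1.2, p.2.1, hsub p hp, hτ p hp, hpQ⟩
      · intro c hc he v hv hI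
        obtain ⟨p, hp, hpv⟩ := hmem v hv
        exact p.2.2.1 c hc (fun w hw => (he w (hsub p hp hw)).trans (hτ p hp w hw)) v hpv hI
      · intro x hx hs
        obtain ⟨p, hp, hpx⟩ := hmem x hx
        exact (p.2.2.2 x hpx hs).trans (hsub p hp)
    · intro a b c hab hbc
      exact ⟨hab.1.trans hbc.1, fun v hv => (hbc.2 v (hab.1 hv)).trans (hab.2 v hv)⟩
  obtain ⟨m, hm⟩ := hz
  exact ⟨m.1.1, m.1.2, m.2, fun S' τ' h1 h2 h3 => (hm ⟨(S', τ'), h1⟩ ⟨h2, h3⟩).1⟩

variable {S : Set V} {τ : V → Bool}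

lemma Mx.leP (h : Mx G S τ) {S' : Set V} {τ' : V → Bool} (hS : S ⊆ S')
    (he : ∀ v ∈ S, τ' v = τ v) (hF : FS G S' τ')
    (hH : ∀ c, TM G c → (∀ v ∈ S', c v = τ' v) → ∀ v ∈ S', v ∉ S → Inf G v → PH G c v)
    (hsm : ∀ x ∈ S', x ∉ S → Small G x → comp G x ⊆ S') : S' ⊆ S := by
  refine h.2 S' τ' ⟨hF, ?_, ?_⟩ hS he
  · intro c hc hcS v hv hI
    by_cases hvS : v ∈ S
    · exact h.1.2.1 c hc (fun w hw => (hcS w (hS hw)).trans (he w hw)) v hvS hI
    · exact hH c hc hcS v hv hvS hI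
  · intro x hx hs
    by_cases hxS : x ∈ S
    · exact (h.1.2.2 x hxS hs).trans hS
    · exact hsm x hx hxS hs

lemma Mx.le (h : Mx G S τ) {S' : Set V} {τ' : V → Bool} (hS : S ⊆ S')
    (he : ∀ v ∈ S, τ' v = τ v) (hF : FS G S' τ')
    (hH : ∀ c, TM G c → (∀ v ∈ S', c v = τ' v) → ∀ v ∈ S', v ∉ S → Inf G v → Happy G c v)
    (hsm : ∀ x ∈ S', x ∉ S → Small G x → comp G x ⊆ S') : S' ⊆ S :=
  h.leP hS he hF (fun c hc hcS v hv hvS hvI => (hH c hc hcS v hv hvS hvI).ph) hsm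

/-- A single vertex of infinite degree outside `S` cannot be secured. -/
lemma Mx.single (h : Mx G S τ) {v : V} (hv : Inf G v) (hvS : v ∉ S) (i : Bool) :
    ∃ c, TM G c ∧ (∀ w ∈ S, c w = τ w) ∧ c v = i ∧ ¬ Happy G c v := by
  by_contra hcon
  push Not at hcon
  have hup : ∀ w ∈ S, Function.update τ v i w = τ w := fun w hw => by
    refine Function.update_of_ne ?_ _ _
    rintro rfl
    exact hvS hw
  have := h.le (S' := insert v S) (τ' := Function.update τ v i) (Set.subset_insert _ _) hup ?_ ?_ ?_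
  · exact hvS (this (Set.mem_insert _ _))
  · refine h.1.1.glue (Set.subset_insert _ _) hup ?_
    intro Q hQ
    have : Q = ∅ := by
      rw [Finset.eq_empty_iff_forall_notMem]
      intro x hx
      obtain ⟨ha, hb, hc⟩ := hQ x hx
      rcases ha with rfl | ha
      · exact hc hv
      · exact hb ha
    rw [this, en_empty]
  · intro c hc hcS w hw hwS _
    rcases hw with rfl | hw
    · refine hcon c hc (fun y hy => ?_) ?_
      · rw [hcS y (Set.mem_insert_of_mem _ hy)]; exact hup y hy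
      · rw [hcS w (Set.mem_insert _ _), Function.update_self]
    · exact absurd hw hwS
  · intro x hx hxS hs
    rcases hx with rfl | hx
    · exact absurd hv hs.1
    · exact absurd hx hxS

/-- Lemma A. -/
lemma Mx.finite_adj (h : Mx G S τ) {v : V} (hv : Inf G v) (hvS : v ∉ S) :
    {y | y ∈ S ∧ G.Adj v y}.Finite := by
  by_contra hinf
  have key : ∀ i : Bool, {y | y ∈ S ∧ G.Adj v y ∧ τ y = i}.Finite := by
    intro i
    obtain ⟨c, -, hcS, hcv, hn⟩ := h.single hv hvS (!i)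
    refine (Set.not_infinite.1 hn).subset ?_
    rintro y ⟨hy1, hy2, hy3⟩
    refine ⟨hy2, ?_⟩
    rw [hcS y hy1, hy3, hcv]; simp
  refine hinf (((key true).union (key false)).subset ?_)
  rintro y ⟨hy1, hy2⟩
  cases hy : τ y
  · exact Or.inr ⟨hy1, hy2, hy⟩
  · exact Or.inl ⟨hy1, hy2, hy⟩

/-! ### States -/

variable (G) (S) (τ)

/-- `(R, ρ)` is a state: a strong partial colouring extending `(S, τ)` by finitely many vertices. -/
def St (R : Set V) (ρ : V → Bool) : Prop :=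
  S ⊆ R ∧ (∀ v ∈ S, ρ v = τ v) ∧ (R \ S).Finite ∧ FS G R ρ

/-- The state can be extended so as to give `u` a new neighbour of the other colour. -/
def Serv (R : Set V) (ρ : V → Bool) (u : V) : Prop :=
  ∃ R' ρ', St G S τ R' ρ' ∧ R ⊆ R' ∧ (∀ v ∈ R, ρ' v = ρ v) ∧
    ∃ y, y ∈ R' ∧ y ∉ R ∧ G.Adj u y ∧ ρ' y ≠ ρ u

variable {G} {S} {τ}

lemma St.extend {R : Set V} {ρ : V → Bool} (h : St G S τ R ρ) {R' : Set V} {ρ' : V → Bool}
    (hR : R ⊆ R') (he : ∀ v ∈ R, ρ' v = ρ v) (hf : (R' \ R).Finite)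
    (hn : ∀ Q : Finset V, (∀ x ∈ Q, x ∈ R' ∧ x ∉ R ∧ ¬ Inf G x) → 0 ≤ en G (eps R' ρ') Q) :
    St G S τ R' ρ' := by
  refine ⟨h.1.trans hR, fun v hv => (he v (h.1 hv)).trans (h.2.1 v hv), ?_, h.2.2.2.glue hR he hn⟩
  refine (hf.union h.2.2.1).subset ?_
  rintro x ⟨hx1, hx2⟩
  by_cases hxR : x ∈ R
  · exact Or.inr ⟨hxR, hx2⟩
  · exact Or.inl ⟨hx1, hxR⟩

lemma St.addInf {R : Set V} {ρ : V → Bool} (h : St G S τ R ρ) {A : Set V} (hA : A.Finite)
    (hI : ∀ v ∈ A, Inf G v) {ρ' : V → Bool} (he : ∀ v ∈ R, ρ' v = ρ v) :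
    St G S τ (R ∪ A) ρ' := by
  refine h.extend Set.subset_union_left he (hA.subset ?_) ?_
  · rintro x ⟨hx1 | hx1, hx2⟩
    · exact absurd hx1 hx2
    · exact hx1
  · intro Q hQ
    have : Q = ∅ := by
      rw [Finset.eq_empty_iff_forall_notMem]
      intro x hx
      obtain ⟨ha | ha, hb, hc⟩ := hQ x hx
      · exact hb ha
      · exact hc (hI x ha)
    rw [this, en_empty]

lemma Serv.of_ext {R R1 : Set V} {ρ ρ1 : V → Bool} {u : V} (hR : R ⊆ R1)
    (he : ∀ v ∈ R, ρ1 v = ρ v) (hu : u ∈ R) (h : Serv G S τ R1 ρ1 u) : Serv G S τ R ρ u := by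
  obtain ⟨R', ρ', h1, h2, h3, y, hy1, hy2, hy3, hy4⟩ := h
  refine ⟨R', ρ', h1, hR.trans h2, fun v hv => (h3 v (hR hv)).trans (he v hv), y, hy1,
    fun h => hy2 (hR h), hy3, ?_⟩
  rw [← he u hu]; exact hy4

/-- Almost all neighbours of `u` are outside `R`. -/
lemma St.finite_adj {R : Set V} {ρ : V → Bool} (h : St G S τ R ρ) (hM : Mx G S τ) {u : V}
    (hu : Inf G u) (huS : u ∉ S) : {y | y ∈ R ∧ G.Adj u y}.Finite := by
  refine ((hM.finite_adj hu huS).union h.2.2.1).subset ?_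
  rintro y ⟨hy1, hy2⟩
  by_cases hy : y ∈ S
  · exact Or.inl ⟨hy, hy2⟩
  · exact Or.inr ⟨hy1, hy⟩

end UnfT
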