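import Pool.Agent.Work.MP_1aab6d_co_h84.KerSys

/-!
# Ranked families of gadgets
-/

set_option autoImplicit false

namespace UnfT

open Finset Classical UnfL

variable {V : Type*} {G : SimpleGraph V}

/-- A colouring for which almost all vertices of infinite degree are served yields an unfriendly
partition. -/
theorem unfriendly_of_SH [Countable V] {z : V → Bool}
    (h : {u | Inf G u ∧ ¬ SH G z u}.Finite) : ∃ c : V → Bool, Unfriendly G c := by
  have h0 : FS G {v | Inf G v} z := by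
    intro Q hQ
    have : Q = ∅ := by
      rw [Finset.eq_empty_iff_forall_notMem]
      intro a ha
      exact (hQ a ha).2 (hQ a ha).1
    rw [this, en_empty]
  obtain ⟨c, hcR, hc⟩ := exists_total h0
  obtain ⟨c1, R, hm, hh⟩ := exists_mixed hc
  have hfin : {u | Inf G u ∧ ¬ Happy G c1 u}.Finite :=
    h.subset fun u hu => ⟨hu.1, fun hgu => hu.2 (hh u hu.1 (hgu.ph hu.1 fun v hv => hcR v hv))⟩
  obtain ⟨c', R', hm', hh'⟩ := hm.repair hfin.toFinset.card c1 R (by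
    rw [hfin.encard_eq_coe_toFinset_card])
  exact ⟨c', unfriendly_of_stab (fun v hv => hm'.all_stab hv) hh'⟩

/-! ### Definitions -/

section

variable (G) (r : V → Ordinal.{0}) (T : V → Set V)

/-- The gadgets of `k` serve `i`. -/
def Fs (k i : V) (z : V → Bool) : Prop :=
  {x | x ∈ T k ∧ i ∈ bd G x ∧ Srv G z (comp G x) i}.Infinite

/-- `v` is not served by the gadgets of the vertices of rank less than `ρ`. -/
def LDead (ρ : Ordinal.{0}) (z : V → Bool) (v : V) : Prop :=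
  ∀ k, Hard G k → r k < ρ → ¬ Fs G T k v z

/-- `(S, τ)` is secured relative to the colours of `z` outside `P`. -/
def ScR (P : Set V) (ρ : Ordinal.{0}) (z : V → Bool) (S : Set V) (τ : V → Bool) : Prop :=
  S ⊆ P ∧ ∀ z' : V → Bool, (∀ v, v ∉ P → z' v = z v) → (∀ v ∈ S, z' v = τ v) →
    ∀ u ∈ S, ∃ k, Hard G k ∧ r k = ρ ∧ Fs G T k u z'

end

lemma free_of {u : V} (h : FreeIn G {v | Inf G v} (Nf G u) u) : Free G u := by
  obtain ⟨E, h1, h2, h3, h4⟩ := h
  refine ⟨E, h1, fun v hv => h2 hv, h3, h4.mono ?_⟩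
  rintro x ⟨⟨ha, hb, hc⟩, hd⟩
  exact ⟨ha, hb, hc, fun a haC => (hd a haC).mono fun b hb => ⟨hb.1, hb.2⟩⟩

/-! ### Relatively secured sets -/

theorem exists_ScR (G : SimpleGraph V) (r : V → Ordinal.{0}) (T : V → Set V) (P : Set V)
    (ρ : Ordinal.{0}) (z : V → Bool) : ∃ S τ, ScR G r T P ρ z S τ ∧
    ∀ S' τ', ScR G r T P ρ z S' τ' → S ⊆ S' → (∀ v ∈ S, τ' v = τ v) → S' ⊆ S := by
  let α := {p : Set V × (V → Bool) // ScR G r T P ρ z p.1 p.2}
  let R : α → α → Prop := fun p q => p.1.1 ⊆ q.1.1 ∧ ∀ v ∈ p.1.1, q.1.2 v = p.1.2 v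
  have hz : ∃ m : α, ∀ a, R m a → R a m := by
    refine exists_maximal_of_chains_bounded (r := R) ?_ ?_
    · intro C hC
      rcases C.eq_empty_or_nonempty with rfl | hCne
      · refine ⟨⟨(∅, fun _ => false), ?_, ?_⟩, by simp⟩
        · intro v hv; exact absurd hv (Set.notMem_empty _)
        · intro c _ _ v hv; exact absurd hv (Set.notMem_empty _)
      set S : Set V := ⋃ p ∈ C, p.1.1 with hS
      let τ : V → Bool := fun v => if h : ∃ p ∈ C, v ∈ p.1.1 then h.choose.1.2 v else false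
      have hτ : ∀ p ∈ C, ∀ v ∈ p.1.1, τ v = p.1.2 v := by
        intro p hp v hv
        have h : ∃ p ∈ C, v ∈ p.1.1 := ⟨p, hp, hv⟩
        have e : τ v = h.choose.1.2 v := dif_pos h
        rw [e]
        have h1 := h.choose_spec
        by_cases hpq : h.choose = p
        · rw [hpq]
        · rcases hC h1.1 hp hpq with h2 | h2
          · exact (h2.2 v h1.2).symm
          · exact h2.2 v hv
      have hsub : ∀ p ∈ C, p.1.1 ⊆ S := fun p hp =>
        Set.subset_biUnion_of_mem (u := fun p : α => p.1.1) hp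
      have hmem : ∀ v ∈ S, ∃ p ∈ C, v ∈ p.1.1 := fun v hv => by simpa [hS] using hv
      refine ⟨⟨(S, τ), ?_, ?_⟩, fun p hp => ⟨hsub p hp, hτ p hp⟩⟩
      · intro v hv
        obtain ⟨p, _, hpv⟩ := hmem v hv
        exact p.2.1 hpv
      · intro z' hz' he v hv
        obtain ⟨p, hp, hpv⟩ := hmem v hv
        exact p.2.2 z' hz' (fun w hw => (he w (hsub p hp hw)).trans (hτ p hp w hw)) v hpv
    · intro a b c hab hbc
      exact ⟨hab.1.trans hbc.1, fun v hv => (hbc.2 v (hab.1 hv)).trans (hab.2 v hv)⟩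
  obtain ⟨m, hm⟩ := hz
  exact ⟨m.1.1, m.1.2, m.2, fun S' τ' h1 h2 h3 => (hm ⟨(S', τ'), h1⟩ ⟨h2, h3⟩).1⟩

/-- Relatively free vertices belong to a maximal secured set. -/
lemma mem_of_rfree {r : V → Ordinal.{0}} {T : V → Set V} {P : Set V}
    {ρ : Ordinal.{0}} {z : V → Bool} (hP : ∀ v ∈ P, Hard G v ∧ r v = ρ)
    (hg : ∀ u, Hard G u → T u ⊆ Nf G u)
    {S : Set V} {τ : V → Bool} (h : ScR G r T P ρ z S τ)
    (hM : ∀ S' τ', ScR G r T P ρ z S' τ' → S ⊆ S' → (∀ v ∈ S, τ' v = τ v) → S' ⊆ S) {u : V}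
    (huP : u ∈ P) (hu : FreeIn G {v | Hard G v ∧ r v = r u} (T u) u) : u ∈ S := by
  by_contra huS
  obtain ⟨E, hEf, hEI, huE, hX⟩ := hu
  set X1 := {x | x ∈ T u ∧ ∀ a ∈ comp G x, Few G ({v | Hard G v ∧ r v = r u} \ E) a} with hX1
  set D : Set V := S ∪ {v | v ∉ P} with hD
  set zz : V → Bool := fun v => if v ∈ S then τ v else z v with hzz
  have huD : u ∉ D := by
    rintro (h1 | h1)
    · exact huS h1
    · exact h1 huP
  have hzD : ∀ z' : V → Bool, (∀ v, v ∉ P → z' v = z v) → (∀ v ∈ S, z' v = τ v) →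
      ∀ v ∈ D, z' v = zz v := by
    intro z' h1 h2 v hv
    by_cases hvS : v ∈ S
    · rw [h2 v hvS, hzz]; simp only [if_pos hvS]
    · rw [h1 v (hv.resolve_left hvS), hzz]; simp only [if_neg hvS]
  have key : ∀ x ∈ X1, ∃ Y : Set V, Y ⊆ E \ D ∧ Y.Nonempty ∧ ∃ f : V → Bool, ∀ z' : V → Bool,
      (∀ v ∈ D, z' v = zz v) → (∀ v ∈ Y, z' v = f v) → ∀ w ∈ Y, Srv G z' (comp G x) w := by
    rintro x ⟨hxT, hr⟩
    obtain ⟨hux, hx, hf⟩ := hg u (hP u huP).1 hxT
    refine rob_free'' hx hf (hP u huP).1.1 hux huE D (fun a ha => (hr a ha).mono ?_) huD zz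
    rintro b ⟨-, hbE, hbD⟩
    have hbP : b ∈ P := by
      by_contra hbP
      exact hbD (Or.inr hbP)
    exact ⟨⟨(hP b hbP).1, (hP b hbP).2.trans (hP u huP).2.symm⟩, hbE⟩
  have hpig : ∃ Y : Set V, Y ⊆ E \ D ∧ Y.Nonempty ∧ ∃ Q : Set V, {x | x ∈ X1 ∧ ∀ z' : V → Bool,
      (∀ v ∈ D, z' v = zz v) → (∀ v ∈ Y, z' v = decide (v ∈ Q)) →
        ∀ w ∈ Y, Srv G z' (comp G x) w}.Infinite := by
    by_contra hcon
    push Not at hcon
    apply hX
    have hfin : (⋃ Y ∈ {Y | Y ⊆ E \ D ∧ Y.Nonempty}, ⋃ Q ∈ {Q | Q ⊆ E}, {x | x ∈ X1 ∧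
        ∀ z' : V → Bool, (∀ v ∈ D, z' v = zz v) → (∀ v ∈ Y, z' v = decide (v ∈ Q)) →
        ∀ w ∈ Y, Srv G z' (comp G x) w}).Finite :=
      ((hEf.subset Set.sdiff_subset).finite_subsets.subset fun Y hY => hY.1).biUnion
        fun Y hY => hEf.finite_subsets.biUnion fun Q _ => hcon Y hY.1 hY.2 Q
    refine hfin.subset fun x hx => ?_
    obtain ⟨Y, hY1, hY2, f, hf⟩ := key x hx
    refine Set.mem_biUnion (show Y ∈ {Y | Y ⊆ E \ D ∧ Y.Nonempty} from ⟨hY1, hY2⟩) ?_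
    refine Set.mem_biUnion (show {v | v ∈ Y ∧ f v = true} ∈ {Q | Q ⊆ E} from
      fun v hv => (hY1 hv.1).1) ?_
    refine ⟨hx, fun z' h1 h2 => hf z' h1 fun v hv => ?_⟩
    rw [h2 v hv]
    cases hfv : f v <;> simp [hv, hfv]
  obtain ⟨Y, hYE, ⟨y0, hy0⟩, Q, hXQ⟩ := hpig
  have hYP : Y ⊆ P := by
    intro v hv
    by_contra hvP
    exact (hYE hv).2 (Or.inr hvP)
  set τ' : V → Bool := fun v => if v ∈ Y then decide (v ∈ Q) else τ v with hτ'
  have t1 : ∀ v ∈ Y, τ' v = decide (v ∈ Q) := fun v hv => if_pos hv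
  have t2 : ∀ v ∈ S, τ' v = τ v := fun v hv => if_neg fun hY => (hYE hY).2 (Or.inl hv)
  have hle : S ∪ Y ⊆ S := by
    refine hM (S ∪ Y) τ' ⟨?_, ?_⟩ Set.subset_union_left t2
    · rintro v (hv | hv)
      · exact h.1 hv
      · exact hYP hv
    · intro z' hz' hz w hw
      have hzS : ∀ v ∈ S, z' v = τ v := fun v hv => (hz v (Or.inl hv)).trans (t2 v hv)
      by_cases hwS : w ∈ S
      · exact h.2 z' hz' hzS w hwS
      · have hwY : w ∈ Y := hw.resolve_left hwS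
        refine ⟨u, (hP u huP).1, (hP u huP).2, hXQ.mono ?_⟩
        rintro x ⟨⟨hxT, -⟩, hxs⟩
        have hs := hxs z' (hzD z' hz' hzS) (fun v hv => (hz v (Or.inr hv)).trans (t1 v hv)) w hwY
        obtain ⟨s, hs1, hs2, y, hy, hwy, hsy⟩ := hs
        exact ⟨hxT, ⟨(hP w (hYP hwY)).1.1, y, hy, hwy.symm⟩, s, hs1, hs2, y, hy, hwy, hsy⟩
  exact (hYE hy0).2 (Or.inl (hle (Or.inr hy0)))

/-! ### One stage -/

theorem exists_stage [Countable V] {r : V → Ordinal.{0}} {T : V → Set V} {A : Set V}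
    (hR : Ranked G r T A) {D : Set V} (hD : ∀ v ∈ D, Hard G v ∧ Served G r T A v)
    (ρ : Ordinal.{0}) (z : V → Bool) :
    ∃ z' : V → Bool, (∀ v, z' v ≠ z v → v ∈ D ∧ r v = ρ ∧ LDead G r T ρ z v) ∧
      ∀ v ∈ D, r v = ρ → LDead G r T ρ z v → (∃ k, Hard G k ∧ r k = ρ ∧ Fs G T k v z') ∨
        {y | y ∈ Jn G r v ∧ z' y ≠ z' v}.Infinite := by
  set P : Set V := {v | v ∈ D ∧ r v = ρ ∧ LDead G r T ρ z v} with hP
  have hPH : ∀ v ∈ P, Hard G v ∧ r v = ρ := fun v hv => ⟨(hD v hv.1).1, hv.2.1⟩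
  obtain ⟨S, τ, hS, hM⟩ := exists_ScR G r T P ρ z
  set P' : Set V := P \ S with hP'
  set τ2 : V → Bool := fun v => if v ∈ S then τ v else z v with hτ2
  have hst : ∀ v ∈ P', Stiff G r T v := fun v hv =>
    ⟨(hPH v hv.1).1, fun hf => hv.2 (mem_of_rfree hPH hR.sub hS hM hv.1 hf)⟩
  have hok : (sy G {u | u ∈ A ∧ r u = ρ} P' T (Jn G r) τ2).Ok := by
    refine sy_ok (fun v hv => (hPH v hv.1).1.1) (fun u hu x hx => hR.sub u (hPH u hu.1).1 hx)
      (fun u hu => ?_) (fun v hv => ?_) (fun u hu huA => ?_)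
    · obtain ⟨h1, h2, h3⟩ := hR.ker u hu.1
      refine ⟨h2, h3.subset fun v hv => ?_⟩
      exact ⟨⟨(hPH v hv.1.1).1.1, hv.2⟩, hst v hv.1, (hPH v hv.1.1).2.trans hu.2.symm⟩
    · refine (hR.hub v (hst v hv)).subset fun u hu => ?_
      exact ⟨hu.1.1, hu.1.2.trans (hPH v hv.1).2.symm, (hPH v hv.1).1.1, hu.2.2.2⟩
    · have hur := (hPH u hu.1).2
      rcases (hD u hu.1.1).2 with h | h | h | h
      · exact absurd (hst u hu) h
      · exact absurd ⟨h, hur⟩ huA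
      · exact Or.inl h
      · refine Or.inr fun E hE hEP => h E hE fun v hv => ?_
        exact ⟨hst v (hEP hv), (hPH v (hEP hv).1).2.trans hur.symm⟩
  obtain ⟨z', hz', hsv⟩ := Sys.select hok
  have e1 : ∀ v, v ∉ P → z' v = z v := by
    intro v hv
    rw [hz' v fun h => hv h.1]
    exact if_neg fun h => hv (hS.1 h)
  have e2 : ∀ v ∈ S, z' v = τ v := by
    intro v hv
    rw [hz' v fun h => h.2 hv]
    exact if_pos hv
  refine ⟨z', fun v hv => ?_, fun v hvD hvr hvd => ?_⟩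
  · by_contra hn
    exact hv (e1 v hn)
  have hvP : v ∈ P := ⟨hvD, hvr, hvd⟩
  by_cases hvS : v ∈ S
  · exact Or.inl (hS.2 z' e1 e2 v hvS)
  have hvP' : v ∈ P' := ⟨hvP, hvS⟩
  have hinf := hsv v hvP'
  unfold Sys.Sv at hinf
  by_cases hB : v ∈ BB G {u | u ∈ A ∧ r u = ρ} P' T
  · have e : (sy G {u | u ∈ A ∧ r u = ρ} P' T (Jn G r) τ2).tk v z' =
        {x | x ∈ XX G {u | u ∈ A ∧ r u = ρ} P' T v ∧ Srv G z' (comp G x) v} := if_pos hB
    rw [e] at hinf
    left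
    by_contra hcon
    push Not at hcon
    apply hinf
    have hfin : (⋃ k ∈ {k | k ∈ A ∧ r k = r v ∧ v ∈ Ker G (T k)}, {x | x ∈ T k ∧ v ∈ bd G x ∧
        Srv G z' (comp G x) v}).Finite := by
      refine (hR.hub v (hst v hvP')).biUnion fun k hk => ?_
      by_contra hi
      exact hcon k (hR.ker k hk.1).1 (hk.2.1.trans hvr) hi
    refine hfin.subset ?_
    rintro x ⟨⟨k, hk, hkP, hik, hxk, hix⟩, hs⟩
    exact Set.mem_biUnion (show k ∈ {k | k ∈ A ∧ r k = r v ∧ v ∈ Ker G (T k)} from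
      ⟨hk.1, hk.2.trans hvr.symm, (hPH v hvP).1.1, hik.2⟩) ⟨hxk, hix, hs⟩
  · have e : (sy G {u | u ∈ A ∧ r u = ρ} P' T (Jn G r) τ2).tk v z' =
        {y | (y ∈ Jn G r v ∧ z' y ≠ z' v) ∨ (y ∈ T v ∧ Srv G z' (comp G y) v)} := if_neg hB
    rw [e] at hinf
    by_cases h1 : {y | y ∈ Jn G r v ∧ z' y ≠ z' v}.Infinite
    · exact Or.inr h1
    · left
      have h2 : {y | y ∈ T v ∧ Srv G z' (comp G y) v}.Infinite := by
        intro h3
        exact hinf (((Set.not_infinite.1 h1).union h3).subset fun y hy => hy)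
      refine ⟨v, (hPH v hvP).1, hvr, h2.mono ?_⟩
      rintro x ⟨hx, hs⟩
      have h4 := hR.sub v (hPH v hvP).1 hx
      exact ⟨hx, ⟨(hPH v hvP).1.1, x, mem_comp_self x, h4.1.symm⟩, hs⟩

/-! ### The recursion -/

/-- `c` below `δ` and `z0` above. -/
noncomputable def zr (r : V → Ordinal.{0}) (c z0 : V → Bool) (δ : WithTop Ordinal.{0}) : V → Bool :=
  fun w => if ((r w : Ordinal.{0}) : WithTop Ordinal.{0}) < δ then c w else z0 w

lemma zr_lt {r : V → Ordinal.{0}} {c z0 : V → Bool} {δ : WithTop Ordinal.{0}} {w : V}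
    (h : ((r w : Ordinal.{0}) : WithTop Ordinal.{0}) < δ) : zr r c z0 δ w = c w := if_pos h

lemma zr_ge {r : V → Ordinal.{0}} {c z0 : V → Bool} {δ : WithTop Ordinal.{0}} {w : V}
    (h : ¬ ((r w : Ordinal.{0}) : WithTop Ordinal.{0}) < δ) : zr r c z0 δ w = z0 w := if_neg h

lemma zr_eq {r : V → Ordinal.{0}} {c z0 : V → Bool} {δ : WithTop Ordinal.{0}} {w : V}
    (h : c w = z0 w) : zr r c z0 δ w = z0 w := by
  unfold zr
  rw [h]; simp

lemma zr_top {r : V → Ordinal.{0}} {c z0 : V → Bool} : zr r c z0 ⊤ = c := by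
  funext w
  exact zr_lt (WithTop.coe_lt_top _)

lemma exists_rec (r : V → Ordinal.{0}) (sel : Ordinal.{0} → (V → Bool) → V → Bool)
    (z0 : V → Bool) : ∃ c : V → Bool, ∀ v, c v = sel (r v) (zr r c z0 (r v : Ordinal.{0})) v := by
  have wf : WellFounded (fun v w : V => r v < r w) := InvImage.wf r wellFounded_lt
  let F : ∀ v : V, (∀ w : V, r w < r v → Bool) → Bool := fun v ih =>
    sel (r v) (fun w => if h : r w < r v then ih w h else z0 w) v
  refine ⟨wf.fix F, fun v => ?_⟩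
  rw [wf.fix_eq F v]
  have : (fun w => if h : r w < r v then wf.fix F w else z0 w)
      = zr r (wf.fix F) z0 (r v : Ordinal.{0}) := by
    funext w
    by_cases h : r w < r v
    · rw [zr_lt (WithTop.coe_lt_coe.2 h), dif_pos h]
    · rw [zr_ge (fun h' => h (WithTop.coe_lt_coe.1 h')), dif_neg h]
  simp only [F]
  rw [this]

section

variable {r : V → Ordinal.{0}} {T : V → Set V} {z0 c : V → Bool}

/-- One step. -/
lemma step (hc : ∀ v, c v ≠ z0 v → Hard G v ∧ LDead G r T (r v) (zr r c z0 (r v : Ordinal.{0})) v)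
    {k : V} (hk : Hard G k)
    (hT : T k ⊆ Nf G k)
    (hcl : {v | Hard G v ∧ r k < r v ∧ ∃ x ∈ T k, v ∈ bd G x}.Finite)
    {ρ : Ordinal.{0}} {δ : WithTop Ordinal.{0}}
    (hρ : r k < ρ) (hρδ : (ρ : WithTop Ordinal.{0}) < δ)
    (hb : ∀ v, Hard G v → (∃ x ∈ T k, v ∈ bd G x) → ρ ≤ r v →
      ((r v : Ordinal.{0}) : WithTop Ordinal.{0}) < δ → r v = ρ) {j : V}
    (hj : Fs G T k j (zr r c z0 ρ)) : Fs G T k j (zr r c z0 δ) := by
  set X : Set V := {v | (∃ x ∈ T k, v ∈ bd G x) ∧ r v = ρ ∧ c v ≠ z0 v} with hX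
  have hXf : X.Finite := hcl.subset fun v hv => ⟨(hc v hv.2.2).1, by rw [hv.2.1]; exact hρ, hv.1⟩
  have hbadf : (⋃ v ∈ X, {x | x ∈ T k ∧ v ∈ bd G x ∧ Srv G (zr r c z0 ρ) (comp G x) v}).Finite := by
    refine hXf.biUnion fun v hv => ?_
    have h1 := (hc v hv.2.2).2 k hk (by rw [hv.2.1]; exact hρ)
    rw [hv.2.1] at h1
    exact Set.not_infinite.1 h1
  refine (hj.sdiff hbadf).mono ?_
  rintro x ⟨⟨hx, hjx, hs⟩, hxb⟩
  refine ⟨hx, hjx, ?_⟩
  have h1 := srv_fl (hT hx).2.1 (z := zr r c z0 ρ) (X := X) (fun i hi hix hs =>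
    hxb (Set.mem_biUnion hi ⟨hx, hix, hs⟩)) hjx (Or.inr hs)
  refine srv_congr hjx (fun v hv => ?_) h1
  by_cases hcv : c v = z0 v
  · rw [zr_eq hcv, fl_not fun h => h.2.2 hcv, zr_eq hcv]
  · by_cases h1 : r v < ρ
    · rw [zr_lt ((WithTop.coe_lt_coe.2 h1).trans hρδ), fl_not (fun h => h1.ne h.2.1),
        zr_lt (WithTop.coe_lt_coe.2 h1)]
    · have hn1 : ¬ ((r v : Ordinal.{0}) : WithTop Ordinal.{0}) < (ρ : WithTop Ordinal.{0}) :=
        fun h' => h1 (WithTop.coe_lt_coe.1 h')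
      by_cases h2 : ((r v : Ordinal.{0}) : WithTop Ordinal.{0}) < δ
      · have e := hb v (hc v hcv).1 ⟨x, hx, hv⟩ (not_lt.1 h1) h2
        have hvX : v ∈ X := ⟨⟨x, hx, hv⟩, e, hcv⟩
        rw [zr_lt h2, fl_mem hvX, zr_ge hn1]
        revert hcv
        cases c v <;> cases z0 v <;> simp
      · rw [zr_ge h2, fl_not, zr_ge hn1]
        rintro ⟨-, e, -⟩
        apply h2
        rw [e]; exact hρδ

/-- Persistence. -/
lemma persist (hc : ∀ v, c v ≠ z0 v → Hard G v ∧ LDead G r T (r v)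
      (zr r c z0 (r v : Ordinal.{0})) v) {k : V} (hk : Hard G k)
    (hT : T k ⊆ Nf G k)
    (hcl : {v | Hard G v ∧ r k < r v ∧ ∃ x ∈ T k, v ∈ bd G x}.Finite)
    {γ : Ordinal.{0}} (hγ : r k < γ) {j : V} (hj : Fs G T k j (zr r c z0 γ))
    (δ : WithTop Ordinal.{0}) (hγδ : (γ : WithTop Ordinal.{0}) ≤ δ) : Fs G T k j (zr r c z0 δ) := by
  induction δ using WellFoundedLT.induction with
  | _ δ ih =>
  rcases hγδ.eq_or_lt with h0 | h0
  · rw [← h0]; exact hj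
  set Φ : Set V := {v | (Hard G v ∧ r k < r v ∧ ∃ x ∈ T k, v ∈ bd G x) ∧ γ ≤ r v ∧
    ((r v : Ordinal.{0}) : WithTop Ordinal.{0}) < δ} with hΦ
  have hΦf : Φ.Finite := hcl.subset fun v hv => hv.1
  rcases Φ.eq_empty_or_nonempty with he | hne
  · refine hj.mono ?_
    rintro x ⟨hx, hjx, hs⟩
    refine ⟨hx, hjx, srv_congr hjx (fun v hv => ?_) hs⟩
    by_cases hcv : c v = z0 v
    · rw [zr_eq hcv, zr_eq hcv]
    · by_cases h1 : r v < γ
      · rw [zr_lt (WithTop.coe_lt_coe.2 h1), zr_lt ((WithTop.coe_lt_coe.2 h1).trans h0)]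
      · have hn1 : ¬ ((r v : Ordinal.{0}) : WithTop Ordinal.{0}) < (γ : WithTop Ordinal.{0}) :=
          fun h' => h1 (WithTop.coe_lt_coe.1 h')
        have hn2 : ¬ ((r v : Ordinal.{0}) : WithTop Ordinal.{0}) < δ := by
          intro h2
          have : v ∈ Φ := ⟨⟨(hc v hcv).1, hγ.trans_le (not_lt.1 h1), x, hx, hv⟩, not_lt.1 h1, h2⟩
          rw [he] at this
          exact this
        rw [zr_ge hn1, zr_ge hn2]
  · obtain ⟨w, hw, hmax⟩ := Set.exists_max_image Φ r hΦf hne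
    have h2 := ih (r w : Ordinal.{0}) hw.2.2 (WithTop.coe_le_coe.2 hw.2.1)
    refine step hc hk hT hcl (hγ.trans_le hw.2.1) hw.2.2 (fun v hv hvx h3 h4 => ?_) h2
    exact le_antisymm (hmax v ⟨⟨hv, (hγ.trans_le hw.2.1).trans_le h3, hvx⟩, hw.2.1.trans h3, h4⟩) h3

end

/-- **Main theorem.** -/
theorem unfriendly_of_ranked [Countable V] (G : SimpleGraph V) {r : V → Ordinal.{0}}
    {T : V → Set V} {A : Set V} (hR : Ranked G r T A)
    (hN : {u | Inf G u ∧ ¬ Served G r T A u}.Finite) : ∃ c : V → Bool, Unfriendly G c := by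
  obtain ⟨S0, τ0, hS, hM⟩ := exists_Sc G
  set Ex : Set V := {u | Inf G u ∧ ¬ Served G r T A u} with hEx
  set D : Set V := {v | Inf G v ∧ v ∉ S0 ∧ v ∉ Ex} with hD
  have hDH : ∀ v ∈ D, Hard G v ∧ Served G r T A v := fun v hv =>
    ⟨⟨hv.1, fun hF => hv.2.1 (mem_of_free hS hM (free_of hF))⟩, by
      by_contra hn
      exact hv.2.2 ⟨hv.1, hn⟩⟩
  choose sel hsel1 hsel2 using fun ρ z => exists_stage hR hDH ρ z
  obtain ⟨c, hc⟩ := exists_rec r sel τ0
  have hzv : ∀ v, zr r c τ0 (r v : Ordinal.{0}) v = τ0 v := fun v => zr_ge (lt_irrefl _)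
  have hc' : ∀ v, c v ≠ τ0 v → v ∈ D ∧ LDead G r T (r v) (zr r c τ0 (r v : Ordinal.{0})) v := by
    intro v hv
    have := hsel1 (r v) (zr r c τ0 (r v : Ordinal.{0})) v (by rw [← hc v, hzv v]; exact hv)
    exact ⟨this.1, this.2.2⟩
  have cD : ∀ v, v ∉ D → c v = τ0 v := fun v hv => by
    by_contra hne
    exact hv (hc' v hne).1
  have pers : ∀ k, Hard G k → ∀ γ : Ordinal.{0}, r k < γ → ∀ j,
      Fs G T k j (zr r c τ0 γ) → Fs G T k j c := by
    intro k hk γ hγ j hj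
    have := persist (fun v hv => ⟨(hDH v (hc' v hv).1).1, (hc' v hv).2⟩) hk (hR.sub k hk)
      (hR.clean k hk) hγ hj ⊤ le_top
    rwa [zr_top] at this
  have shf : ∀ k, Hard G k → ∀ j, Fs G T k j c → SH G c j := by
    intro k hk j hj
    refine SH.of_srv (hj.mono ?_)
    rintro x ⟨hx, -, hs⟩
    exact ⟨(hR.sub k hk hx).2.1, (hR.sub k hk hx).2.2, hs⟩
  refine unfriendly_of_SH (z := c) (hN.subset ?_)
  rintro u ⟨hu, hns⟩
  by_contra hnE
  apply hns
  by_cases huS : u ∈ S0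
  · exact hS.2 c (fun v hv => cD v fun h => h.2.1 hv) u huS
  have huD : u ∈ D := ⟨hu, huS, hnE⟩
  by_cases hd : LDead G r T (r u) (zr r c τ0 (r u : Ordinal.{0})) u
  · have hsu : ((r u : Ordinal.{0}) : WithTop Ordinal.{0}) <
        ((Order.succ (r u) : Ordinal.{0}) : WithTop Ordinal.{0}) :=
      WithTop.coe_lt_coe.2 (Order.lt_succ _)
    have hnx : zr r c τ0 ((Order.succ (r u) : Ordinal.{0}) : WithTop Ordinal.{0}) =
        sel (r u) (zr r c τ0 (r u : Ordinal.{0})) := by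
      funext w
      rcases lt_trichotomy (r w) (r u) with h | h | h
      · rw [zr_lt ((WithTop.coe_lt_coe.2 h).trans hsu)]
        have : sel (r u) (zr r c τ0 (r u : Ordinal.{0})) w = zr r c τ0 (r u : Ordinal.{0}) w := by
          by_contra hne
          exact h.ne (hsel1 _ _ w hne).2.1
        rw [this, zr_lt (WithTop.coe_lt_coe.2 h)]
      · rw [zr_lt (by rw [h]; exact hsu), hc w, h]
      · have h1 : ¬ ((r w : Ordinal.{0}) : WithTop Ordinal.{0}) <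
            ((Order.succ (r u) : Ordinal.{0}) : WithTop Ordinal.{0}) := fun h' =>
          (not_lt.2 (Order.succ_le_of_lt h)) (WithTop.coe_lt_coe.1 h')
        have h2 : ¬ ((r w : Ordinal.{0}) : WithTop Ordinal.{0}) <
            ((r u : Ordinal.{0}) : WithTop Ordinal.{0}) := fun h' =>
          (not_lt.2 h.le) (WithTop.coe_lt_coe.1 h')
        rw [zr_ge h1]
        have : sel (r u) (zr r c τ0 (r u : Ordinal.{0})) w = zr r c τ0 (r u : Ordinal.{0}) w := by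
          by_contra hne
          exact h.ne' (hsel1 _ _ w hne).2.1
        rw [this, zr_ge h2]
    rcases hsel2 (r u) (zr r c τ0 (r u : Ordinal.{0})) u huD rfl hd with ⟨k, hk, hkr, hf⟩ | hJ
    · rw [← hnx] at hf
      exact shf k hk u (pers k hk _ (by rw [hkr]; exact Order.lt_succ _) u hf)
    · rw [← hnx] at hJ
      refine hJ.mono ?_
      rintro y ⟨⟨h1, h2, h3⟩, hne⟩
      refine ⟨h1, Or.inl ⟨h2, ?_⟩⟩
      rw [zr_lt hsu] at hne
      rcases h3 with h3 | h3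
      · have hcy : c y = τ0 y := cD y fun h => h3 (hDH y h).1
        rw [zr_eq hcy] at hne
        rw [hcy]; exact hne
      · rw [zr_lt (WithTop.coe_lt_coe.2 (Order.lt_succ_of_le h3))] at hne
        exact hne
  · unfold LDead at hd
    push Not at hd
    obtain ⟨k, hk, hkr, hf⟩ := hd
    exact shf k hk u (pers k hk (r u) hkr u hf)

end UnfT
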