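import Pool.Agent.Work.MP_1aab6d_co_h84.Rank

/-!
# Special cases of the ranked theorem
-/

set_option autoImplicit false

namespace UnfT

open Finset Classical UnfL

variable {V : Type*} {G : SimpleGraph V}

/-- A special case: the finite-degree vertices induce finite components and every vertex `u` of
infinite degree is linked to finitely many others only. -/
theorem unfriendly_of_links [Countable V] (G : SimpleGraph V)
    (hf : ∀ x, ¬ Inf G x → (comp G x).Finite)
    (hl : ∀ u, Inf G u → {v | Inf G v ∧ {x | ¬ Inf G x ∧ u ∈ bd G x ∧ v ∈ bd G x}.Infinite}.Finite) :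
    ∃ c : V → Bool, Unfriendly G c := by
  refine unfriendly_of_ranked G (r := fun _ => 0) (T := Nf G)
    (A := {u | Hard G u ∧ (Nf G u).Infinite}) ⟨fun _ _ => subset_rfl, ?_, ?_, ?_⟩ ?_
  · intro u _
    convert Set.finite_empty
    rw [Set.eq_empty_iff_forall_notMem]
    rintro v ⟨-, h, -⟩
    exact lt_irrefl _ h
  · rintro u ⟨hu, hi⟩
    refine ⟨hu, hi, (hl u hu.1).subset ?_⟩
    rintro v ⟨⟨hv, h⟩, -, -⟩
    exact ⟨hv, h.mono fun x hx => ⟨hx.1.2.1, ⟨hu.1, x, mem_comp_self x, hx.1.1.symm⟩, hx.2⟩⟩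
  · intro v hv
    refine (hl v hv.1.1).subset ?_
    rintro u ⟨⟨hu, -⟩, -, -, h⟩
    exact ⟨hu.1, h.mono fun x hx => ⟨hx.1.2.1, hx.2, ⟨hu.1, x, mem_comp_self x, hx.1.1.symm⟩⟩⟩
  · convert Set.finite_empty
    rw [Set.eq_empty_iff_forall_notMem]
    rintro u ⟨hu, hn⟩
    apply hn
    by_cases hS : Stiff G (fun _ => 0) (Nf G) u
    · by_cases h1 : (Nf G u).Infinite
      · exact Or.inr (Or.inl ⟨hS.1, h1⟩)
      · refine Or.inr (Or.inr (Or.inl fun h2 => hu (((Set.not_infinite.1 h1).union h2).subset ?_)))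
        intro y hy
        by_cases hy' : Inf G y
        · exact Or.inr ⟨hy, hy', Or.inr le_rfl⟩
        · exact Or.inl ⟨hy, hy', hf y hy'⟩
    · exact Or.inl hS

/-- A special case: almost every vertex `u` of infinite degree has an infinite set `T u` of
neighbours of finite degree, lying in finite components, such that the component of each of them has
at most four neighbours of infinite degree of the rank of `u`, and all these components together have
only finitely many neighbours of infinite degree of larger rank. -/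
theorem unfriendly_of_four [Countable V] (G : SimpleGraph V) (r : V → Ordinal.{0}) (T : V → Set V)
    (hT : ∀ u, Inf G u → T u ⊆ Nf G u)
    (hcl : ∀ u, Inf G u → {v | Inf G v ∧ r u < r v ∧ ∃ x ∈ T u, v ∈ bd G x}.Finite)
    (h4 : ∀ u, Inf G u → ∀ x ∈ T u, {v | v ∈ bd G x ∧ r v = r u}.encard ≤ 4)
    (hN : {u | Inf G u ∧ (T u).Finite}.Finite) :
    ∃ c : V → Bool, Unfriendly G c := by
  refine unfriendly_of_ranked G (r := r) (T := T) (A := ∅) ⟨fun u hu => hT u hu.1, ?_, ?_, ?_⟩ ?_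
  · intro u hu
    exact (hcl u hu.1).subset fun v hv => ⟨hv.1.1, hv.2⟩
  · intro u hu
    exact absurd hu (Set.notMem_empty _)
  · intro v hv
    simp
  refine hN.subset ?_
  rintro u ⟨hu, hn⟩
  refine ⟨hu, ?_⟩
  by_contra hi
  apply hn
  by_cases hS : Stiff G r T u
  swap
  · exact Or.inl hS
  refine Or.inr (Or.inr (Or.inr ?_))
  intro E hE hEB
  by_contra hth
  apply hS.2
  have hth' := Set.not_infinite.1 hth
  refine ⟨insert u E, hE.insert u, ?_, Set.mem_insert _ _, ?_⟩
  · intro v hv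
    rcases hv with rfl | hv
    · exact ⟨hS.1, rfl⟩
    · exact ⟨(hEB hv).1.1, (hEB hv).2⟩
  refine (Set.Infinite.sdiff hi hth').mono ?_
  rintro x ⟨hx, hxn⟩
  refine ⟨hx, fun a ha => Or.inl ?_⟩
  have hx' : ∃ a' ∈ comp G x, ¬ Few G (E \ {u}) a' := by
    by_contra hcon
    push Not at hcon
    exact hxn ⟨hx, hcon⟩
  obtain ⟨a', ha', hna'⟩ := hx'
  have h2 : 1 < {b | G.Adj a' b ∧ b ∈ E \ {u}}.encard := by
    by_contra hle
    exact hna' (Or.inl (not_lt.1 hle))
  obtain ⟨e1, e2, he1, he2, hne⟩ := Set.one_lt_encard_iff.1 h2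
  have hxN := hT u hu hx
  by_contra hgt
  rw [not_le, Set.one_lt_encard_iff] at hgt
  obtain ⟨b1, b2, hb1, hb2, hbne⟩ := hgt
  have hub : u ∈ {v | v ∈ bd G x ∧ r v = r u} :=
    ⟨⟨hu, x, mem_comp_self x, hxN.1.symm⟩, rfl⟩
  have heb : ∀ e, G.Adj a' e ∧ e ∈ E \ {u} → e ∈ {v | v ∈ bd G x ∧ r v = r u} := by
    rintro e ⟨h1, h2, h3⟩
    exact ⟨⟨(hEB h2).1.1.1, a', ha', h1⟩, (hEB h2).2⟩
  have hbb : ∀ b, G.Adj a b ∧ b ∈ {v | Hard G v ∧ r v = r u} \ insert u E →
      b ∈ {v | v ∈ bd G x ∧ r v = r u} := by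
    rintro b ⟨h1, h2, h3⟩
    exact ⟨⟨h2.1.1, a, ha, h1⟩, h2.2⟩
  have hsub : ({u, e1, e2, b1, b2} : Set V) ⊆ {v | v ∈ bd G x ∧ r v = r u} := by
    intro v hv
    simp only [Set.mem_insert_iff, Set.mem_singleton_iff] at hv
    rcases hv with rfl | rfl | rfl | rfl | rfl
    · exact hub
    · exact heb _ he1
    · exact heb _ he2
    · exact hbb _ hb1
    · exact hbb _ hb2
  have hcard : ({u, e1, e2, b1, b2} : Set V).encard = 5 := by
    have n1 : e1 ≠ u := he1.2.2
    have n2 : e2 ≠ u := he2.2.2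
    have n3 : b1 ≠ u := fun h => hb1.2.2 (by rw [h]; exact Set.mem_insert _ _)
    have n4 : b2 ≠ u := fun h => hb2.2.2 (by rw [h]; exact Set.mem_insert _ _)
    have n5 : e1 ≠ b1 := fun h => hb1.2.2 (by rw [← h]; exact Set.mem_insert_of_mem _ he1.2.1)
    have n6 : e1 ≠ b2 := fun h => hb2.2.2 (by rw [← h]; exact Set.mem_insert_of_mem _ he1.2.1)
    have n7 : e2 ≠ b1 := fun h => hb1.2.2 (by rw [← h]; exact Set.mem_insert_of_mem _ he2.2.1)
    have n8 : e2 ≠ b2 := fun h => hb2.2.2 (by rw [← h]; exact Set.mem_insert_of_mem _ he2.2.1)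
    rw [Set.encard_insert_of_notMem (by simp [n1.symm, n2.symm, n3.symm, n4.symm]),
      Set.encard_insert_of_notMem (by simp [hne, n5, n6]),
      Set.encard_insert_of_notMem (by simp [n7, n8]), Set.encard_pair hbne]
    norm_num
  have := (Set.encard_le_encard hsub).trans (h4 u hu x hx)
  rw [hcard] at this
  exact absurd this (by norm_num)

end UnfT
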