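import Pool.Agent.Work.MP_1aab6d_co_h84.Tame
import Pool.Agent.Work.MP_1aab6d_co_h84.Finite

set_option autoImplicit false

namespace UnfT

open Finset Classical

variable {V : Type*} {G : SimpleGraph V} {S R : Set V} {τ ρ : V → Bool}

/-! ### Stability of single vertices -/

lemma en_single (s : V → Bool) {v : V} (hv : ¬ Inf G v) :
    en G (eps Set.univ s) {v} = ∑ y ∈ nb G v, (if s y ≠ s v then (1 : ℤ) else -1) := by
  unfold en
  rw [Finset.sum_singleton]
  have : nb G v \ {v} = nb G v := by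
    ext y
    rw [mem_sdiff, Finset.mem_singleton]
    refine ⟨fun h => h.1, fun h => ⟨h, ?_⟩⟩
    rintro rfl
    exact G.loopless.irrefl _ ((mem_nb G hv).1 h)
  rw [this]
  refine Finset.sum_congr rfl fun y _ => ?_
  simp [eps]

lemma stab_iff (s : V → Bool) {v : V} (hv : ¬ Inf G v) :
    Stab G s v ↔ 0 ≤ en G (eps Set.univ s) {v} := by
  rw [en_single s hv, Finset.sum_ite, Finset.sum_const, Finset.sum_const]
  have a1 : {w | G.Adj v w ∧ s w = s v} = (((nb G v).filter (fun y => ¬ s y ≠ s v) : Finset V) : Set V) := by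
    ext w
    simp only [Set.mem_ofPred_eq, Finset.coe_filter, mem_nb G hv, not_not]
  have a2 : {w | G.Adj v w ∧ s w ≠ s v} = (((nb G v).filter (fun y => s y ≠ s v) : Finset V) : Set V) := by
    ext w
    simp only [Set.mem_ofPred_eq, Finset.coe_filter, mem_nb G hv]
  unfold Stab
  rw [a1, a2, Set.ncard_coe_finset, Set.ncard_coe_finset]
  simp only [nsmul_eq_mul, mul_one, mul_neg]
  omega

lemma TM.stab {c : V → Bool} (hc : TM G c) {v : V} (hv : ¬ Inf G v) : Stab G c v :=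
  (stab_iff c hv).2 (hc {v} (by simpa using hv))

lemma Stab.congr {s s' : V → Bool} {v : V} (h : Stab G s v) (hv : s' v = s v)
    (hn : ∀ w, G.Adj v w → s' w = s w) : Stab G s' v := by
  unfold Stab at *
  have a1 : {w | G.Adj v w ∧ s' w = s' v} = {w | G.Adj v w ∧ s w = s v} := by
    ext w
    refine and_congr_right fun hw => ?_
    rw [hn w hw, hv]
  have a2 : {w | G.Adj v w ∧ s' w ≠ s' v} = {w | G.Adj v w ∧ s w ≠ s v} := by
    ext w
    refine and_congr_right fun hw => ?_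
    rw [hn w hw, hv]
  rw [a1, a2]; exact h

/-! ### Service in the new sense -/

variable (G) (S) (τ)

/-- The state can be extended so that, permanently, `u` gets a potential neighbour of the other
colour outside `K`. -/
def ServK (K R : Set V) (ρ : V → Bool) (u : V) : Prop :=
  ∃ R' ρ', St G S τ R' ρ' ∧ R ⊆ R' ∧ (∀ v ∈ R, ρ' v = ρ v) ∧
    ∃ y, y ∉ K ∧ G.Adj u y ∧ ∀ c, TM G c → (∀ v ∈ R', c v = ρ' v) → PG G c u y

variable {G} {S} {τ}

lemma servK_of_serv {u : V} (hs : ∀ R ρ, St G S τ R ρ → u ∈ R → Serv G S τ R ρ u) {K : Set V}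
    (hK : K.Finite) (h : St G S τ R ρ) (huR : u ∈ R) : ServK G S τ K R ρ u := by
  have key : ∀ n : ℕ, ∀ R ρ, St G S τ R ρ → u ∈ R → ∃ R' ρ', St G S τ R' ρ' ∧ R ⊆ R' ∧
      (∀ v ∈ R, ρ' v = ρ v) ∧ ∃ Y : Finset V, Y.card = n ∧
        ∀ y ∈ Y, y ∈ R' ∧ y ∉ R ∧ G.Adj u y ∧ ρ' y ≠ ρ u := by
    intro n
    induction n with
    | zero => intro R ρ h _; exact ⟨R, ρ, h, subset_rfl, fun _ _ => rfl, ∅, rfl, by simp⟩
    | succ n ih =>
      intro R ρ h huR
      obtain ⟨R1, ρ1, h1, h2, h3, y, hy1, hy2, hy3, hy4⟩ := hs R ρ h huR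
      obtain ⟨R', ρ', k1, k2, k3, Y, hY, hYm⟩ := ih R1 ρ1 h1 (h2 huR)
      have hyY : y ∉ Y := fun hy => (hYm y hy).2.1 hy1
      refine ⟨R', ρ', k1, h2.trans k2, fun v hv => (k3 v (h2 hv)).trans (h3 v hv), insert y Y,
        by rw [Finset.card_insert_of_notMem hyY, hY], fun w hw => ?_⟩
      rcases Finset.mem_insert.1 hw with rfl | hw
      · exact ⟨k2 hy1, hy2, hy3, by rw [k3 _ hy1]; exact hy4⟩
      · obtain ⟨a, b, c, d⟩ := hYm w hw
        exact ⟨a, fun hR => b (h2 hR), c, by rw [← h3 u huR]; exact d⟩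
  obtain ⟨R', ρ', k1, k2, k3, Y, hY, hYm⟩ := key (hK.toFinset.card + 1) R ρ h huR
  have : ∃ y ∈ Y, y ∉ K := by
    by_contra hcon
    push Not at hcon
    have : Y ⊆ hK.toFinset := fun y hy => by simpa using hcon y hy
    have := Finset.card_le_card this
    omega
  obtain ⟨y, hyY, hyK⟩ := this
  obtain ⟨a, b, c, d⟩ := hYm y hyY
  refine ⟨R', ρ', k1, k2, k3, y, hyK, c, fun c' _ hcc => Or.inl ?_⟩
  rw [hcc y a, hcc u (k2 huR), k3 u huR]
  exact d

/-- Potential service is permanent. -/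
lemma pg_of_srv {z c s : V → Bool} {x u y : V} (hx : ¬ Inf G x) (hf : (comp G x).Finite)
    (hu : c u = z u) (hc : ∀ v ∈ bd G x, c v = z v)
    (hs1 : ∀ v, v ∉ comp G x → s v = z v) (hs2 : ∀ v ∈ comp G x, Stab G s v)
    (hy : y ∈ comp G x) (hsy : s y ≠ z u) : PG G c u y := by
  set s' : V → Bool := fun v => if v ∈ comp G x then s v else c v with hs'
  have e1 : ∀ v ∈ comp G x, s' v = s v := fun v hv => if_pos hv
  have e2 : ∀ v, v ∉ comp G x → s' v = c v := fun v hv => if_neg hv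
  refine Or.inr ⟨comp_not_inf hx hy, by rw [comp_eq hx hy]; exact hf, s', ?_, ?_, ?_⟩
  · intro v hv
    rw [comp_eq hx hy] at hv
    exact e2 v hv
  · intro v hv
    rw [comp_eq hx hy] at hv
    refine (hs2 v hv).congr (e1 v hv) fun w hw => ?_
    by_cases hwC : w ∈ comp G x
    · exact e1 w hwC
    · rw [e2 w hwC]
      rcases comp_adj hv hw with h1 | h1
      · exact absurd h1 hwC
      · rw [hc w h1, hs1 w hwC]
  · rw [e1 y hy, hu]; exact hsy

/-- Lemma R: service by robust components. -/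
theorem St.serv_rob (h : St G S τ R ρ) (hM : Mx G S τ) {u : V} (hu : Inf G u) (huR : u ∈ R)
    (huS : u ∉ S) (hg : RobU G u) {K : Set V} (hK : K.Finite) :
    ServK G S τ K R ρ u := by
  by_contra hns
  obtain ⟨E, hE0, hEf, hEI, hX⟩ := hg {v | v ∈ R \ S ∧ Inf G v}
    (h.2.2.1.subset fun v hv => hv.1) (fun v hv => hv.2)
  have h1 : St G S τ (R ∪ E) ρ := h.addInf hEf hEI fun _ _ => rfl
  have hbad := finite_hit (G := G) hK
  set X := {x | G.Adj u x ∧ ¬ Inf G x ∧ (comp G x).Finite ∧ Rob G E (comp G x) u} with hXdef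
  set X1 := X \ {x | ¬ Inf G x ∧ (comp G x).Finite ∧ ∃ z ∈ K, z ∈ comp G x} with hX1
  have hX1i : X1.Infinite := hX.sdiff hbad
  have key : ∀ x ∈ X1, ∃ Y : Set V, Y ⊆ E \ S ∧ Y.Nonempty ∧ ∃ f : V → Bool, ∀ z' : V → Bool,
      (∀ v ∈ S, z' v = ρ v) → (∀ v ∈ Y, z' v = f v) → ∀ w ∈ Y, Srv G z' (comp G x) w := by
    rintro x ⟨⟨hux, hx, hf, hr⟩, hxK⟩
    refine hr S huS ρ fun z' hz' hsrv => hns ?_
    obtain ⟨s, hs1, hs2, y, hy, huy, hsy⟩ := hsrv
    set ρ' : V → Bool := fun v => if v ∈ R ∪ E then ρ v else z' v with hρ'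
    have e1 : ∀ v ∈ R ∪ E, ρ' v = ρ v := fun v hv => if_pos hv
    have e2 : ∀ v, v ∉ R ∪ E → ρ' v = z' v := fun v hv => if_neg hv
    have h2 : St G S τ ((R ∪ E) ∪ bd G x) ρ' :=
      h1.addInf (bd_finite hx hf) (fun v hv => hv.1) e1
    have e3 : ∀ v, Inf G v → ρ' v = z' v := by
      intro v hv
      by_cases hvR : v ∈ R ∪ E
      · rw [e1 v hvR]
        refine (hz' v ?_).symm
        rcases hvR with hvR | hvE
        · by_cases hvS : v ∈ S
          · exact Or.inl hvS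
          · exact Or.inr (hE0 ⟨⟨hvR, hvS⟩, hv⟩)
        · exact Or.inr hvE
      · exact e2 v hvR
    refine ⟨_, ρ', h2, fun v hv => Or.inl (Or.inl hv), fun v hv => e1 v (Or.inl hv), y, ?_, huy,
      fun c _ hcc => ?_⟩
    · intro hyK
      exact hxK ⟨hx, hf, y, hyK, hy⟩
    · refine pg_of_srv hx hf ?_ (fun v hv => ?_) hs1 hs2 hy hsy
      · rw [hcc u (Or.inl (Or.inl huR)), e3 u hu]
      · rw [hcc v (Or.inr hv), e3 v hv.1]
  have hpig : ∃ Y : Set V, Y ⊆ E \ S ∧ Y.Nonempty ∧ ∃ T : Set V, {x | x ∈ X1 ∧ ∀ z' : V → Bool,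
      (∀ v ∈ S, z' v = ρ v) → (∀ v ∈ Y, z' v = decide (v ∈ T)) →
        ∀ w ∈ Y, Srv G z' (comp G x) w}.Infinite := by
    by_contra hcon
    push Not at hcon
    apply hX1i
    have hfin : (⋃ Y ∈ {Y | Y ⊆ E \ S ∧ Y.Nonempty}, ⋃ T ∈ {T | T ⊆ E}, {x | x ∈ X1 ∧
        ∀ z' : V → Bool, (∀ v ∈ S, z' v = ρ v) → (∀ v ∈ Y, z' v = decide (v ∈ T)) →
        ∀ w ∈ Y, Srv G z' (comp G x) w}).Finite :=
      ((hEf.subset Set.sdiff_subset).finite_subsets.subset fun Y hY => hY.1).biUnion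
        fun Y hY => hEf.finite_subsets.biUnion fun T _ => hcon Y hY.1 hY.2 T
    refine hfin.subset fun x hx => ?_
    obtain ⟨Y, hY1, hY2, f, hf⟩ := key x hx
    refine Set.mem_biUnion (show Y ∈ {Y | Y ⊆ E \ S ∧ Y.Nonempty} from ⟨hY1, hY2⟩) ?_
    refine Set.mem_biUnion (show {v | v ∈ Y ∧ f v = true} ∈ {T | T ⊆ E} from
      fun v hv => (hY1 hv.1).1) ?_
    refine ⟨hx, fun z' h1 h2 => hf z' h1 fun v hv => ?_⟩
    rw [h2 v hv]
    cases hfv : f v <;> simp [hv, hfv]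
  obtain ⟨Y, hYE, ⟨y0, hy0⟩, T, hXT⟩ := hpig
  set τ' : V → Bool := fun v => if v ∈ Y then decide (v ∈ T) else τ v with hτ'
  have t1 : ∀ v ∈ Y, τ' v = decide (v ∈ T) := fun v hv => if_pos hv
  have t2 : ∀ v ∈ S, τ' v = τ v := fun v hv => if_neg fun hY => (hYE hY).2 hv
  have hle : S ∪ Y ⊆ S := by
    refine hM.leP (τ' := τ') Set.subset_union_left t2 ?_ ?_ ?_
    · refine hM.1.1.glue Set.subset_union_left t2 fun Q hQ => ?_
      have : Q = ∅ := by
        rw [Finset.eq_empty_iff_forall_notMem]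
        intro x hx
        obtain ⟨ha | ha, hb, hc⟩ := hQ x hx
        · exact hb ha
        · exact hc (hEI x (hYE ha).1)
      rw [this, en_empty]
    · intro c hc hcS v hv hvS hvI
      have hvY : v ∈ Y := by
        rcases hv with hv | hv
        · exact absurd hv hvS
        · exact hv
      by_contra hnh
      refine hXT ((finite_hit (G := G) (Set.not_infinite.1 hnh)).subset ?_)
      rintro x ⟨⟨⟨hux, hx, hf, -⟩, -⟩, hxs⟩
      refine ⟨hx, hf, ?_⟩
      obtain ⟨s, hs1, hs2, y, hy, hvy, hsy⟩ := hxs c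
        (fun w hw => by rw [hcS w (Or.inl hw), t2 w hw, h.2.1 w hw])
        (fun w hw => by rw [hcS w (Or.inr hw), t1 w hw]) v hvY
      exact ⟨y, ⟨hvy, pg_of_srv hx hf rfl (fun _ _ => rfl) hs1 hs2 hy hsy⟩, hy⟩
    · intro x hx hxS hs
      rcases hx with hx | hx
      · exact absurd hx hxS
      · exact absurd (hEI x (hYE hx).1) hs.1
  exact (hYE hy0).2 (hle (Or.inr hy0))

end UnfT
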