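import Pool.Agent.Work.MP_1aab6d_co_h84.Gadget

set_option autoImplicit false

namespace UnfT

open Finset Classical

variable {V : Type*} {G : SimpleGraph V}

lemma Few.mono {A B : Set V} {a : V} (h : Few G B a) (hAB : A ⊆ B) : Few G A a := by
  have hle : {b | G.Adj a b ∧ b ∈ A}.encard ≤ {b | G.Adj a b ∧ b ∈ B}.encard :=
    Set.encard_le_encard fun b hb => ⟨hb.1, hAB hb.2⟩
  rcases h with h | ⟨h1, h2⟩
  · exact Or.inl (hle.trans h)
  · exact Or.inr ⟨h1, hle.trans h2⟩

lemma Few.ncard {A B : Set V} {a : V} (ha : ¬ Inf G a) (h : Few G B a)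
    (hAB : ∀ b, G.Adj a b → b ∈ A → b ∈ B) (hA : ∀ b ∈ A, G.Adj a b) :
    A.ncard ≤ 1 ∨ (Even (G.neighborSet a).ncard ∧ A.ncard ≤ 2) := by
  have hle : A.encard ≤ {b | G.Adj a b ∧ b ∈ B}.encard :=
    Set.encard_le_encard fun b hb => ⟨hA b hb, hAB b (hA b hb) hb⟩
  have hfin : A.Finite := (Set.not_infinite.1 ha).subset fun b hb => hA b hb
  have he : (A.ncard : ℕ∞) = A.encard := hfin.cast_ncard_eq
  rcases h with h | ⟨h1, h2⟩
  · left
    have := hle.trans h
    rw [← he] at this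
    exact_mod_cast this
  · right
    refine ⟨h1, ?_⟩
    have := hle.trans h2
    rw [← he] at this
    exact_mod_cast this

/-- Components all of whose vertices have at most one neighbour in `E` other than `u` are robust. -/
theorem rob_thin {x u : V} {E : Set V} (hx : ¬ Inf G x) (hf : (comp G x).Finite) (hu : Inf G u)
    (hux : G.Adj u x) (huE : u ∈ E) (hthin : ∀ a ∈ comp G x, Few G (E \ {u}) a) :
    Rob G E (comp G x) u := by
  intro D huD z hno
  refine ⟨{u}, fun v hv => ?_, Set.singleton_nonempty u, fun v => !(z v), fun z' h1 h2 w hw => ?_⟩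
  · rw [Set.mem_singleton_iff.1 hv]; exact ⟨huE, huD⟩
  rw [Set.mem_singleton_iff.1 hw]
  have h2u : z' u = !(z u) := h2 u (Set.mem_singleton u)
  set z'' : V → Bool := fun v => if v ∈ E then z v else z' v with hz''
  have hn : ¬ Srv G z'' (comp G x) u := by
    refine hno z'' fun v hv => ?_
    by_cases hvE : v ∈ E
    · exact if_pos hvE
    · rw [hz'']
      simp only [if_neg hvE]
      exact h1 v (hv.resolve_right hvE)
  refine (lemma_P hx hf hu hux (z1 := z'') (z2 := z') ?_ {b | b ≠ u ∧ z'' b ≠ z' b}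
    (fun b => Iff.rfl) ?_).resolve_left hn
  · rw [h2u, hz'']
    simp only [if_pos huE]
    cases z u <;> simp
  · intro a ha
    refine (hthin a ha).ncard (comp_not_inf hx ha) (fun b hab hb => ?_) fun b hb => hb.1
    obtain ⟨-, -, hbu, hbne⟩ := hb
    refine ⟨?_, hbu⟩
    by_contra hbE
    apply hbne
    rw [hz'']
    simp only [if_neg hbE]

/-! ### The free petals are thin -/

variable (G) in
/-- The field of the vertices outside `Dd`. -/
noncomputable def FK (C : Finset V) (Dd : Set V) (K : ℤ) (z : V → Bool) (v : V) : ℤ :=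
  K * ∑ b ∈ (nb G v \ C).filter (· ∉ Dd), sg (z b)

lemma HH_FL {C : Finset V} {J : V → V → ℤ} {Dd : Set V} {K : ℤ} {z s : V → Bool} :
    HH C J (FL G C Dd K z) s = HH C J (FK G C Dd K z) s
      + 2 * ∑ v ∈ C, sg (s v) * ∑ b ∈ (nb G v \ C).filter (· ∈ Dd), sg (z b) := by
  unfold HH
  rw [Finset.mul_sum, ← Finset.sum_add_distrib]
  refine Finset.sum_congr rfl fun v _ => ?_
  rw [FL_split, FK]; ring

lemma HH_FK_sub {C : Finset V} (hCF : ∀ v ∈ C, ¬ Inf G v) {J : V → V → ℤ} {Dd : Set V} {K : ℤ}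
    {z1 z2 : V → Bool} {u : V} (huC : u ∉ C) (huD : u ∉ Dd) (hz : z1 u ≠ z2 u)
    (hnD : ∀ b, b ∉ C → b ≠ u → b ∉ Dd → z1 b = z2 b) (s : V → Bool) :
    HH C J (FK G C Dd K z1) s - HH C J (FK G C Dd K z2) s
      = 4 * (K * (sg (z1 u) * ∑ v ∈ C.filter (G.Adj u), sg (s v))) := by
  have b1 : ∀ v ∈ C, FK G C Dd K z1 v - FK G C Dd K z2 v
      = 2 * (if G.Adj u v then K * sg (z1 u) else 0) := by
    intro v hv
    have c0 : ∑ b ∈ (nb G v \ C).filter (· ∉ Dd), sg (z1 b)
        - ∑ b ∈ (nb G v \ C).filter (· ∉ Dd), sg (z2 b)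
        = if G.Adj u v then 2 * sg (z1 u) else 0 := by
      rw [← Finset.sum_sub_distrib]
      have c2 : ∀ b ∈ (nb G v \ C).filter (· ∉ Dd), sg (z1 b) - sg (z2 b)
          = if b = u then 2 * sg (z1 u) else 0 := by
        intro b hb
        rw [mem_filter, mem_sdiff] at hb
        by_cases hbu : b = u
        · subst hbu
          have : sg (z2 b) = - sg (z1 b) := by
            rw [← sg_not]; congr 1
            revert hz; cases z1 b <;> cases z2 b <;> simp
          rw [if_pos rfl, this]; ring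
        · rw [if_neg hbu, hnD b hb.1.2 hbu hb.2]; ring
      rw [Finset.sum_congr rfl c2, Finset.sum_ite_eq']
      have : u ∈ (nb G v \ C).filter (· ∉ Dd) ↔ G.Adj u v := by
        rw [mem_filter, mem_sdiff, mem_nb G (hCF v hv), G.adj_comm v u]
        exact ⟨fun h => h.1.1, fun h => ⟨⟨h, huC⟩, huD⟩⟩
      by_cases h' : G.Adj u v
      · rw [if_pos (this.2 h'), if_pos h']
      · rw [if_neg (fun h => h' (this.1 h)), if_neg h']
    unfold FK
    by_cases h' : G.Adj u v
    · rw [if_pos h'] at c0 ⊢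
      linear_combination K * c0
    · rw [if_neg h'] at c0 ⊢
      linear_combination K * c0
  have b2 : HH C J (FK G C Dd K z1) s - HH C J (FK G C Dd K z2) s
      = ∑ v ∈ C, sg (s v) * (2 * (FK G C Dd K z1 v - FK G C Dd K z2 v)) := by
    unfold HH
    rw [← Finset.sum_sub_distrib]
    exact Finset.sum_congr rfl fun v _ => by ring
  rw [b2, Finset.sum_filter]
  have b3 : ∀ v ∈ C, sg (s v) * (2 * (FK G C Dd K z1 v - FK G C Dd K z2 v))
      = 4 * (K * (sg (z1 u) * if G.Adj u v then sg (s v) else 0)) := by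
    intro v hv
    rw [b1 v hv]
    split_ifs <;> ring
  rw [Finset.sum_congr rfl b3, Finset.mul_sum, Finset.mul_sum, Finset.mul_sum]

lemma HH_congr_field {C : Finset V} {J : V → V → ℤ} {h h' : V → ℤ} {s s' : V → Bool}
    (hh : ∀ v ∈ C, h v = h' v) (hs : ∀ v ∈ C, s v = s' v) : HH C J h s = HH C J h' s' := by
  rw [HH_congr (h := h) hs]
  unfold HH
  exact Finset.sum_congr rfl fun v hv => by rw [hh v hv]

lemma FK_congr {C : Finset V} {Dd : Set V} {K : ℤ} {z z' : V → Bool} {v : V}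
    (h : ∀ b ∈ nb G v, b ∉ C → b ∉ Dd → z b = z' b) : FK G C Dd K z v = FK G C Dd K z' v := by
  unfold FK
  congr 1
  refine Finset.sum_congr rfl fun b hb => ?_
  rw [mem_filter, mem_sdiff] at hb
  rw [h b hb.1.1 hb.1.2 hb.2]

/-- The set of the colourings which agree with `z` outside a finite set is finite. -/
lemma finite_colourings (A : Finset V) (z : V → Bool) : {s : V → Bool | ∀ v, v ∉ A → s v = z v}.Finite := by
  refine ((A.powerset.finite_toSet).image
    (fun B : Finset V => fun v => if v ∈ A then decide (v ∈ B) else z v)).subset ?_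
  intro s hs
  refine ⟨A.filter (fun v => s v = true),
    Finset.mem_coe.2 (Finset.mem_powerset.2 (Finset.filter_subset _ _)), ?_⟩
  funext v
  by_cases hv : v ∈ A
  · simp [hv]
  · simp [hv, hs v hv]

/-- Components all of whose vertices have at most one neighbour of infinite degree outside `E` and
`D` are robust: the colours of `E` can be chosen in such a way that all vertices of `E` are
served. -/
theorem rob_free'' {x u : V} {E : Set V} (hx : ¬ Inf G x) (hf : (comp G x).Finite) (hu : Inf G u)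
    (hux : G.Adj u x) (huE : u ∈ E)
    (D : Set V) (hfree : ∀ a ∈ comp G x, Few G {b | Inf G b ∧ b ∉ E ∧ b ∉ D} a)
    (huD : u ∉ D) (z : V → Bool) :
    ∃ Y : Set V, Y ⊆ E \ D ∧ Y.Nonempty ∧ ∃ f : V → Bool, ∀ z' : V → Bool,
      (∀ v ∈ D, z' v = z v) → (∀ v ∈ Y, z' v = f v) → ∀ w ∈ Y, Srv G z' (comp G x) w := by
  have hYf : {b | b ∈ E ∧ b ∉ D ∧ b ∈ bd G x}.Finite := (bd_finite hx hf).subset fun b hb => hb.2.2
  have hub : u ∈ bd G x := ⟨hu, x, mem_comp_self x, hux.symm⟩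
  set C : Finset V := hf.toFinset with hC
  have hCm : ∀ v, v ∈ C ↔ v ∈ comp G x := fun v => by rw [hC, Set.Finite.mem_toFinset]
  have hCF : ∀ v ∈ C, ¬ Inf G v := fun v hv => comp_not_inf hx ((hCm v).1 hv)
  set Y : Finset V := hYf.toFinset with hY
  have hYm : ∀ b, b ∈ Y ↔ b ∈ E ∧ b ∉ D ∧ b ∈ bd G x := fun b => by
    rw [hY, Set.Finite.mem_toFinset]; exact Iff.rfl
  obtain ⟨Dd, hDd⟩ : ∃ Dd : Set V, ∀ b, b ∈ Dd ↔ Inf G b ∧ b ∉ E ∧ b ∉ D :=
    ⟨{b | Inf G b ∧ b ∉ E ∧ b ∉ D}, fun b => Iff.rfl⟩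
  set K : ℤ := KK G C with hK
  have hcard := nb_filter_card (Dd := Dd) hx hCm (fun a ha => (hfree a ha).ncard (comp_not_inf hx ha)
    (fun b _ hb => (hDd b).1 hb.2.2) fun b hb => hb.1)
  let Et : (V → Bool) → ℤ := fun s => HH C (JJ G K) (FK G C Dd K s) s
  obtain ⟨s0, hs0, hmin⟩ := Set.exists_min_image _ Et (finite_colourings (C ∪ Y) z) ⟨z, fun _ _ => rfl⟩
  have hs0' : ∀ v, v ∉ C → v ∉ Y → s0 v = z v := fun v h1 h2 => hs0 v (by
    rw [mem_union, not_or]; exact ⟨h1, h2⟩)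
  refine ⟨(Y : Set V), fun v hv => ?_, ⟨u, ?_⟩, s0, fun z' h1 h2 w hw => ?_⟩
  · have := (hYm v).1 hv
    exact ⟨this.1, this.2.1⟩
  · exact (hYm u).2 ⟨huE, huD, hub⟩
  have hwY := (hYm w).1 hw
  obtain ⟨s, hs, hm⟩ := exists_HH_min C (JJ G K) (FL G C Dd K z') z'
  have hstab := min_stab hCF hcard hs hm
  refine ⟨s, fun v hv => hs v (fun h => hv ((hCm v).1 h)), fun v hv => hstab v ((hCm v).2 hv), ?_⟩
  by_contra hcon
  push Not at hcon
  have hwC : w ∉ C := fun h => hCF w h hwY.2.2.1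
  have hz'w : z' w = s0 w := h2 w hw
  have hN : ∀ y ∈ C, G.Adj w y → s y = s0 w := fun y hy hwy => by
    rw [hcon y ((hCm y).1 hy) hwy, hz'w]
  -- the fields agree
  have hbdC : ∀ v ∈ C, ∀ b ∈ nb G v, b ∉ C → b ∈ bd G x := by
    intro v hv b hb hbC
    rcases comp_adj ((hCm v).1 hv) ((mem_nb G (hCF v hv)).1 hb) with h | h
    · exact absurd ((hCm b).2 h) hbC
    · exact h
  have hFK : ∀ v ∈ C, FK G C Dd K z' v = FK G C Dd K s0 v := by
    intro v hv
    refine FK_congr fun b hb hbC hbD => ?_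
    have hbd := hbdC v hv b hb hbC
    by_cases hbDD : b ∈ D
    · rw [h1 b hbDD, hs0' b hbC fun h => ((hYm b).1 h).2.1 hbDD]
    · have hbE : b ∈ E := by
        by_contra hbE
        exact hbD ((hDd b).2 ⟨hbd.1, hbE, hbDD⟩)
      exact h2 b ((hYm b).2 ⟨hbE, hbDD, hbd⟩)
  set sf : V → Bool := fun v => if v ∈ C then s v else s0 v with hsf
  have sf1 : ∀ v ∈ C, sf v = s v := fun v hv => if_pos hv
  have sf2 : ∀ v, v ∉ C → sf v = s0 v := fun v hv => if_neg hv
  set si : V → Bool := Function.update sf w (!(s0 w)) with hsi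
  have si1 : ∀ v ∈ C, si v = s v := fun v hv => by
    have hvw : v ≠ w := fun h => hwC (h ▸ hv)
    rw [hsi, Function.update_of_ne hvw, sf1 v hv]
  have hsiS : ∀ v, v ∉ C ∪ Y → si v = z v := by
    intro v hv
    rw [mem_union, not_or] at hv
    have hvw : v ≠ w := fun h => hv.2 (h ▸ hw)
    rw [hsi, Function.update_of_ne hvw, sf2 v hv.1, hs0' v hv.1 hv.2]
  have hmin' : Et s0 ≤ Et si := hmin si hsiS
  have e1 : Et sf = HH C (JJ G K) (FK G C Dd K s0) s :=
    HH_congr_field (fun v _ => FK_congr fun b _ hbC _ => sf2 b hbC) sf1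
  have e2 : Et si = HH C (JJ G K) (FK G C Dd K si) s :=
    HH_congr_field (fun _ _ => rfl) si1
  have e1' : Et sf = HH C (JJ G K) (FK G C Dd K sf) s := HH_congr_field (fun _ _ => rfl) sf1
  have huDd : w ∉ Dd := fun h => ((hDd w).1 h).2.1 hwY.1
  have hzne : sf w ≠ si w := by
    rw [hsi, Function.update_self, sf2 w hwC]; cases s0 w <;> simp
  have e3 := HH_FK_sub hCF (J := JJ G K) (K := K) hwC huDd hzne
    (fun b _ hbw _ => by rw [hsi, Function.update_of_ne hbw]) s
  rw [← e1', ← e2] at e3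
  obtain ⟨-, a, ha, haw⟩ := hwY.2.2
  set d : ℕ := (C.filter (G.Adj w)).card with hd
  have hd1 : 1 ≤ d := by
    rw [hd, Nat.one_le_iff_ne_zero, ← Nat.pos_iff_ne_zero, Finset.card_pos]
    exact ⟨a, mem_filter.2 ⟨(hCm a).2 ha, haw.symm⟩⟩
  have f1 : sg (sf w) * ∑ v ∈ C.filter (G.Adj w), sg (s v) = d := by
    rw [Finset.mul_sum, Finset.sum_congr rfl (g := fun _ => (1 : ℤ))]
    · simp [hd]
    · intro v hv
      rw [hN v (mem_filter.1 hv).1 (mem_filter.1 hv).2, sf2 w hwC, sg_mul_self]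
  rw [f1] at e3
  have m1 := hm s0
  rw [HH_FL, HH_FL, HH_congr_field (s := s) (s' := s) hFK (fun _ _ => rfl),
    HH_congr_field (s := s0) (s' := s0) hFK (fun _ _ => rfl), ← e1] at m1
  have g1 := abs_le.1 (abs_pert_le (G := G) (C := C) Dd z' s)
  have g2 := abs_le.1 (abs_pert_le (G := G) (C := C) Dd z' s0)
  rw [← hK] at g1 g2
  have hK1 : 1 ≤ K := by linarith [g1.1, g1.2]
  have hd1' : (1 : ℤ) ≤ d := by exact_mod_cast hd1
  have hKd : K ≤ K * d := by nlinarith
  have hEt : Et s0 = HH C (JJ G K) (FK G C Dd K s0) s0 := rfl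
  rw [hEt] at hmin'
  linarith [g1.1, g1.2, g2.1, g2.2]

theorem rob_free' {x u : V} {E : Set V} (hx : ¬ Inf G x) (hf : (comp G x).Finite) (hu : Inf G u)
    (hux : G.Adj u x) (huE : u ∈ E) (hfree : ∀ a ∈ comp G x, Few G {b | Inf G b ∧ b ∉ E} a)
    (D : Set V) (huD : u ∉ D) (z : V → Bool) :
    ∃ Y : Set V, Y ⊆ E \ D ∧ Y.Nonempty ∧ ∃ f : V → Bool, ∀ z' : V → Bool,
      (∀ v ∈ D, z' v = z v) → (∀ v ∈ Y, z' v = f v) → ∀ w ∈ Y, Srv G z' (comp G x) w :=
  rob_free'' hx hf hu hux huE D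
    (fun a ha => (hfree a ha).mono fun _ hb => ⟨hb.1, hb.2.1⟩) huD z

/-- Components all of whose vertices have at most one neighbour of infinite degree outside `E` are
robust. -/
theorem rob_free {x u : V} {E : Set V} (hx : ¬ Inf G x) (hf : (comp G x).Finite) (hu : Inf G u)
    (hux : G.Adj u x) (huE : u ∈ E) (hfree : ∀ a ∈ comp G x, Few G {b | Inf G b ∧ b ∉ E} a) :
    Rob G E (comp G x) u :=
  fun D huD z _ => rob_free' hx hf hu hux huE hfree D huD z

end UnfT
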