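import Pool.Agent.Work.MP_1aab6d_co_h84.Basic

set_option autoImplicit false

namespace UnfT

open Finset Classical

variable {V : Type*} {G : SimpleGraph V}

/-- Flip the colours of the vertices in `B`. -/
noncomputable def flp (c : V → Bool) (B : Finset V) : V → Bool :=
  fun v => if v ∈ B then !(c v) else c v

lemma flp_of_mem {c : V → Bool} {B : Finset V} {v : V} (h : v ∈ B) : flp c B v = !(c v) := if_pos h
lemma flp_of_not_mem {c : V → Bool} {B : Finset V} {v : V} (h : v ∉ B) : flp c B v = c v := if_neg h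

lemma eps_flp_same {c : V → Bool} {B : Finset V} {x y : V} (h : x ∈ B ↔ y ∈ B) :
    eps Set.univ (flp c B) x y = eps Set.univ c x y := by
  unfold eps flp
  by_cases hx : x ∈ B
  · simp [hx, h.1 hx]
  · have hy : y ∉ B := fun hy => hx (h.2 hy)
    simp [hx, hy]

lemma eps_flp_diff {c : V → Bool} {B : Finset V} {x y : V} (h : ¬ (x ∈ B ↔ y ∈ B)) :
    eps Set.univ (flp c B) x y = - eps Set.univ c x y := by
  unfold eps flp
  by_cases hx : x ∈ B
  · have hy : y ∉ B := fun hy => h ⟨fun _ => hy, fun _ => hx⟩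
    cases hcx : c x <;> cases hcy : c y <;> simp [hx, hy, hcy]
  · have hy : y ∈ B := by
      by_contra hy; exact h ⟨fun h' => absurd h' hx, fun h' => absurd h' hy⟩
    cases hcx : c x <;> cases hcy : c y <;> simp [hx, hy, hcy]

theorem en_flp (c : V → Bool) (B Q : Finset V) (hB : ∀ x ∈ B, ¬ Inf G x)
    (hQ : ∀ x ∈ Q, ¬ Inf G x) :
    en G (eps Set.univ (flp c B)) Q
      = en G (eps Set.univ c) (symmDiff B Q) - en G (eps Set.univ c) B := by
  set s := eps Set.univ c with hs
  set t := eps Set.univ (flp c B) with ht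
  set B0 := B \ Q
  set Q0 := Q \ B
  set X := B ∩ Q
  have hB0 : ∀ x ∈ B0, ¬ Inf G x := fun x hx => hB x (mem_sdiff.1 hx).1
  have hQ0 : ∀ x ∈ Q0, ¬ Inf G x := fun x hx => hQ x (mem_sdiff.1 hx).1
  have hX : ∀ x ∈ X, ¬ Inf G x := fun x hx => hB x (mem_inter.1 hx).1
  have dQX : Disjoint Q0 X := by
    rw [Finset.disjoint_left]; intro x h1 h2
    exact (mem_sdiff.1 h1).2 (mem_inter.1 h2).1
  have dBX : Disjoint B0 X := by
    rw [Finset.disjoint_left]; intro x h1 h2
    exact (mem_sdiff.1 h1).2 (mem_inter.1 h2).2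
  have dBQ : Disjoint B0 Q0 := by
    rw [Finset.disjoint_left]; intro x h1 h2
    exact (mem_sdiff.1 h1).2 (mem_sdiff.1 h2).1
  have eQ : Q = Q0 ∪ X := by
    ext x; simp only [Q0, X, mem_union, mem_sdiff, mem_inter]; tauto
  have eB : B = B0 ∪ X := by
    ext x; simp only [B0, X, mem_union, mem_sdiff, mem_inter]; tauto
  have eS : symmDiff B Q = B0 ∪ Q0 := by
    ext x; simp only [B0, Q0, mem_union, mem_sdiff, Finset.mem_symmDiff]
  have hsym : ∀ (P P' : Finset V), (∀ x ∈ P, ¬ Inf G x) → (∀ x ∈ P', ¬ Inf G x) →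
      cr G s P P' = cr G s P' P := fun P P' h h' =>
    cr_symm h h' (fun x _ y _ _ => eps_symm (Set.mem_univ _) (Set.mem_univ _))
  -- pieces
  have h1 : en G t Q0 = en G s Q0 + (-2) * cr G s Q0 B := by
    rw [← cr_smul, ← en_add_ind]
    · refine en_congr fun x hx y _ _ => ?_
      have hx' : x ∉ B := (mem_sdiff.1 hx).2
      by_cases hy : y ∈ B
      · rw [if_pos hy, ht, eps_flp_diff (fun h => hx' (h.2 hy))]; ring
      · rw [if_neg hy, ht, eps_flp_same ⟨fun h => absurd h hx', fun h => absurd h hy⟩]; ring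
    · exact Finset.sdiff_disjoint
  have h1' : cr G s Q0 B = cr G s Q0 B0 + cr G s Q0 X := by
    unfold cr
    rw [← Finset.sum_add_distrib]
    refine Finset.sum_congr rfl fun x _ => ?_
    rw [← Finset.sum_union]
    · congr 1
      ext y
      simp only [B0, X, mem_union, mem_inter, mem_sdiff]; tauto
    · rw [Finset.disjoint_left]; intro y hy hy'
      exact Finset.disjoint_left.1 dBX (mem_inter.1 hy).2 (mem_inter.1 hy').2
  have h2 : en G t X = - en G s X + 2 * cr G s X B0 := by
    have : - en G s X = en G (fun x y => (-1) * s x y) X := by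
      simp [en]
    rw [this, ← cr_smul, ← en_add_ind]
    · refine en_congr fun x hx y _ hyX => ?_
      have hx' : x ∈ B := (mem_inter.1 hx).1
      by_cases hy : y ∈ B0
      · rw [if_pos hy, ht, eps_flp_same ⟨fun _ => (mem_sdiff.1 hy).1, fun _ => hx'⟩]; ring
      · have hyB : y ∉ B := fun h => by
          by_cases hyQ : y ∈ Q
          · exact hyX (mem_inter.2 ⟨h, hyQ⟩)
          · exact hy (mem_sdiff.2 ⟨h, hyQ⟩)
        rw [if_neg hy, ht, eps_flp_diff (fun h => hyB (h.1 hx'))]; ring
    · exact dBX.symm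
  have h3 : cr G t Q0 X = (-1) * cr G s Q0 X := by
    rw [← cr_smul]
    refine cr_congr fun x hx y _ hy => ?_
    rw [ht, eps_flp_diff (fun h => (mem_sdiff.1 hx).2 (h.2 (mem_inter.1 hy).1))]; ring
  have h4 : cr G t X Q0 = (-1) * cr G s X Q0 := by
    rw [← cr_smul]
    refine cr_congr fun x hx y _ hy => ?_
    rw [ht, eps_flp_diff (fun h => (mem_sdiff.1 hy).2 (h.1 (mem_inter.1 hx).1))]; ring
  have h5 : en G t Q = en G t Q0 + en G t X - cr G t Q0 X - cr G t X Q0 := by
    conv_lhs => rw [eQ]
    exact en_union t dQX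
  have h6 : en G s B = en G s B0 + en G s X - cr G s B0 X - cr G s X B0 := by
    conv_lhs => rw [eB]
    exact en_union s dBX
  have h7 : en G s (symmDiff B Q) = en G s B0 + en G s Q0 - cr G s B0 Q0 - cr G s Q0 B0 := by
    rw [eS]; exact en_union s dBQ
  have s1 := hsym X Q0 hX hQ0
  have s2 := hsym X B0 hX hB0
  have s3 := hsym B0 Q0 hB0 hQ0
  rw [h5, h6, h7, h1, h2, h3, h4, h1']
  linarith

lemma continuous_eps (x y : V) : Continuous (fun c : V → Bool => eps Set.univ c x y) := by
  have : (fun c : V → Bool => eps Set.univ c x y)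
      = (fun p : Bool × Bool => if p.2 ≠ p.1 then (1 : ℤ) else -1) ∘ (fun c => (c x, c y)) := by
    funext c; simp [eps]
  rw [this]
  exact (continuous_of_discreteTopology).comp ((continuous_apply x).prodMk (continuous_apply y))

lemma continuous_en (Q : Finset V) : Continuous (fun c : V → Bool => en G (eps Set.univ c) Q) := by
  unfold en
  exact continuous_finsetSum _ fun x _ => continuous_finsetSum _ fun y _ => continuous_eps x y

theorem exists_total {R : Set V} {ρ : V → Bool} (h : FS G R ρ) :
    ∃ c : V → Bool, (∀ v ∈ R, c v = ρ v) ∧ TM G c := by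
  set R1 : Set V := R ∪ {v | Inf G v} with hR1
  have h1 : FS G R1 ρ := h.glue Set.subset_union_left (fun _ _ => rfl) (by
    intro Q hQ
    have : Q = ∅ := by
      rw [Finset.eq_empty_iff_forall_notMem]
      intro x hx
      obtain ⟨ha, hb, hc⟩ := hQ x hx
      rcases ha with ha | ha
      · exact hb ha
      · exact hc ha
    rw [this, en_empty])
  let K : Finset V → Set (V → Bool) := fun Q =>
    {c | (∀ v ∈ R1, c v = ρ v) ∧ ((∀ x ∈ Q, x ∉ R1) → 0 ≤ en G (eps Set.univ c) Q)}
  have hK : ∀ Q, IsClosed (K Q) := by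
    intro Q
    have c1 : IsClosed {c : V → Bool | ∀ v ∈ R1, c v = ρ v} := by
      have : {c : V → Bool | ∀ v ∈ R1, c v = ρ v} = ⋂ v ∈ R1, {c | c v = ρ v} := by
        ext c; simp
      rw [this]
      exact isClosed_biInter fun v _ => isClosed_eq (continuous_apply v) continuous_const
    by_cases hq : ∀ x ∈ Q, x ∉ R1
    · have : K Q = {c : V → Bool | ∀ v ∈ R1, c v = ρ v} ∩ {c | 0 ≤ en G (eps Set.univ c) Q} := by
        ext c; simp only [K, Set.mem_ofPred_eq, Set.mem_inter_iff]
        exact and_congr_right fun _ => ⟨fun h => h hq, fun h _ => h⟩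
      rw [this]
      exact c1.inter (isClosed_le continuous_const (continuous_en Q))
    · have : K Q = {c : V → Bool | ∀ v ∈ R1, c v = ρ v} := by
        ext c; simp only [K, Set.mem_ofPred_eq]
        exact ⟨fun h => h.1, fun h => ⟨h, fun h' => absurd h' hq⟩⟩
      rw [this]; exact c1
  have hne : ∀ t : Finset (Finset V), (Set.univ ∩ ⋂ Q ∈ t, K Q).Nonempty := by
    intro t
    set A : Finset V := (t.biUnion id).filter (· ∉ R1) with hA
    have hAI : ∀ x ∈ A, ¬ Inf G x := by
      intro x hx hI
      rw [hA, mem_filter] at hx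
      exact hx.2 (Or.inr hI)
    obtain ⟨B, hB, hmin⟩ := Finset.exists_min_image A.powerset
      (fun B => en G (eps Set.univ ρ) B) ⟨∅, Finset.empty_mem_powerset A⟩
    rw [mem_powerset] at hB
    refine ⟨flp ρ B, Set.mem_univ _, ?_⟩
    simp only [Set.mem_iInter]
    intro Q hQt
    refine ⟨fun v hv => flp_of_not_mem fun hvB => ?_, fun hq => ?_⟩
    · have := hB hvB
      rw [hA, mem_filter] at this
      exact this.2 hv
    · have hQA : Q ⊆ A := by
        intro x hx
        rw [hA, mem_filter]
        exact ⟨mem_biUnion.2 ⟨Q, hQt, hx⟩, hq x hx⟩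
      rw [en_flp ρ B Q (fun x hx => hAI x (hB hx)) (fun x hx => hAI x (hQA hx))]
      have : symmDiff B Q ∈ A.powerset := by
        rw [mem_powerset]
        intro x hx
        rw [Finset.mem_symmDiff] at hx
        rcases hx with hx | hx
        · exact hB hx.1
        · exact hQA hx.1
      have := hmin _ this
      linarith
  obtain ⟨c, -, hc⟩ := isCompact_univ.inter_iInter_nonempty K hK hne
  rw [Set.mem_iInter] at hc
  refine ⟨c, fun v hv => (hc ∅).1 v (Or.inl hv), ?_⟩
  refine h1.glue (Set.subset_univ _) (hc ∅).1 fun Q hQ => (hc Q).2 fun x hx => (hQ x hx).2.1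

/-- The Aharoni-Milner-Prikry flip: an unhappy vertex of infinite degree can be flipped and the
colouring repaired on finitely many vertices of finite degree. -/
theorem amp_flip {c : V → Bool} (hc : TM G c) {w : V} (hw : Inf G w)
    (hfin : ¬ Happy G c w) : ∃ Q : Finset V, (∀ x ∈ Q, ¬ Inf G x) ∧
      TM G (flp (Function.update c w (!(c w))) Q) := by
  have hfin' : {y | G.Adj w y ∧ c y ≠ c w}.Finite := Set.not_infinite.1 hfin
  set c1 := Function.update c w (!(c w)) with hc1
  set O := hfin'.toFinset with hO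
  have hb : ∀ Q : Finset V, (∀ x ∈ Q, ¬ Inf G x) → -(2 * (O.card : ℤ)) ≤ en G (eps Set.univ c1) Q := by
    intro Q hQ
    have hcQ := hc Q (fun x hx => ⟨Set.mem_univ _, hQ x hx⟩)
    have hwQ : w ∉ Q := fun h => hQ w h hw
    have e1 : en G (fun x y => eps Set.univ c x y + if y ∈ ({w} : Finset V) then
        (if x ∈ O then (-2 : ℤ) else 0) else 0) Q ≤ en G (eps Set.univ c1) Q := by
      refine en_mono fun x hx y hy _ => ?_
      have hxw : x ≠ w := fun h => hwQ (h ▸ hx)
      by_cases hyw : y = w
      · subst hyw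
        rw [if_pos (Finset.mem_singleton_self _)]
        by_cases hxO : x ∈ O
        · rw [if_pos hxO]
          have a1 := eps_le_one Set.univ c x y
          have a2 := neg_one_le_eps Set.univ c1 x y
          linarith
        · rw [if_neg hxO]
          have : c x = c y := by
            by_contra hne
            refine hxO ?_
            rw [hO, Set.Finite.mem_toFinset]
            exact ⟨((mem_nb G (hQ x hx)).1 hy).symm, hne⟩
          rw [eps_eq_neg (by simp [this]), eps_eq_one (Set.mem_univ _)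
            (by rw [hc1, Function.update_self, Function.update_of_ne hxw, this]; simp)]
          norm_num
      · rw [if_neg (by simpa using hyw), add_zero]
        unfold eps
        rw [hc1, Function.update_of_ne hxw, Function.update_of_ne hyw]
    rw [en_add_ind _ _ (by simpa using hwQ)] at e1
    have e2 : -(2 * (O.card : ℤ)) ≤ cr G (fun x _ => if x ∈ O then (-2 : ℤ) else 0) Q {w} := by
      unfold cr
      have : ∀ x ∈ Q, (if x ∈ O then (-2 : ℤ) else 0)
          ≤ ∑ y ∈ nb G x ∩ {w}, (if x ∈ O then (-2 : ℤ) else 0) := by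
        intro x _
        rw [Finset.sum_const]
        have hcard : (nb G x ∩ {w}).card ≤ 1 := by
          refine (Finset.card_le_card Finset.inter_subset_right).trans ?_
          simp
        split_ifs
        · interval_cases hh : (nb G x ∩ {w}).card <;> simp
        · simp
      refine le_trans ?_ (Finset.sum_le_sum this)
      rw [← Finset.sum_filter, Finset.sum_const, nsmul_eq_mul]
      have : ((Q.filter (· ∈ O)).card : ℤ) ≤ O.card := by
        exact_mod_cast Finset.card_le_card (fun x hx => (mem_filter.1 hx).2)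
      linarith
    linarith
  obtain ⟨m, ⟨Q, hQ, hQm⟩, hmin⟩ := Int.exists_least_of_bdd
    (P := fun z => ∃ Q : Finset V, (∀ x ∈ Q, ¬ Inf G x) ∧ en G (eps Set.univ c1) Q = z)
    ⟨-(2 * (O.card : ℤ)), by rintro z ⟨Q, hQ, rfl⟩; exact hb Q hQ⟩ ⟨_, ∅, by simp, rfl⟩
  refine ⟨Q, hQ, fun Q' hQ' => ?_⟩
  have hQ'' : ∀ x ∈ Q', ¬ Inf G x := fun x hx => (hQ' x hx).2
  rw [en_flp c1 Q Q' hQ hQ'', hQm]
  have := hmin _ ⟨symmDiff Q Q', ?_, rfl⟩
  · linarith
  · intro x hx
    rw [Finset.mem_symmDiff] at hx
    rcases hx with hx | hx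
    · exact hQ x hx.1
    · exact hQ'' x hx.1

lemma Happy.flp {c : V → Bool} {u : V} (h : Happy G c u) {c' : V → Bool} {T : Finset V}
    (hc : ∀ v, v ∉ T → c' v = c v) (hu : c' u = c u) : Happy G c' u := by
  refine Set.Infinite.mono ?_ (Set.Infinite.sdiff h T.finite_toSet)
  rintro y ⟨⟨h1, h2⟩, h3⟩
  refine ⟨h1, ?_⟩
  rw [hu, hc y (by simpa using h3)]
  exact h2

/-- If all but finitely many vertices of infinite degree are happy, the colouring can be repaired. -/
theorem repair (n : ℕ) : ∀ c : V → Bool, TM G c →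
    {u | Inf G u ∧ ¬ Happy G c u}.encard ≤ n →
    ∃ c' : V → Bool, TM G c' ∧ ∀ u, Inf G u → Happy G c' u := by
  induction n with
  | zero =>
    intro c hc h
    refine ⟨c, hc, fun u hu => ?_⟩
    by_contra hn
    have : {u | Inf G u ∧ ¬ Happy G c u} = ∅ := by
      rw [← Set.encard_eq_zero]; simpa using h
    exact (this ▸ (show u ∈ {u | Inf G u ∧ ¬ Happy G c u} from ⟨hu, hn⟩) : u ∈ (∅ : Set V))
  | succ n ih =>
    intro c hc h
    by_cases hall : ∀ u, Inf G u → Happy G c u
    · exact ⟨c, hc, hall⟩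
    push Not at hall
    obtain ⟨w, hw, hwn⟩ := hall
    obtain ⟨Q, hQ, hT⟩ := amp_flip hc hw hwn
    set c' := UnfT.flp (Function.update c w (!(c w))) Q with hc'
    have hwQ : w ∉ Q := fun h => hQ w h hw
    have hcw : c' w = !(c w) := by rw [hc', flp_of_not_mem hwQ, Function.update_self]
    have hag : ∀ v, v ∉ insert w Q → c' v = c v := by
      intro v hv
      rw [Finset.mem_insert, not_or] at hv
      rw [hc', flp_of_not_mem hv.2, Function.update_of_ne hv.1]
    refine ih c' hT ?_
    have hsub : {u | Inf G u ∧ ¬ Happy G c' u} ⊆ {u | Inf G u ∧ ¬ Happy G c u} \ {w} := by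
      rintro u ⟨hu, hun⟩
      have huw : u ≠ w := by
        rintro rfl
        apply hun
        have hfin : {y | G.Adj u y ∧ c y ≠ c u}.Finite := Set.not_infinite.1 hwn
        have : (G.neighborSet u \ ({y | G.Adj u y ∧ c y ≠ c u} ∪ ↑(insert u Q))).Infinite :=
          Set.Infinite.sdiff hu (hfin.union (Finset.finite_toSet _))
        refine this.mono ?_
        rintro y ⟨hy1, hy2⟩
        rw [Set.mem_union, not_or] at hy2
        refine ⟨hy1, ?_⟩
        rw [hcw, hag y (by simpa using hy2.2)]
        have : c y = c u := by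
          by_contra hne
          exact hy2.1 ⟨hy1, hne⟩
        rw [this]; simp
      refine ⟨⟨hu, fun hh => hun ?_⟩, huw⟩
      have huQ : u ∉ insert w Q := by
        rw [Finset.mem_insert, not_or]
        exact ⟨huw, fun h => hQ u h hu⟩
      exact hh.flp hag (hag u huQ)
    have hmem : w ∈ {u | Inf G u ∧ ¬ Happy G c u} := ⟨hw, hwn⟩
    have h1 := Set.encard_le_encard hsub
    have h2 := Set.encard_sdiff_singleton_add_one hmem
    have h3 : ({u | Inf G u ∧ ¬ Happy G c u} \ {w}).encard + 1 ≤ (n : ℕ∞) + 1 := by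
      rw [h2]; simpa using h
    have h4 := (ENat.add_le_add_iff_right (by simp : (1 : ℕ∞) ≠ ⊤)).1 h3
    exact h1.trans h4

/-- A total strong colouring with all vertices of infinite degree happy is unfriendly. -/
theorem unfriendly_of [Countable V] {c : V → Bool} (hc : TM G c)
    (hI : ∀ u, Inf G u → Happy G c u) : Unfriendly G c := by
  intro v
  by_cases hv : Inf G v
  · have h1 : Infinite {w : V // G.Adj v w ∧ c w ≠ c v} := (hI v hv).to_subtype
    calc Cardinal.mk {w : V // G.Adj v w ∧ c w = c v} ≤ Cardinal.aleph0 := Cardinal.mk_le_aleph0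
      _ ≤ _ := Cardinal.aleph0_le_mk _
  · have h := hc {v} (by simpa using hv)
    have e : en G (eps Set.univ c) {v} = ∑ y ∈ nb G v, (if c y ≠ c v then (1 : ℤ) else -1) := by
      unfold en
      rw [Finset.sum_singleton]
      have : nb G v \ {v} = nb G v := by
        ext y
        rw [mem_sdiff, Finset.mem_singleton]
        refine ⟨fun h => h.1, fun h => ⟨h, ?_⟩⟩
        rintro rfl
        exact G.loopless.irrefl _ ((mem_nb G hv).1 h)
      rw [this]
      refine Finset.sum_congr rfl fun y _ => ?_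
      simp [eps]
    rw [e, Finset.sum_ite, Finset.sum_const, Finset.sum_const] at h
    have a1 : Cardinal.mk {w : V // G.Adj v w ∧ c w = c v}
        = (((nb G v).filter (fun y => ¬ c y ≠ c v)).card : Cardinal) := by
      rw [← Cardinal.mk_coe_finset]
      refine Cardinal.mk_congr (Equiv.subtypeEquivRight fun w => ?_)
      rw [mem_filter, mem_nb G hv]; simp
    have a2 : Cardinal.mk {w : V // G.Adj v w ∧ c w ≠ c v}
        = (((nb G v).filter (fun y => c y ≠ c v)).card : Cardinal) := by
      rw [← Cardinal.mk_coe_finset]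
      refine Cardinal.mk_congr (Equiv.subtypeEquivRight fun w => ?_)
      rw [mem_filter, mem_nb G hv]
    rw [a1, a2]
    have : ((nb G v).filter (fun y => ¬ c y ≠ c v)).card ≤ ((nb G v).filter (fun y => c y ≠ c v)).card := by
      simp only [nsmul_eq_mul, mul_one, mul_neg] at h
      omega
    exact_mod_cast this

end UnfT
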